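import Pool.Agent.MP_888de5_co.Hex.St

set_option autoImplicit false
open Finset MeasureTheory
open scoped Classical

namespace Hex888
noncomputable section

def sqG : Set (ℝ × ℝ) := Set.Ico (0 : ℝ) 1 ×ˢ Set.Ico (0 : ℝ) 1
def ptG (N : ℕ) (e : ℕ × ℕ) (z : ℝ × ℝ) : ℝ × ℝ := (((e.1 : ℝ) + z.1) / N, ((e.2 : ℝ) + z.2) / N)
def grG (B : Set (ℝ × ℝ)) (N : ℕ) (z : ℝ × ℝ) : Gr :=
  (range N ×ˢ range N).filter (fun e => ptG N e z ∈ B)
def cellG (N : ℕ) (e : ℕ × ℕ) : Set (ℝ × ℝ) :=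
  Set.Ico ((e.1 : ℝ) / N) (((e.1 : ℝ) + 1) / N) ×ˢ Set.Ico ((e.2 : ℝ) / N) (((e.2 : ℝ) + 1) / N)

theorem meas_sqG : MeasurableSet sqG := measurableSet_Ico.prod measurableSet_Ico
theorem meas_cellG (N : ℕ) (e : ℕ × ℕ) : MeasurableSet (cellG N e) :=
  measurableSet_Ico.prod measurableSet_Ico
theorem meas_ptG (N : ℕ) (e : ℕ × ℕ) : Measurable (ptG N e) := by
  unfold ptG; fun_prop

theorem ptG_eq (N : ℕ) (e : ℕ × ℕ) (z : ℝ × ℝ) :
    ptG N e z = ((N : ℝ)⁻¹) • (z + ((e.1 : ℝ), (e.2 : ℝ))) := by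
  ext <;> simp [ptG, div_eq_inv_mul, add_comm, mul_add]

theorem vol_pre_G (N : ℕ) (hN : 1 ≤ N) (e : ℕ × ℕ) (B : Set (ℝ × ℝ)) :
    volume (ptG N e ⁻¹' B) = (N : ENNReal) ^ 2 * volume B := by
  have hN0 : (0 : ℝ) < N := by exact_mod_cast hN
  have e1 : ptG N e ⁻¹' B = (fun z => z + ((e.1 : ℝ), (e.2 : ℝ))) ⁻¹'
      ((fun z => ((N : ℝ)⁻¹) • z) ⁻¹' B) := by
    ext z; simp only [Set.mem_preimage, ptG_eq]
  rw [e1, measure_preimage_add_right, Measure.addHaar_preimage_smul _ (inv_ne_zero hN0.ne')]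
  congr 1
  simp only [Module.finrank_prod, Module.finrank_self, inv_pow, inv_inv]
  rw [abs_of_pos (by positivity), ENNReal.ofReal_pow hN0.le, ENNReal.ofReal_natCast]

theorem mem_cell_G (N : ℕ) (hN : 1 ≤ N) (e : ℕ × ℕ) (z : ℝ × ℝ) :
    ptG N e z ∈ cellG N e ↔ z ∈ sqG := by
  have hN0 : (0 : ℝ) < N := by exact_mod_cast hN
  simp only [ptG, cellG, sqG, Set.mem_prod, Set.mem_Ico, div_le_div_iff_of_pos_right hN0,
    div_lt_div_iff_of_pos_right hN0, le_add_iff_nonneg_right, add_lt_add_iff_left]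

theorem ico_floor_G (N : ℕ) (hN : 1 ≤ N) (i : ℕ) (x : ℝ) :
    x ∈ Set.Ico ((i : ℝ) / N) (((i : ℝ) + 1) / N) ↔ 0 ≤ x ∧ ⌊x * N⌋₊ = i := by
  have hN0 : (0 : ℝ) < N := by exact_mod_cast hN
  rw [Set.mem_Ico, div_le_iff₀ hN0, lt_div_iff₀ hN0]
  constructor
  · rintro ⟨h1, h2⟩
    have h0 : 0 ≤ x * N := le_trans (Nat.cast_nonneg i) h1
    exact ⟨nonneg_of_mul_nonneg_left h0 hN0, (Nat.floor_eq_iff h0).2 ⟨h1, h2⟩⟩
  · rintro ⟨h1, h2⟩
    exact (Nat.floor_eq_iff (by positivity)).1 h2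

theorem sum_cell_G (N : ℕ) (hN : 1 ≤ N) (B : Set (ℝ × ℝ)) (hB : MeasurableSet B) :
    ∑ e ∈ range N ×ˢ range N, volume (B ∩ cellG N e) = volume (B ∩ sqG) := by
  have hN0 : (0 : ℝ) < N := by exact_mod_cast hN
  rw [← measure_biUnion_finset _ (fun e _ => hB.inter (meas_cellG N e))]
  · congr 1
    ext z
    simp only [Set.mem_iUnion, Set.mem_inter_iff, cellG, Set.mem_prod, ico_floor_G N hN,
      mem_product, mem_range, sqG, exists_prop]
    simp only [Set.mem_Ico]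
    constructor
    · rintro ⟨e, ⟨h1, h2⟩, hz, ⟨h3, h4⟩, h5, h6⟩
      rw [← h4, Nat.floor_lt (by positivity)] at h1
      rw [← h6, Nat.floor_lt (by positivity)] at h2
      exact ⟨hz, ⟨h3, by nlinarith⟩, h5, by nlinarith⟩
    · rintro ⟨hz, ⟨h1, h2⟩, h3, h4⟩
      refine ⟨(⌊z.1 * N⌋₊, ⌊z.2 * N⌋₊), ⟨?_, ?_⟩, hz, ⟨h1, rfl⟩, h3, rfl⟩
      · rw [Nat.floor_lt (by positivity)]; nlinarith
      · rw [Nat.floor_lt (by positivity)]; nlinarith
  · intro e _ e' _ hne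
    rw [Function.onFun, Set.disjoint_left]
    rintro z ⟨-, h1⟩ ⟨-, h2⟩
    simp only [cellG, Set.mem_prod, ico_floor_G N hN] at h1 h2
    exact hne (Prod.ext (h1.1.2.symm.trans h2.1.2) (h1.2.2.symm.trans h2.2.2))

theorem card_grG (B : Set (ℝ × ℝ)) (N : ℕ) (z : ℝ × ℝ) :
    ((grG B N z).card : ENNReal) =
      ∑ e ∈ range N ×ˢ range N, (ptG N e ⁻¹' B).indicator (1 : ℝ × ℝ → ENNReal) z := by
  rw [grG, card_filter]
  push_cast
  refine sum_congr rfl fun e _ => ?_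
  by_cases h : ptG N e z ∈ B <;> simp [h, Set.indicator]

theorem meas_card_grG (B : Set (ℝ × ℝ)) (hB : MeasurableSet B) (N : ℕ) :
    Measurable fun z => ((grG B N z).card : ENNReal) := by
  simp only [card_grG]
  exact Finset.measurable_sum _ fun e _ => measurable_one.indicator (meas_ptG N e hB)

theorem int_grG (B : Set (ℝ × ℝ)) (hB : MeasurableSet B) (N : ℕ) (hN : 1 ≤ N) :
    ∫⁻ z in sqG, ((grG B N z).card : ENNReal) = (N : ENNReal) ^ 2 * volume (B ∩ sqG) := by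
  simp only [card_grG]
  rw [lintegral_finsetSum _ fun e _ => measurable_one.indicator (meas_ptG N e hB),
    ← sum_cell_G N hN B hB, mul_sum]
  refine sum_congr rfl fun e _ => ?_
  rw [lintegral_indicator_one (meas_ptG N e hB), Measure.restrict_apply (meas_ptG N e hB),
    ← vol_pre_G N hN e]
  congr 1
  ext z
  simp only [Set.mem_inter_iff, Set.mem_preimage, mem_cell_G N hN]

theorem vol_inter_sqG (A : Set (ℝ × ℝ)) (hA : A ⊆ Set.Icc (0 : ℝ) 1 ×ˢ Set.Icc (0 : ℝ) 1) :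
    volume A ≤ volume (A ∩ sqG) := by
  have h1 : A ⊆ (A ∩ sqG) ∪ (({1} : Set ℝ) ×ˢ Set.univ ∪ Set.univ ×ˢ ({1} : Set ℝ)) := by
    intro z hz
    obtain ⟨⟨h1, h2⟩, h3, h4⟩ := hA hz
    rcases h2.eq_or_lt with h | h
    · right; left; exact ⟨h, trivial⟩
    rcases h4.eq_or_lt with h' | h'
    · right; right; exact ⟨trivial, h'⟩
    exact Or.inl ⟨hz, ⟨h1, h⟩, h3, h'⟩
  have h2 : volume ((({1} : Set ℝ) ×ˢ Set.univ ∪ Set.univ ×ˢ ({1} : Set ℝ)) : Set (ℝ × ℝ)) = 0 := by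
    refine measure_union_null ?_ ?_ <;>
      simp [Measure.volume_eq_prod, Measure.prod_prod]
  calc volume A ≤ _ := measure_mono h1
    _ ≤ _ := measure_union_le _ _
    _ = _ := by rw [h2, add_zero]

/-- integrating a pointwise bound over all shifts of the grid -/
theorem avg_G (A : Set (ℝ × ℝ)) (X Y : Set ℝ) (hA : MeasurableSet A) (hX : MeasurableSet X)
    (hY : MeasurableSet Y) (hA1 : A ⊆ Set.Icc (0 : ℝ) 1 ×ˢ Set.Icc (0 : ℝ) 1)
    (hX1 : volume X ≠ ⊤) (hY1 : volume Y ≠ ⊤) (N : ℕ) (hN : 1 ≤ N) (l m : ℝ) (hl : 0 ≤ l)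
    (hm : 0 ≤ m)
    (h : ∀ z, ((grG A N z).card : ℝ) ≤
      l * (grG (X ×ˢ Set.univ) N z).card + m * (grG (Set.univ ×ˢ Y) N z).card) :
    (volume A).toReal ≤ l * (volume X).toReal + m * (volume Y).toReal := by
  have mX : MeasurableSet (X ×ˢ (Set.univ : Set ℝ)) := hX.prod MeasurableSet.univ
  have mY : MeasurableSet ((Set.univ : Set ℝ) ×ˢ Y) := MeasurableSet.univ.prod hY
  have h1 : ∫⁻ z in sqG, ((grG A N z).card : ENNReal) ≤
      ∫⁻ z in sqG, (ENNReal.ofReal l * (grG (X ×ˢ Set.univ) N z).card +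
        ENNReal.ofReal m * (grG (Set.univ ×ˢ Y) N z).card) := by
    refine lintegral_mono fun z => ?_
    have := ENNReal.ofReal_le_ofReal (h z)
    rwa [ENNReal.ofReal_add (by positivity) (by positivity), ENNReal.ofReal_mul hl,
      ENNReal.ofReal_mul hm, ENNReal.ofReal_natCast, ENNReal.ofReal_natCast,
      ENNReal.ofReal_natCast] at this
  rw [lintegral_add_left ((meas_card_grG _ mX N).const_mul _),
    lintegral_const_mul _ (meas_card_grG _ mX N), lintegral_const_mul _ (meas_card_grG _ mY N),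
    int_grG _ hA N hN, int_grG _ mX N hN, int_grG _ mY N hN] at h1
  have vX : volume ((X ×ˢ (Set.univ : Set ℝ)) ∩ sqG) ≤ volume X := by
    calc _ ≤ volume (X ×ˢ Set.Ico (0 : ℝ) 1) :=
          measure_mono fun z hz => ⟨hz.1.1, hz.2.2⟩
      _ = _ := by simp [Measure.volume_eq_prod, Measure.prod_prod]
  have vY : volume (((Set.univ : Set ℝ) ×ˢ Y) ∩ sqG) ≤ volume Y := by
    calc _ ≤ volume (Set.Ico (0 : ℝ) 1 ×ˢ Y) :=
          measure_mono fun z hz => ⟨hz.2.1, hz.1.2⟩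
      _ = _ := by simp [Measure.volume_eq_prod, Measure.prod_prod]
  have h2 : (N : ENNReal) ^ 2 * volume A ≤
      (N : ENNReal) ^ 2 * (ENNReal.ofReal l * volume X + ENNReal.ofReal m * volume Y) := by
    calc _ ≤ (N : ENNReal) ^ 2 * volume (A ∩ sqG) := mul_le_mul_right (vol_inter_sqG A hA1) _
      _ ≤ _ := h1
      _ ≤ ENNReal.ofReal l * ((N : ENNReal) ^ 2 * volume X) +
          ENNReal.ofReal m * ((N : ENNReal) ^ 2 * volume Y) := by gcongr
      _ = _ := by ring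
  have hN0 : (N : ENNReal) ^ 2 ≠ 0 := pow_ne_zero _ (by exact_mod_cast (by omega))
  have hN1 : (N : ENNReal) ^ 2 ≠ ⊤ := ENNReal.pow_ne_top (ENNReal.natCast_ne_top N)
  rw [ENNReal.mul_le_mul_iff_right hN0 hN1] at h2
  have t1 : ENNReal.ofReal l * volume X ≠ ⊤ := ENNReal.mul_ne_top ENNReal.ofReal_ne_top hX1
  have t2 : ENNReal.ofReal m * volume Y ≠ ⊤ := ENNReal.mul_ne_top ENNReal.ofReal_ne_top hY1
  have := ENNReal.toReal_mono (ENNReal.add_ne_top.2 ⟨t1, t2⟩) h2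
  rwa [ENNReal.toReal_add t1 t2, ENNReal.toReal_mul, ENNReal.toReal_mul, ENNReal.toReal_ofReal hl,
    ENNReal.toReal_ofReal hm] at this

def S_Hex2 : Prop :=
  ∃ κ : ℝ, 0 < κ ∧ ∀ (X Y : Set ℝ) (A : Set (ℝ × ℝ)), MeasurableSet X → MeasurableSet Y →
    MeasurableSet A → X ⊆ Set.Icc (0 : ℝ) 1 → Y ⊆ Set.Icc (0 : ℝ) 1 → A ⊆ X ×ˢ Y → 0 < volume A →
    ∃ a b c p q s : ℝ, (a, q) ∈ A ∧ (b, q) ∈ A ∧ (b, p) ∈ A ∧ (c, p) ∈ A ∧ (c, s) ∈ A ∧
      (a, s) ∈ A ∧ b ∈ Set.uIcc a c ∧ q ∈ Set.uIcc p s ∧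
      κ * (volume A).toReal ^ 2 ≤
        (|c - a| * |s - p| - |b - a| * |q - p|) * ((volume X).toReal * (volume Y).toReal)

theorem abs_pt_G (N : ℕ) (hN : 1 ≤ N) (a c : ℕ) (s : ℝ) :
    |((c : ℝ) + s) / N - ((a : ℝ) + s) / N| = dd c a / N := by
  have hN0 : (0 : ℝ) < N := by exact_mod_cast hN
  rw [← sub_div, abs_div, abs_of_pos hN0, dd]
  congr 2; ring

theorem uIcc_pt_G (N : ℕ) (a b c : ℕ) (s : ℝ) (h : b ∈ Set.uIcc a c) :
    ((b : ℝ) + s) / N ∈ Set.uIcc (((a : ℝ) + s) / N) (((c : ℝ) + s) / N) := by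
  have hm : ∀ i j : ℕ, i ≤ j → ((i : ℝ) + s) / N ≤ ((j : ℝ) + s) / N := fun i j hij => by
    have : (i : ℝ) ≤ j := by exact_mod_cast hij
    gcongr
  rw [Set.mem_uIcc] at h ⊢
  rcases h with ⟨h1, h2⟩ | ⟨h1, h2⟩
  · exact Or.inl ⟨hm _ _ h1, hm _ _ h2⟩
  · exact Or.inr ⟨hm _ _ h1, hm _ _ h2⟩

theorem dd_le_G {N a b : ℕ} (ha : a < N) (hb : b < N) : dd a b ≤ N := by
  have h1 : (a : ℝ) < N := by exact_mod_cast ha
  have h2 : (b : ℝ) < N := by exact_mod_cast hb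
  have h3 : (0 : ℝ) ≤ a := Nat.cast_nonneg a
  have h4 : (0 : ℝ) ≤ b := Nat.cast_nonneg b
  rw [dd, abs_le]; constructor <;> linarith

theorem amgm_G (e a b u v : ℝ) (ha : 0 ≤ a) (hb : 0 ≤ b) (hu : 0 ≤ u) (hv : 0 ≤ v)
    (h : e ^ 2 ≤ 4 * (u * v) * (a * b)) : e ≤ u * a + v * b := by
  refine le_trans (le_abs_self e) (abs_le_of_sq_le_sq' ?_ (by positivity)).2
  rw [sq_abs]
  nlinarith [sq_nonneg (u * a - v * b)]

theorem fin2_pf (hD : S_Disc) : S_Hex2 := by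
  obtain ⟨C, hC, hD⟩ := hD
  refine ⟨1 / (8 * C), by positivity, fun X Y A hX hY hA hX1 hY1 hAXY hA0 => ?_⟩
  by_contra hcon
  push Not at hcon
  have fX : volume X ≠ ⊤ := ne_top_of_le_ne_top (by simp) (measure_mono hX1)
  have fY : volume Y ≠ ⊤ := ne_top_of_le_ne_top (by simp) (measure_mono hY1)
  have hle : volume A ≤ volume X * volume Y := by
    calc volume A ≤ volume (X ×ˢ Y) := measure_mono hAXY
      _ = _ := by rw [Measure.volume_eq_prod, Measure.prod_prod]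
  have fA : volume A ≠ ⊤ := ne_top_of_le_ne_top (ENNReal.mul_ne_top fX fY) hle
  have hα : 0 < (volume A).toReal := ENNReal.toReal_pos hA0.ne' fA
  have hx : 0 < (volume X).toReal := ENNReal.toReal_pos
    (fun h => by rw [h, zero_mul] at hle; exact absurd hA0 (not_lt.2 hle)) fX
  have hy : 0 < (volume Y).toReal := ENNReal.toReal_pos
    (fun h => by rw [h, mul_zero] at hle; exact absurd hA0 (not_lt.2 hle)) fY
  set α := (volume A).toReal with hαd
  set x := (volume X).toReal with hxd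
  set y := (volume Y).toReal with hyd
  set δ : ℝ := 1 / (8 * C) * α ^ 2 / (x * y) with hδ
  have hδ0 : 0 < δ := by positivity
  obtain ⟨N, hN⟩ := exists_nat_ge (3 / δ + 1)
  have hN1r : (1 : ℝ) ≤ N := by have : 0 < 3 / δ := by positivity
                                linarith
  have hN1 : 1 ≤ N := by exact_mod_cast hN1r
  have hN3 : 3 ≤ δ * N := by
    have : 3 / δ ≤ N := by linarith
    rw [div_le_iff₀ hδ0] at this; linarith
  have hN0 : (0 : ℝ) < N := by linarith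
  have key := avg_G A X Y hA hX hY (hAXY.trans (Set.prod_mono hX1 hY1)) fX fY N hN1
    (α / (4 * x)) (α / (4 * y)) (by positivity) (by positivity) fun z => ?_
  · have e1 : α / (4 * x) * x + α / (4 * y) * y = α / 2 := by field_simp; ring
    linarith
  have hex : ∀ a b c p q s : ℕ, (a, q) ∈ grG A N z → (b, q) ∈ grG A N z → (b, p) ∈ grG A N z →
      (c, p) ∈ grG A N z → (c, s) ∈ grG A N z → (a, s) ∈ grG A N z → b ∈ Set.uIcc a c →
      q ∈ Set.uIcc p s → dd c a * dd s p - dd b a * dd q p ≤ δ * N ^ 2 := by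
    intro a b c p q s h1 h2 h3 h4 h5 h6 hb hq
    have := hcon _ _ _ _ _ _ (mem_filter.1 h1).2 (mem_filter.1 h2).2 (mem_filter.1 h3).2
      (mem_filter.1 h4).2 (mem_filter.1 h5).2 (mem_filter.1 h6).2 (uIcc_pt_G N a b c z.1 hb)
      (uIcc_pt_G N p q s z.2 hq)
    simp only [abs_pt_G N hN1] at this
    rw [← lt_div_iff₀ (by positivity), ← hδ] at this
    have e1 : dd c a / N * (dd s p / N) - dd b a / N * (dd q p / N) =
        (dd c a * dd s p - dd b a * dd q p) / N ^ 2 := by field_simp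
    rw [e1, div_lt_iff₀ (by positivity)] at this
    exact this.le
  have hΔ : 1 ≤ 2 * δ * N ^ 2 := by nlinarith
  have hH : HexH (grG A N z) (2 * δ * N ^ 2) := fun a b c p q s h1 h2 h3 h4 h5 h6 hb hq => by
    have := hex a b c p q s h1 h2 h3 h4 h5 h6 hb hq
    nlinarith
  have hR : RectH (grG A N z) (2 * δ * N ^ 2) := fun i i' j j' h1 h2 h3 h4 => by
    have := hex i i i' j j j' h1 h1 h1 h3 h4 h2 Set.left_mem_uIcc Set.left_mem_uIcc
    rw [dd_self, dd_comm i' i, dd_comm j' j] at this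
    have r1 := mem_product.1 (mem_filter.1 h1).1
    have r4 := mem_product.1 (mem_filter.1 h4).1
    have d1 := dd_le_G (mem_range.1 r1.1) (mem_range.1 r4.1)
    have d2 := dd_le_G (mem_range.1 r1.2) (mem_range.1 r4.2)
    simp only at d1 d2
    nlinarith
  set Xz := (range N).filter (fun i : ℕ => ((i : ℝ) + z.1) / N ∈ X) with hXz
  set Yz := (range N).filter (fun i : ℕ => ((i : ℝ) + z.2) / N ∈ Y) with hYz
  have hI : In (grG A N z) Xz Yz := fun e he => by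
    obtain ⟨h1, h2⟩ := mem_filter.1 he
    exact ⟨mem_filter.2 ⟨(mem_product.1 h1).1, (hAXY h2).1⟩,
      mem_filter.2 ⟨(mem_product.1 h1).2, (hAXY h2).2⟩⟩
  have c1 : grG (X ×ˢ Set.univ) N z = Xz ×ˢ range N := by
    ext e; simp only [grG, hXz, mem_filter, mem_product, ptG, Set.mem_prod, Set.mem_univ]; tauto
  have c2 : grG (Set.univ ×ˢ Y) N z = range N ×ˢ Yz := by
    ext e; simp only [grG, hYz, mem_filter, mem_product, ptG, Set.mem_prod, Set.mem_univ]; tauto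
  rw [c1, c2, card_product, card_product, card_range]
  push_cast
  have h3 := hD _ Xz Yz _ hΔ hR hH hI
  refine amgm_G _ _ _ _ _ (by positivity) (by positivity) (by positivity) (by positivity)
    (h3.trans (le_of_eq ?_))
  rw [hδ]
  field_simp
  ring

end
end Hex888
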