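import Pool.Agent.MP_888de5_co.Hex.St

set_option autoImplicit false
open Finset MeasureTheory
open scoped Classical

namespace Hex888

theorem win_le_Low (F : Gr) (v j y : ℕ) : ((win F v j y).card : ℝ) ≤ 2 ^ v := by
  have hsub : win F v j y ⊆ Ico (j * 2 ^ v) (j * 2 ^ v + 2 ^ v) := by
    intro x hx
    obtain ⟨-, h2⟩ := mem_win.1 hx
    have hp : 0 < 2 ^ v := by positivity
    have h3 := Nat.div_add_mod x (2 ^ v)
    have h4 := Nat.mod_lt x hp
    rw [h2, mul_comm] at h3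
    rw [mem_Ico]
    omega
  have h1 := card_le_card hsub
  rw [Nat.card_Ico, Nat.add_sub_cancel_left] at h1
  exact_mod_cast h1

theorem sub_Low (F : Gr) (Δ : ℝ) (w α : ℕ) (hΔ : 1 ≤ Δ) (hR : RectH F Δ)
    (hw : (2 : ℝ) ^ w ≤ 2 * Δ) (hD : Diam F (2 ^ (α + 1) * Δ / 2 ^ w)) :
    cherA F ⊆ cherU F Δ (w - (α + 2)) := by
  intro p hp
  obtain ⟨h1, h2, h3⟩ := mem_cherA.1 hp
  refine mem_cherU.2 ⟨h1, h2, h3, ?_⟩
  obtain ⟨⟨x, y⟩, ⟨x', y'⟩⟩ := p
  simp only at h1 h2 h3 ⊢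
  subst h3
  rcases Nat.eq_zero_or_pos (w - (α + 2)) with h0 | h0
  · rw [h0, pow_zero, mul_one]
    have := hR x x y y' h1 h2 h1 h2
    rw [dd_self] at this
    linarith
  · obtain ⟨u, hu⟩ : ∃ u, w = u + (α + 2) := ⟨w - (α + 2), by omega⟩
    have hu' : w - (α + 2) = u := by omega
    rw [hu']
    have hd := hD x y y' h1 h2
    have hpu : (0 : ℝ) < 2 ^ u := by positivity
    have hpa : (1 : ℝ) ≤ 2 ^ (α + 1) := one_le_pow₀ (by norm_num)
    have e : (2 : ℝ) ^ w = 2 ^ u * 2 ^ (α + 1) * 2 := by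
      rw [hu]; ring
    have hd2 : dd y y' * 2 ^ u * 2 ≤ Δ := by
      rw [le_div_iff₀ (by positivity), e] at hd
      have h5 : (2 : ℝ) ^ (α + 1) * (dd y y' * 2 ^ u * 2) ≤ 2 ^ (α + 1) * Δ := by linarith
      exact le_of_mul_le_mul_left h5 (by positivity)
    rcases dd_eq_zero_or y y' with h | h
    · rw [h, zero_add, one_mul]
      rw [e] at hw
      nlinarith
    · nlinarith

theorem sum_Low (w α n : ℕ) :
    ∑ v ∈ Ioc (w - (α + 2)) n, (if v ≤ w then (1 : ℝ) else bb ^ (v - w - 1)) ≤ α + 1026 := by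
  have hsub : Ioc (w - (α + 2)) n ⊆ Ioc (w - (α + 2)) w ∪ Ioc w n := by
    intro v hv
    simp only [mem_union, mem_Ioc] at hv ⊢
    omega
  have hnn : ∀ v, (0 : ℝ) ≤ (if v ≤ w then (1 : ℝ) else bb ^ (v - w - 1)) := by
    intro v
    split_ifs
    · norm_num
    · exact pow_nonneg bb_pos.le _
  have hdis : Disjoint (Ioc (w - (α + 2)) w) (Ioc w n) := by
    rw [disjoint_left]
    intro v h1 h2
    simp only [mem_Ioc] at h1 h2
    omega
  refine (sum_le_sum_of_subset_of_nonneg hsub fun v _ _ => hnn v).trans ?_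
  rw [sum_union hdis]
  have h1 : ∑ v ∈ Ioc (w - (α + 2)) w, (if v ≤ w then (1 : ℝ) else bb ^ (v - w - 1)) ≤ α + 2 := by
    have : ∑ v ∈ Ioc (w - (α + 2)) w, (if v ≤ w then (1 : ℝ) else bb ^ (v - w - 1)) =
        ∑ _v ∈ Ioc (w - (α + 2)) w, (1 : ℝ) :=
      sum_congr rfl fun v hv => if_pos (mem_Ioc.1 hv).2
    rw [this, sum_const, Nat.card_Ioc, nsmul_eq_mul, mul_one]
    have h3 : w - (w - (α + 2)) ≤ α + 2 := by omega
    exact_mod_cast h3
  have h2 : ∑ v ∈ Ioc w n, (if v ≤ w then (1 : ℝ) else bb ^ (v - w - 1)) ≤ 1024 := by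
    have : ∑ v ∈ Ioc w n, (if v ≤ w then (1 : ℝ) else bb ^ (v - w - 1)) =
        ∑ v ∈ Ioc w n, bb ^ (v - w - 1) :=
      sum_congr rfl fun v hv => if_neg (not_le.2 (mem_Ioc.1 hv).1)
    rw [this]
    exact geom_shift bb bb_pos.le bb_le_th w n
  linarith

theorem low_pf (hC : S_Cher) : S_Low := by
  intro F Δ X Y w α hΔ hR hIn hL hw hD
  have h1 := cs_cherA F X fun e he => (hIn e he).1
  have h2 : ((cherA F).card : ℝ) ≤ (cherU F Δ (w - (α + 2))).card := by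
    exact_mod_cast card_le_card (sub_Low F Δ w α hΔ hR hw hD)
  have h3 := hC F Δ (α + 1026) (w - (α + 2))
    (fun v => if v ≤ w then (1 : ℝ) else bb ^ (v - w - 1)) Y hΔ hR (fun e he => (hIn e he).2)
    (fun v => by
      split_ifs
      · norm_num
      · exact pow_nonneg bb_pos.le _)
    (fun y v j _ hv => by
      by_cases h : v ≤ w
      · simp only [if_pos h, one_mul]
        exact win_le_Low F v j y
      · simp only [if_neg h]
        exact hL y v j (not_le.1 h) hv)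
    (fun n => sum_Low w α n)
  have hX : (0 : ℝ) ≤ X.card := Nat.cast_nonneg _
  calc (F.card : ℝ) ^ 2 ≤ X.card * ((cherA F).card : ℝ) := h1
    _ ≤ X.card * (8 * (α + 1026) * Δ * Y.card) := mul_le_mul_of_nonneg_left (h2.trans h3) hX
    _ = _ := by ring

/-- columns that share a row with the column `y` -/
noncomputable def pc_Orth (F : Gr) (y : ℕ) : Finset ℕ :=
  (F.filter (fun e => (e.1, y) ∈ F)).image Prod.snd

theorem mem_pc_Orth {F : Gr} {y y' : ℕ} : y' ∈ pc_Orth F y ↔ ∃ x, (x, y') ∈ F ∧ (x, y) ∈ F := by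
  simp only [pc_Orth, mem_image, mem_filter]
  exact ⟨fun ⟨e, h, k⟩ => ⟨e.1, k ▸ h.1, h.2⟩, fun ⟨x, h⟩ => ⟨(x, y'), h, rfl⟩⟩

theorem pc_le_Orth {E F : Gr} {D1 D2 s : ℝ} {c : ℕ → ℕ} (h1 : 0 < D1) (hD : DegR E D1)
    (hs : 1 ≤ s) (h : ∀ e ∈ F, dd e.1 (c e.2) ≤ s ∧
      D2 / 256 ≤ ((near (tr E) e.2 (c e.2) (dd e.1 (c e.2))).card : ℝ)) (y : ℕ) :
    ((pc_Orth F y).card : ℝ) * (D2 / 256) ≤ 7 * s * D1 := by
  set E' := E.filter (fun e => dd e.1 (c y) ≤ 3 * s ∧ e.2 ∈ pc_Orth F y) with hE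
  have a1 := card_le_mul_DegR (F := E') (X := E'.image Prod.fst)
    (fun e he => mem_image_of_mem _ he) (hD.mono (filter_subset _ _))
  have a2 := card_le_of_dd (E'.image Prod.fst) (c y) (3 * s) (by linarith) fun a ha => by
    obtain ⟨e, he, rfl⟩ := mem_image.1 ha
    exact (mem_filter.1 he).2.1
  have a3 : ((pc_Orth F y).card : ℝ) * (D2 / 256) ≤ E'.card := by
    rw [card_eq_sum_colS E' (pc_Orth F y) fun e he => (mem_filter.1 he).2.2, Nat.cast_sum,
      ← nsmul_eq_mul]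
    refine card_nsmul_le_sum _ _ _ fun y' hy' => ?_
    obtain ⟨x, b1, b2⟩ := mem_pc_Orth.1 hy'
    refine (h _ b1).2.trans (Nat.cast_le.2 (card_le_card fun z hz => ?_))
    obtain ⟨b3, b4⟩ := mem_near.1 hz
    refine mem_colS.2 (mem_filter.2 ⟨mem_tr.1 b3, ?_, hy'⟩)
    have b5 := (h _ b1).1
    have b6 := (h _ b2).1
    have b7 := dd_tri z (c y') (c y)
    have b8 := dd_tri (c y') x (c y)
    rw [dd_comm (c y') x] at b8
    simp only at b4 b5 b6 ⊢
    linarith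
  have a4 := mul_le_mul_of_nonneg_right (a2.trans (show _ ≤ 7 * s by linarith)) h1.le
  linarith

theorem far_Orth {F : Gr} {Δ n : ℝ} {Y : Finset ℕ} {k : ℕ} (hΔ : 1 ≤ Δ) (hR : RectH F Δ)
    (hY : ∀ e ∈ F, e.2 ∈ Y) (hn : ∀ y, ((pc_Orth F y).card : ℝ) * 2 ^ k ≤ n) :
    (((cherA F).filter fun p => Δ < (dd p.1.2 p.2.2 + 1) * 2 ^ k).card : ℝ) ≤ Y.card * n := by
  refine card_le_mul_fib _ Y (fun p => p.1.2) n
    (fun p hp => hY _ (mem_cherA.1 (mem_filter.1 hp).1).1) fun y _ => le_trans ?_ (hn y)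
  refine card_le_mul_fib _ _ (fun p => p.2.2) _ (fun p hp => ?_) fun y' _ => ?_
  · obtain ⟨h1, rfl⟩ := mem_filter.1 hp
    obtain ⟨h2, h3, h4⟩ := mem_cherA.1 (mem_filter.1 h1).1
    exact mem_pc_Orth.2 ⟨p.1.1, h4 ▸ h3, h2⟩
  · set T := (((cherA F).filter fun p => Δ < (dd p.1.2 p.2.2 + 1) * 2 ^ k).filter
      fun p => p.1.2 = y).filter fun p => p.2.2 = y' with hT
    have hm : ∀ p ∈ T, (p.1 ∈ F ∧ p.2 ∈ F ∧ p.1.1 = p.2.1) ∧ Δ < (dd y y' + 1) * 2 ^ k ∧
        p.1.2 = y ∧ p.2.2 = y' := fun p hp => by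
      obtain ⟨h1, h2⟩ := mem_filter.1 hp
      obtain ⟨h3, h4⟩ := mem_filter.1 h1
      obtain ⟨h5, h6⟩ := mem_filter.1 h3
      exact ⟨mem_cherA.1 h5, h4 ▸ h2 ▸ h6, h4, h2⟩
    rcases T.eq_empty_or_nonempty with h0 | ⟨q, hq⟩
    · rw [h0, card_empty, Nat.cast_zero]
      positivity
    rw [← card_image_of_injOn (f := fun p => p.1.1) fun a ha b hb hab => by
      obtain ⟨⟨-, -, a1⟩, -, a2, a3⟩ := hm a ha
      obtain ⟨⟨-, -, b1⟩, -, b2, b3⟩ := hm b hb
      exact Prod.ext (Prod.ext hab (a2.trans b2.symm))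
        (Prod.ext (a1.symm.trans (hab.trans b1)) (a3.trans b3.symm))]
    refine (hR.codeg (by linarith) y y' _ fun x hx => ?_).trans ?_
    · obtain ⟨p, hp, rfl⟩ := mem_image.1 hx
      obtain ⟨⟨a1, a2, a3⟩, -, rfl, rfl⟩ := hm p hp
      exact ⟨a1, a3 ▸ a2⟩
    · rw [div_le_iff₀ (by linarith [dd_nonneg y y']), mul_comm]
      exact (hm q hq).2.1.le

theorem orth_pf (hC : S_Cher) : S_Orth := by
  intro E F Δ D1 D2 s X Y w u c hΔ h1 h2 hR hI hD hL hs h hw
  have hb := pow_pos bb_pos u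
  have a1 := hC F Δ (1024 * bb ^ u) (w + u) (fun v => bb ^ (v - w - 1)) Y hΔ hR
    (fun e he => (hI e he).2) (fun v => (pow_pos bb_pos _).le)
    (fun y v j hv h2 => hL y v j (by omega) h2) fun n => by
      rw [sum_congr rfl (g := fun v => bb ^ (v - (w + u) - 1) * bb ^ u) fun v hv => by
        rw [← pow_add]
        have := (mem_Ioc.1 hv).1
        congr 1
        omega, ← sum_mul]
      exact mul_le_mul_of_nonneg_right (geom_shift bb bb_pos.le bb_le_th _ _) hb.le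
  have a2 := far_Orth (k := w + u) (n := Δ * bb ^ u) hΔ hR (fun e he => (hI e he).2) fun y => by
    have b1 := pc_le_Orth h1 hD hs h y
    have b2 : (1 : ℝ) ≤ 2 ^ u * bb ^ u := by
      rw [← mul_pow]
      exact one_le_pow₀ (by linarith [half_le_bb])
    have e : (2 : ℝ) ^ (w + 11 + 2 * u) = 2048 * (2 ^ (w + u) * 2 ^ u) := by ring
    have b0 : (0 : ℝ) < 2 ^ (w + u) * 2 ^ u := by positivity
    have b3 : ((pc_Orth F y).card : ℝ) * (2 ^ (w + u) * 2 ^ u) ≤ Δ := by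
      refine le_of_mul_le_mul_left ?_ h2
      rw [e] at hw
      nlinarith [mul_le_mul_of_nonneg_right b1 b0.le, mul_pos (mul_pos h1 (by linarith : 0 < s)) b0]
    calc ((pc_Orth F y).card : ℝ) * 2 ^ (w + u)
        ≤ (pc_Orth F y).card * 2 ^ (w + u) * (2 ^ u * bb ^ u) :=
          le_mul_of_one_le_right (by positivity) b2
      _ = (pc_Orth F y).card * (2 ^ (w + u) * 2 ^ u) * bb ^ u := by ring
      _ ≤ _ := mul_le_mul_of_nonneg_right b3 hb.le
  have a3 : (cherA F).card ≤ (cherU F Δ (w + u)).card +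
      ((cherA F).filter fun p => Δ < (dd p.1.2 p.2.2 + 1) * 2 ^ (w + u)).card := by
    refine (card_le_card fun p hp => ?_).trans (card_union_le _ _)
    obtain ⟨b1, b2, b3⟩ := mem_cherA.1 hp
    rcases le_or_gt ((dd p.1.2 p.2.2 + 1) * 2 ^ (w + u)) Δ with k | k
    · exact mem_union_left _ (mem_cherU.2 ⟨b1, b2, b3, k⟩)
    · exact mem_union_right _ (mem_filter.2 ⟨hp, k⟩)
  have a4 : ((cherA F).card : ℝ) ≤ 8193 * bb ^ u * Δ * Y.card := by
    have a5 := (Nat.cast_le (α := ℝ)).2 a3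
    rw [Nat.cast_add] at a5
    linarith
  calc (F.card : ℝ) ^ 2 ≤ X.card * ((cherA F).card : ℝ) := cs_cherA F X fun e he => (hI e he).1
    _ ≤ X.card * (8193 * bb ^ u * Δ * Y.card) := mul_le_mul_of_nonneg_left a4 (Nat.cast_nonneg _)
    _ = _ := by ring

/-- points of row `x` whose column is heavy near `x` at some scale `v ≥ w` -/
noncomputable def hs_ParRow (E : Gr) (Δ : ℝ) (x w : ℕ) : Finset ℕ :=
  (rowS E x).filter (fun y => ∃ v, w ≤ v ∧ (2 : ℝ) ^ v ≤ 2 * Δ ∧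
    bb ^ (v - w) * 2 ^ v ≤ ((win E v (x / 2 ^ v) y).card : ℝ))

/-- points of row `x` whose column is heavy near `x` at scale `w + t` -/
noncomputable def gs_ParRow (E : Gr) (Δ : ℝ) (x w t : ℕ) : Finset ℕ :=
  (rowS E x).filter (fun y => (2 : ℝ) ^ (w + t) ≤ 2 * Δ ∧
    bb ^ t * 2 ^ (w + t) ≤ ((win E (w + t) (x / 2 ^ (w + t)) y).card : ℝ))

theorem hs_zero_ParRow (E : Gr) {Δ : ℝ} (hΔ : 1 ≤ Δ) (x : ℕ) : hs_ParRow E Δ x 0 = rowS E x := by
  refine filter_true_of_mem fun y hy => ⟨0, le_rfl, by norm_num; linarith, ?_⟩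
  have h1 : x ∈ win E 0 (x / 2 ^ 0) y := mem_win.2 ⟨mem_rowS.1 hy, rfl⟩
  have h2 : 1 ≤ (win E 0 (x / 2 ^ 0) y).card := card_pos.2 ⟨x, h1⟩
  have h3 : (1 : ℝ) ≤ (win E 0 (x / 2 ^ 0) y).card := by exact_mod_cast h2
  simpa using h3

theorem hs_big_ParRow (E : Gr) {Δ : ℝ} (x : ℕ) {n : ℕ} (hn : 2 * Δ < 2 ^ n) :
    hs_ParRow E Δ x n = ∅ := by
  refine filter_false_of_mem fun y _ => ?_
  rintro ⟨v, h1, h2, -⟩
  have : (2 : ℝ) ^ n ≤ 2 ^ v := pow_le_pow_right₀ one_le_two h1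
  linarith

theorem hs_sub_ParRow (E : Gr) {Δ : ℝ} (x w : ℕ) {n : ℕ} (hn : 2 * Δ < 2 ^ n) :
    hs_ParRow E Δ x w ⊆ (range (n + 1)).biUnion (gs_ParRow E Δ x w) := by
  intro y hy
  obtain ⟨h0, v, h1, h2, h3⟩ := mem_filter.1 hy
  obtain ⟨t, rfl⟩ := Nat.exists_eq_add_of_le h1
  have h4 : w + t < n := by
    by_contra hc
    push Not at hc
    have : (2 : ℝ) ^ n ≤ 2 ^ (w + t) := pow_le_pow_right₀ one_le_two hc
    linarith
  rw [Nat.add_sub_cancel_left] at h3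
  exact mem_biUnion.2 ⟨t, mem_range.2 (by omega), mem_filter.2 ⟨h0, h2, h3⟩⟩

theorem exists_t_ParRow (E : Gr) {Δ g : ℝ} (hg : 0 < g) (x w : ℕ)
    (h : g ≤ (hs_ParRow E Δ x w).card) :
    ∃ t, bb ^ t * g / 1024 ≤ ((gs_ParRow E Δ x w t).card : ℝ) := by
  obtain ⟨n, hn⟩ := pow_unbounded_of_one_lt (2 * Δ) (one_lt_two (α := ℝ))
  by_contra hc
  push Not at hc
  have h1 := (card_le_card (hs_sub_ParRow E x w hn)).trans card_biUnion_le
  have h2 : ((hs_ParRow E Δ x w).card : ℝ) ≤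
      ∑ t ∈ range (n + 1), ((gs_ParRow E Δ x w t).card : ℝ) := by exact_mod_cast h1
  have h3 : ∑ t ∈ range (n + 1), ((gs_ParRow E Δ x w t).card : ℝ) <
      ∑ t ∈ range (n + 1), bb ^ t * (g / 1024) :=
    sum_lt_sum_of_nonempty ⟨0, mem_range.2 (Nat.succ_pos n)⟩ fun t _ => by
      have := hc t
      rw [mul_div_assoc] at this
      exact this
  rw [← sum_mul] at h3
  have h4 := mul_le_mul_of_nonneg_right (geom_le bb bb_pos.le bb_le_th (range (n + 1)))
    (show 0 ≤ g / 1024 by positivity)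
  linarith

theorem median_ParRow (G : Finset ℕ) : ∃ c, G.card ≤ 2 * (G.filter (fun y => y ≤ c)).card ∧
    G.card ≤ 2 * (G.filter (fun y => c ≤ y)).card := by
  have hex : ∃ c, G.card ≤ 2 * (G.filter (fun y => y ≤ c)).card := by
    refine ⟨G.sup id, ?_⟩
    have : G.filter (fun y => y ≤ G.sup id) = G :=
      filter_true_of_mem fun y hy => le_sup (f := id) hy
    rw [this]
    omega
  refine ⟨Nat.find hex, Nat.find_spec hex, ?_⟩
  rcases Nat.eq_zero_or_pos (Nat.find hex) with h0 | h0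
  · rw [h0, filter_true_of_mem fun y _ => Nat.zero_le y]
    omega
  · have h1 := Nat.find_min hex (m := Nat.find hex - 1) (by omega)
    have h2 := card_filter_add_card_filter_not (s := G) (fun y => y ≤ Nat.find hex - 1)
    have h3 : G.filter (fun y => ¬ y ≤ Nat.find hex - 1) = G.filter (fun y => Nat.find hex ≤ y) :=
      filter_congr fun y _ => by omega
    rw [h3] at h2
    omega

theorem far_ParRow (E : Gr) (x c : ℕ) {g : ℝ} (hg : 0 < g) :
    (((rowS E x).filter (fun η => ((near E x c (dd η c)).card : ℝ) < g)).card : ℝ) ≤ g := by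
  set Z := (rowS E x).filter (fun η => ((near E x c (dd η c)).card : ℝ) < g) with hZ
  rcases Z.eq_empty_or_nonempty with he | hne
  · rw [he]; simpa using hg.le
  · obtain ⟨a, ha, hmax⟩ := exists_max_image Z (fun η => dd η c) hne
    have h1 : Z ⊆ near E x c (dd a c) := fun y hy =>
      mem_near.2 ⟨mem_rowS.1 (mem_filter.1 hy).1, hmax y hy⟩
    have h2 : (Z.card : ℝ) ≤ (near E x c (dd a c)).card := by exact_mod_cast card_le_card h1
    exact h2.trans (mem_filter.1 ha).2.le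

theorem supp_ParRow (E : Gr) (Δ : ℝ) (x w t c η : ℕ)
    (h1 : (gs_ParRow E Δ x w t).card ≤ 2 * ((gs_ParRow E Δ x w t).filter (fun y => y ≤ c)).card)
    (h2 : (gs_ParRow E Δ x w t).card ≤ 2 * ((gs_ParRow E Δ x w t).filter (fun y => c ≤ y)).card) :
    (gs_ParRow E Δ x w t).card ≤ 2 * (supp E x η c (w + t) (bb ^ t)).card := by
  rcases le_total c η with h | h
  · refine h1.trans (Nat.mul_le_mul_left 2 (card_le_card fun y hy => ?_))
    obtain ⟨h3, h4⟩ := mem_filter.1 hy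
    obtain ⟨h5, -, h6⟩ := mem_filter.1 h3
    refine mem_supp.2 ⟨mem_rowS.1 h5, ?_, h6⟩
    rw [dd_of_ge h, dd_of_le (h4.trans h)]
    have : (y : ℝ) ≤ c := by exact_mod_cast h4
    linarith
  · refine h2.trans (Nat.mul_le_mul_left 2 (card_le_card fun y hy => ?_))
    obtain ⟨h3, h4⟩ := mem_filter.1 hy
    obtain ⟨h5, -, h6⟩ := mem_filter.1 h3
    refine mem_supp.2 ⟨mem_rowS.1 h5, ?_, h6⟩
    rw [dd_of_le h, dd_of_ge (h.trans h4)]
    have : (c : ℝ) ≤ y := by exact_mod_cast h4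
    linarith

theorem parRow_pf : S_ParRow := by
  intro E Δ D x hΔ hD
  have hg : 0 < D / 256 := by positivity
  by_cases h0 : ((rowS E x).card : ℝ) < D / 256
  · refine ⟨0, 0, 0, ∅, empty_subset _, ?_, fun η hη => absurd hη (notMem_empty η)⟩
    simp only [card_empty, Nat.cast_zero]
    linarith
  obtain ⟨n, hn⟩ := pow_unbounded_of_one_lt (2 * Δ) (one_lt_two (α := ℝ))
  have hex : ∃ w, ((hs_ParRow E Δ x w).card : ℝ) < D / 256 :=
    ⟨n, by rw [hs_big_ParRow E x hn]; simpa using hD⟩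
  have hs := Nat.find_spec hex
  have hpos : Nat.find hex ≠ 0 := by
    intro h
    rw [h, hs_zero_ParRow E hΔ] at hs
    exact h0 hs
  obtain ⟨w, hw⟩ := Nat.exists_eq_succ_of_ne_zero hpos
  have hm := Nat.find_min hex (m := w) (by omega)
  push Not at hm
  rw [hw] at hs
  obtain ⟨t, ht⟩ := exists_t_ParRow E hg x w hm
  obtain ⟨c, hc1, hc2⟩ := median_ParRow (gs_ParRow E Δ x w t)
  have hbt : 0 < bb ^ t := pow_pos bb_pos t
  have hne : (gs_ParRow E Δ x w t).Nonempty := by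
    rw [← card_pos]
    have : (0 : ℝ) < (gs_ParRow E Δ x w t).card := lt_of_lt_of_le (by positivity) ht
    exact_mod_cast this
  obtain ⟨y0, hy0⟩ := hne
  have hcl1 : (2 : ℝ) ^ (w + t) ≤ 2 * Δ := (mem_filter.1 hy0).2.1
  set Z := (rowS E x).filter (fun η => ((near E x c (dd η c)).card : ℝ) < D / 256) with hZ
  have hZc : (Z.card : ℝ) ≤ D / 256 := far_ParRow E x c hg
  refine ⟨w, t, c, (rowS E x \ hs_ParRow E Δ x (w + 1)) \ Z,
    sdiff_subset.trans sdiff_subset, ?_, fun η hη => ?_⟩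
  · have h1 := le_card_sdiff Z (rowS E x \ hs_ParRow E Δ x (w + 1))
    have h2 := le_card_sdiff (hs_ParRow E Δ x (w + 1)) (rowS E x)
    have h3 : (rowS E x).card ≤ ((rowS E x \ hs_ParRow E Δ x (w + 1)) \ Z).card +
        (hs_ParRow E Δ x (w + 1)).card + Z.card := by omega
    have h4 : ((rowS E x).card : ℝ) ≤ ((rowS E x \ hs_ParRow E Δ x (w + 1)) \ Z).card +
        (hs_ParRow E Δ x (w + 1)).card + Z.card := by exact_mod_cast h3
    have h5 : ((hs_ParRow E Δ x (w + 1)).card : ℝ) < D / 256 := hs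
    linarith
  · obtain ⟨h1, h2⟩ := mem_sdiff.1 hη
    obtain ⟨h3, h4⟩ := mem_sdiff.1 h1
    refine ⟨hcl1, fun v hv hv2 => ?_, ?_, ?_⟩
    · by_contra hc
      push Not at hc
      refine h4 (mem_filter.2 ⟨h3, v, hv, hv2, ?_⟩)
      rw [← Nat.sub_sub]
      exact hc.le
    · have h5 := supp_ParRow E Δ x w t c η hc1 hc2
      have h6 : ((gs_ParRow E Δ x w t).card : ℝ) ≤ 2 * (supp E x η c (w + t) (bb ^ t)).card := by
        exact_mod_cast h5
      have e : bb ^ t * D / 2 ^ 19 = bb ^ t * (D / 256) / 1024 / 2 := by ring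
      rw [e]
      linarith
    · by_contra hc
      push Not at hc
      exact h2 (mem_filter.2 ⟨h3, hc⟩)

theorem lev_pf (hL : S_Low) (hH : S_High) : S_Lev := by
  intro E F X Y Δ D1 D2 w g α p t c hΔ hR hX hD1 hD2 hdR hdC hDp hα hFE hIn hF
  have hΔ0 : (0 : ℝ) < Δ := by linarith
  set R := √(Δ * X.card * Y.card) with hRdef
  have hR0 : 0 ≤ R := Real.sqrt_nonneg _
  have hR2 : R ^ 2 = Δ * X.card * Y.card := Real.sq_sqrt (by positivity)
  have hα0 : (0 : ℝ) ≤ α := Nat.cast_nonneg α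
  rcases F.eq_empty_or_nonempty with rfl | ⟨e0, he0⟩
  · have := b1_pos
    simp only [card_empty, Nat.cast_zero]
    positivity
  rcases g with _ | g0
  · have hDiam : Diam F (2 ^ (α + 1) * Δ / 2 ^ w) := by
      intro x y y' h1 h2
      have a1 := (hF _ h1).2.1
      have a2 := (hF _ h2).2.1
      simp only [zero_add] at a1 a2
      have a3 := dd_tri y (c x) y'
      rw [dd_comm (c x) y'] at a3
      have e : (2 : ℝ) ^ (α + 1) * Δ / 2 ^ w = 2 * (2 ^ α * Δ / 2 ^ w) := by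
        rw [pow_succ]; ring
      rw [e]
      linarith
    have hLight : Light F Δ w :=
      light_of_good (D := D1) hFE fun e he => ⟨t e.1, c e.1, (hF e he).1⟩
    have hw : (2 : ℝ) ^ w ≤ 2 * Δ :=
      le_trans (pow_le_pow_right₀ one_le_two (Nat.le_add_right w (t e0.1))) (hF e0 he0).1.1
    have h1 := hL F Δ X Y w α hΔ (hR.mono hFE) hIn hLight hw hDiam
    have h2 : (F.card : ℝ) ^ 2 ≤ ((α + 1026) * R) ^ 2 := by
      rw [mul_pow, hR2]
      have h3 : (0 : ℝ) ≤ Δ * X.card * Y.card := by positivity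
      have h4 : 8 * ((α : ℝ) + 1026) ≤ (α + 1026) ^ 2 := by nlinarith
      calc _ ≤ 8 * (α + 1026) * Δ * X.card * Y.card := h1
        _ = 8 * (α + 1026) * (Δ * X.card * Y.card) := by ring
        _ ≤ _ := mul_le_mul_of_nonneg_right h4 h3
    have h5 := le_of_sq_le_sq h2 (by positivity)
    simpa using h5
  · have hτ : ∀ τ : ℕ, ((F.filter (fun e => t e.1 = τ)).card : ℝ) ≤ b1 ^ (g0 + 1) * R * b1 ^ τ := by
      intro τ
      have hsub : F.filter (fun e => t e.1 = τ) ⊆ F := filter_subset _ _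
      have h1 := hH E (F.filter (fun e => t e.1 = τ)) X Y Δ D1 D2 w τ g0 α p c hΔ hR hX hD1 hD2
        hdR hdC hDp hα (hsub.trans hFE) (fun e he => hIn e (hsub he)) (fun e he => by
          obtain ⟨he1, he2⟩ := mem_filter.1 he
          obtain ⟨a1, a2, a3⟩ := hF e he1
          rw [he2] at a1
          refine ⟨a1, ?_, ?_⟩
          · rcases a3 with a3 | a3
            · omega
            · have e : (2 : ℝ) ^ (g0 + 1 + α) * Δ / 2 ^ w = 2 * (2 ^ (g0 + α) * Δ / 2 ^ w) := by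
                rw [show g0 + 1 + α = g0 + α + 1 by omega, pow_succ]; ring
              rw [e] at a3
              linarith
          · rw [show g0 + α + 1 = g0 + 1 + α by omega]
            exact a2)
      have hb := b1_pos
      refine le_of_sq_le_sq ?_ (by positivity)
      have e : (b1 ^ (g0 + 1) * R * b1 ^ τ) ^ 2 = bb ^ (g0 + 1 + τ) * Δ * X.card * Y.card := by
        rw [← b1_sq, mul_pow, mul_pow, hR2]; ring
      rw [e]
      exact h1
    have hsum : (F.card : ℝ) = ∑ τ ∈ F.image (fun e => t e.1),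
        ((F.filter (fun e => t e.1 = τ)).card : ℝ) := by
      rw [card_eq_sum_card_fiberwise (f := fun e : ℕ × ℕ => t e.1) (t := F.image (fun e => t e.1))
        (fun e he => mem_image_of_mem _ he)]
      push_cast
      rfl
    have hb := b1_pos
    have hg := geom_le b1 b1_pos.le b1_le_th (F.image (fun e => t e.1))
    have h0 : 0 ≤ b1 ^ (g0 + 1) * R := by positivity
    calc (F.card : ℝ) = _ := hsum
      _ ≤ ∑ τ ∈ F.image (fun e => t e.1), b1 ^ (g0 + 1) * R * b1 ^ τ := sum_le_sum fun τ _ => hτ τ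
      _ = b1 ^ (g0 + 1) * R * ∑ τ ∈ F.image (fun e => t e.1), b1 ^ τ := by rw [mul_sum]
      _ ≤ b1 ^ (g0 + 1) * R * 1024 := mul_le_mul_of_nonneg_left hg h0
      _ ≤ b1 ^ (g0 + 1) * R * (α + 1026) := mul_le_mul_of_nonneg_left (by linarith) h0
      _ = _ := by ring

theorem nat_sum_Schur (T : Finset ℕ) (n0 : ℕ) : ∑ n ∈ T, th ^ (n - n0) ≤ n0 + 1024 := by
  rw [← sum_filter_add_sum_filter_not T (fun n => n < n0)]
  have h1 : ∑ n ∈ T.filter (fun n => n < n0), th ^ (n - n0) ≤ (n0 : ℝ) := by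
    calc ∑ n ∈ T.filter (fun n => n < n0), th ^ (n - n0)
        ≤ ∑ n ∈ T.filter (fun n => n < n0), (1 : ℝ) :=
          sum_le_sum fun n _ => pow_le_one₀ th_pos.le th_lt_one.le
      _ = ((T.filter (fun n => n < n0)).card : ℝ) := by simp
      _ ≤ ((range n0).card : ℝ) := by
          exact_mod_cast card_le_card (fun n hn => mem_range.2 (mem_filter.1 hn).2)
      _ = n0 := by simp
  have h2 : ∑ n ∈ T.filter (fun n => ¬ n < n0), th ^ (n - n0) ≤ (1024 : ℝ) := by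
    rw [← sum_image (s := T.filter (fun n => ¬ n < n0)) (g := fun n => n - n0)
      (f := fun i => th ^ i)]
    · exact geom_le th th_pos.le le_rfl _
    · intro a ha b hb hab
      have ha' := (mem_filter.1 (mem_coe.1 ha)).2
      have hb' := (mem_filter.1 (mem_coe.1 hb)).2
      simp only at hab
      omega
  linarith

theorem line_sum_Schur (W : Finset ℕ) (f : ℕ → ℤ) (hf : ∀ a b, f a = f b → a = b) (n0 : ℕ) :
    ∑ j ∈ W, th ^ ((f j).natAbs - n0) ≤ 2 * n0 + 2049 := by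
  rw [← sum_filter_add_sum_filter_not W (fun j => 0 ≤ f j)]
  have h1 : ∑ j ∈ W.filter (fun j => 0 ≤ f j), th ^ ((f j).natAbs - n0) ≤ (n0 : ℝ) + 1024 := by
    rw [← sum_image (s := W.filter (fun j => 0 ≤ f j)) (g := fun j => (f j).natAbs)
      (f := fun i => th ^ (i - n0))]
    · exact nat_sum_Schur _ n0
    · intro a ha b hb hab
      have ha' := (mem_filter.1 (mem_coe.1 ha)).2
      have hb' := (mem_filter.1 (mem_coe.1 hb)).2
      simp only at hab
      exact hf a b (by omega)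
  have h2 : ∑ j ∈ W.filter (fun j => ¬ 0 ≤ f j), th ^ ((f j).natAbs - n0) ≤ (n0 : ℝ) + 1024 := by
    rw [← sum_image (s := W.filter (fun j => ¬ 0 ≤ f j)) (g := fun j => (f j).natAbs)
      (f := fun i => th ^ (i - n0))]
    · exact nat_sum_Schur _ n0
    · intro a ha b hb hab
      have ha' := (mem_filter.1 (mem_coe.1 ha)).2
      have hb' := (mem_filter.1 (mem_coe.1 hb)).2
      simp only at hab
      exact hf a b (by omega)
  linarith

theorem schur_pf : S_Schur := by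
  intro W W' x y κ n0 a b hx hy ha hb
  set c : ℕ → ℕ → ℝ := fun i j => th ^ (((j : ℤ) - i - κ).natAbs - n0) with hc
  set M : ℝ := 2 * n0 + 2049 with hM
  have hM0 : 0 ≤ M := by positivity
  have hc0 : ∀ i j, 0 ≤ c i j := fun i j => pow_nonneg th_pos.le _
  have hrow : ∀ i, ∑ j ∈ W', c i j ≤ M := fun i =>
    line_sum_Schur W' (fun j => (j : ℤ) - i - κ) (fun a b h => by omega) n0
  have hcol : ∀ j, ∑ i ∈ W, c i j ≤ M := fun j =>
    line_sum_Schur W (fun i => (j : ℤ) - i - κ) (fun a b h => by omega) n0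
  have ha0 : 0 ≤ a := (sum_nonneg fun i _ => hx i).trans ha
  have hb0 : 0 ≤ b := (sum_nonneg fun j _ => hy j).trans hb
  have hA : ∑ p ∈ W ×ˢ W', (√(c p.1 p.2 * x p.1)) ^ 2 ≤ M * a := by
    rw [sum_product]
    calc ∑ i ∈ W, ∑ j ∈ W', (√(c i j * x i)) ^ 2 = ∑ i ∈ W, (∑ j ∈ W', c i j) * x i := by
          refine sum_congr rfl fun i _ => ?_
          rw [sum_mul]
          exact sum_congr rfl fun j _ => Real.sq_sqrt (mul_nonneg (hc0 i j) (hx i))
      _ ≤ ∑ i ∈ W, M * x i := sum_le_sum fun i _ => mul_le_mul_of_nonneg_right (hrow i) (hx i)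
      _ = M * ∑ i ∈ W, x i := by rw [mul_sum]
      _ ≤ M * a := mul_le_mul_of_nonneg_left ha hM0
  have hB : ∑ p ∈ W ×ˢ W', (√(c p.1 p.2 * y p.2)) ^ 2 ≤ M * b := by
    rw [sum_product_right]
    calc ∑ j ∈ W', ∑ i ∈ W, (√(c i j * y j)) ^ 2 = ∑ j ∈ W', (∑ i ∈ W, c i j) * y j := by
          refine sum_congr rfl fun j _ => ?_
          rw [sum_mul]
          exact sum_congr rfl fun i _ => Real.sq_sqrt (mul_nonneg (hc0 i j) (hy j))
      _ ≤ ∑ j ∈ W', M * y j := sum_le_sum fun j _ => mul_le_mul_of_nonneg_right (hcol j) (hy j)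
      _ = M * ∑ j ∈ W', y j := by rw [mul_sum]
      _ ≤ M * b := mul_le_mul_of_nonneg_left hb hM0
  have hE : ∑ i ∈ W, ∑ j ∈ W', c i j * √(x i * y j) =
      ∑ p ∈ W ×ˢ W', √(c p.1 p.2 * x p.1) * √(c p.1 p.2 * y p.2) := by
    rw [sum_product]
    refine sum_congr rfl fun i _ => sum_congr rfl fun j _ => ?_
    simp only
    rw [← Real.sqrt_mul (mul_nonneg (hc0 i j) (hx i)),
      show c i j * x i * (c i j * y j) = (c i j) ^ 2 * (x i * y j) by ring,
      Real.sqrt_mul (sq_nonneg _), Real.sqrt_sq (hc0 i j)]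
  have hCS := sum_mul_sq_le_sq_mul_sq (W ×ˢ W') (fun p => √(c p.1 p.2 * x p.1))
    (fun p => √(c p.1 p.2 * y p.2))
  have hsq : (∑ i ∈ W, ∑ j ∈ W', c i j * √(x i * y j)) ^ 2 ≤ (M * √(a * b)) ^ 2 := by
    rw [hE, mul_pow, Real.sq_sqrt (mul_nonneg ha0 hb0)]
    refine hCS.trans ?_
    calc _ ≤ (M * a) * (M * b) :=
          mul_le_mul hA hB (sum_nonneg fun p _ => sq_nonneg _) (mul_nonneg hM0 ha0)
      _ = M ^ 2 * (a * b) := by ring
  exact (abs_le_of_sq_le_sq' hsq (mul_nonneg hM0 (Real.sqrt_nonneg _))).2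

theorem orth_Cls (hO : S_Orth) (E F : Gr) (X Y : Finset ℕ) (Δ D1 D2 : ℝ) (w w' g' α u : ℕ)
    (κ : ℤ) (t' c' : ℕ → ℕ) (hΔ : 1 ≤ Δ) (hR : RectH E Δ) (h1 : 0 < D1) (h2 : 0 < D2)
    (hD : DegR E D1) (hα : 1 ≤ α) (hκ : D1 ≤ 2 ^ κ * D2) (hF : F ⊆ E) (hI : In F X Y)
    (hne : F.Nonempty) (hG : ∀ e ∈ F, ∃ t c, Good E Δ D1 w t c e.1 e.2)
    (hG' : ∀ e ∈ F, Good (tr E) Δ D2 w' (t' e.2) (c' e.2) e.2 e.1 ∧
      Lv Δ α w' g' (dd e.1 (c' e.2)))
    (hj : κ + ((g' + α + (w + 11 + 2 * u) : ℕ) : ℤ) ≤ w') :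
    (F.card : ℝ) ≤ (α + 1026) * b1 ^ u * √(Δ * X.card * Y.card) := by
  obtain ⟨e0, he0⟩ := hne
  have hw : (0 : ℝ) < 2 ^ w' := by positivity
  have hs : (1 : ℝ) ≤ 2 ^ (g' + α) * Δ / 2 ^ w' := by
    rw [le_div_iff₀ hw, one_mul]
    have a1 : (2 : ℝ) ^ w' ≤ 2 ^ (w' + t' e0.2) := pow_le_pow_right₀ one_le_two (by omega)
    have a2 : (2 : ℝ) ^ 1 ≤ 2 ^ (g' + α) := pow_le_pow_right₀ one_le_two (by omega)
    have a3 := (hG' e0 he0).1.1
    nlinarith
  have hk : D1 * 2 ^ (g' + α + (w + 11 + 2 * u)) ≤ D2 * 2 ^ w' := by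
    have a1 : (2 : ℝ) ^ κ * 2 ^ (g' + α + (w + 11 + 2 * u)) ≤ 2 ^ w' := by
      rw [← zpow_natCast, ← zpow_natCast, ← zpow_add₀ two_ne_zero]
      exact zpow_le_zpow_right₀ one_le_two hj
    calc _ ≤ 2 ^ κ * D2 * 2 ^ (g' + α + (w + 11 + 2 * u)) := by gcongr
      _ = D2 * (2 ^ κ * 2 ^ (g' + α + (w + 11 + 2 * u))) := by ring
      _ ≤ _ := by gcongr
  have h := hO E F Δ D1 D2 _ X Y w u c' hΔ h1 h2 (hR.mono hF) hI hD (light_of_good hF hG) hs
    (fun e he => ⟨(hG' e he).2.1, (hG' e he).1.2.2.2⟩) (by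
      rw [pow_add] at hk
      calc _ = D1 * (2 ^ (g' + α) * 2 ^ (w + 11 + 2 * u)) * (Δ / 2 ^ w') := by ring
        _ ≤ D2 * 2 ^ w' * (Δ / 2 ^ w') := by gcongr
        _ = _ := by field_simp)
  have hb := b1_pos
  have hb' := bb_pos
  have hS : 0 ≤ Δ * X.card * Y.card := by positivity
  refine (sq_le_sq₀ (by positivity) (by positivity)).1 (h.trans ?_)
  rw [mul_pow, mul_pow, Real.sq_sqrt hS, ← pow_mul, mul_comm u 2, pow_mul, b1_sq]
  have a1 : (8193 : ℝ) ≤ (α + 1026) ^ 2 := by nlinarith [Nat.cast_nonneg (α := ℝ) α]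
  calc _ = 8193 * bb ^ u * (Δ * X.card * Y.card) := by ring
    _ ≤ _ := by gcongr

theorem fin_Cls {x L R : ℝ} {m n : ℕ} (hL : 0 ≤ L) (hR : 0 ≤ R) (h : x ≤ L * b1 ^ m * R)
    (hn : n ≤ 5 * m + 1) : x ≤ 2 * L * th ^ n * R := by
  have a1 : th ^ (5 * m + 1) ≤ th ^ n := pow_le_pow_of_le_one th_pos.le th_lt_one.le hn
  have a2 : b1 ^ m ≤ 2 * th ^ n := by
    have a3 : 0 < th ^ (5 * m) := pow_pos th_pos _
    have a4 : 1 / 2 ≤ th := by norm_num [th]
    rw [pow_succ] at a1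
    rw [b1, ← pow_mul]
    nlinarith
  calc x ≤ L * b1 ^ m * R := h
    _ ≤ L * (2 * th ^ n) * R := by gcongr
    _ = _ := by ring

theorem cls_pf (hL : S_Lev) (hO : S_Orth) : S_Cls := by
  intro E F X Y Δ D1 D2 w w' g g' α p κ t c t' c' hΔ hR hH h1 h2 hD1 hD2 hp hα hκ hκ' hF hI hG hG'
  have hL0 : (0 : ℝ) ≤ α + 1026 := by positivity
  have hS := Real.sqrt_nonneg (Δ * X.card * Y.card)
  rcases F.eq_empty_or_nonempty with rfl | hne
  · have := th_pos
    simp only [card_empty, Nat.cast_zero]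
    positivity
  have eR : Δ * Y.card * X.card = Δ * X.card * Y.card := by ring
  have k1 := hL E F X Y Δ D1 D2 w g α p t c hΔ hR hH h1 h2 hD1 hD2 hp hα hF hI hG
  have k2 := hL (tr E) (tr F) Y X Δ D2 D1 w' g' α p t' c' hΔ hR.tr hH.tr h2 h1 hD2.tr hD1.tr
    (by rwa [mul_comm]) hα (tr_subset hF) hI.tr fun e he => hG' _ (mem_tr'.1 he)
  rw [card_tr, eR] at k2
  have k3 : (F.card : ℝ) ≤ (α + 1026) * b1 ^ (max g g') * √(Δ * X.card * Y.card) := by
    rcases max_cases g g' with ⟨e, _⟩ | ⟨e, _⟩ <;> rw [e] <;> assumption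
  obtain ⟨J, hJ⟩ : ∃ J, J = ((w' : ℤ) - w - κ).natAbs - (α + 12) := ⟨_, rfl⟩
  rw [← hJ]
  rcases le_or_gt J (max g g') with hc | hc
  · exact fin_Cls hL0 hS k3 (by omega)
  obtain ⟨u, hu⟩ : ∃ u, u = (J - max g g') / 2 := ⟨_, rfl⟩
  have k4 : (F.card : ℝ) ≤ (α + 1026) * b1 ^ u * √(Δ * X.card * Y.card) := by
    rcases le_or_gt 0 ((w' : ℤ) - w - κ) with hj | hj
    · exact orth_Cls hO E F X Y Δ D1 D2 w w' g' α u κ t' c' hΔ hR h1 h2 hD1 (by omega) hκ hF hI
        hne (fun e he => ⟨_, _, (hG e he).1⟩) hG' (by omega)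
    · have := orth_Cls hO (tr E) (tr F) Y X Δ D2 D1 w' w g α u (1 - κ) t c hΔ hR.tr h2 h1 hD2.tr
        (by omega) hκ' (tr_subset hF) hI.tr (hne.image _)
        (fun e he => ⟨_, _, (hG' _ (mem_tr'.1 he)).1⟩)
        (fun e he => by rw [tr_tr]; exact hG _ (mem_tr'.1 he)) (by omega)
      rwa [card_tr, eR] at this
  rcases le_total u (max g g') with hm | hm
  · exact fin_Cls hL0 hS k3 (by omega)
  · exact fin_Cls hL0 hS k4 (by omega)

theorem loss_Core (E : Gr) (X : Finset ℕ) (R : ℕ → Finset ℕ) (n : ℝ) (hX : ∀ e ∈ E, e.1 ∈ X)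
    (h1 : ∀ x, R x ⊆ rowS E x) (h2 : ∀ x, ((rowS E x).card : ℝ) ≤ (R x).card + n) :
    ((E.filter (fun e => e.2 ∉ R e.1)).card : ℝ) ≤ X.card * n := by
  refine card_le_mul_DegR (fun e he => hX e (mem_filter.1 he).1) fun x => ?_
  have hsub : rowS (E.filter (fun e => e.2 ∉ R e.1)) x ⊆ rowS E x \ R x := by
    intro y hy
    have := mem_filter.1 (mem_rowS.1 hy)
    exact mem_sdiff.2 ⟨mem_rowS.2 this.1, this.2⟩
  have h3 := card_le_card hsub
  have h4 := card_sdiff_add_card_eq_card (h1 x)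
  have h5 : ((rowS (E.filter (fun e => e.2 ∉ R e.1)) x).card : ℝ) + (R x).card ≤
      (rowS E x).card := by
    exact_mod_cast (by omega)
  linarith [h2 x]

theorem sum_fib_Core (X : Finset ℕ) (w : ℕ → ℕ) :
    ∑ i ∈ X.image w, ((X.filter (fun x => w x = i)).card : ℝ) = X.card := by
  rw [card_eq_sum_card_fiberwise (f := w) (s := X) (t := X.image w)
    (fun x hx => mem_image_of_mem w hx)]
  push_cast; rfl

theorem kappa_Core (D1 D2 : ℝ) (h1 : 0 < D1) (h2 : 0 < D2) :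
    ∃ κ : ℤ, D1 ≤ 2 ^ κ * D2 ∧ D2 ≤ 2 ^ (1 - κ) * D1 := by
  obtain ⟨n, hn1, hn2⟩ := exists_mem_Ioc_zpow (div_pos h1 h2) (one_lt_two (α := ℝ))
  refine ⟨n + 1, (div_le_iff₀ h2).1 hn2, ?_⟩
  have e : (1 : ℤ) - (n + 1) = -n := by ring
  rw [e, zpow_neg]
  have hp : (0 : ℝ) < 2 ^ n := zpow_pos two_pos n
  rw [lt_div_iff₀ h2] at hn1
  rw [inv_mul_eq_div, le_div_iff₀ hp]
  linarith

theorem num_Core (p : ℕ) (R : ℝ) (hR : 0 ≤ R) :
    2 * (((4 * p + 400 : ℕ) : ℝ) + 1026) * ((2 * ((4 * p + 400 + 12 : ℕ) : ℝ) + 2049) * R) *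
      (1024 * 1024) ≤ 2 ^ 30 * ((p : ℝ) + 400) ^ 2 * R := by
  have hp : (0 : ℝ) ≤ p := Nat.cast_nonneg p
  push_cast
  have h1 : (4 * (p : ℝ) + 400 + 1026) * (2 * (4 * p + 400 + 12) + 2049) ≤
      (4 * (p + 400)) * (8 * (p + 400)) :=
    mul_le_mul (by linarith) (by linarith) (by linarith) (by linarith)
  have h2 := mul_le_mul_of_nonneg_right h1 hR
  have h3 : 0 ≤ ((p : ℝ) + 400) ^ 2 * R := by positivity
  have e1 : 2 * (4 * (p : ℝ) + 400 + 1026) * ((2 * (4 * p + 400 + 12) + 2049) * R) * (1024 * 1024)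
      = 2097152 * ((4 * (p : ℝ) + 400 + 1026) * (2 * (4 * p + 400 + 12) + 2049) * R) := by ring
  have e2 : (4 * ((p : ℝ) + 400)) * (8 * (p + 400)) * R = 32 * ((p + 400) ^ 2 * R) := by ring
  have e3 : (2 : ℝ) ^ 30 * ((p : ℝ) + 400) ^ 2 * R = 1073741824 * ((p + 400) ^ 2 * R) := by ring
  rw [e1, e3]
  rw [e2] at h2
  linarith

theorem core_pf (hP : S_ParRow) (hC : S_Cls) (hS : S_Schur) : S_Core := by
  intro E X Y Δ D1 D2 p hΔ hR hH h1 h2 hD1 hD2 hp hI
  choose w t c R hR1 hR2 hR3 using fun x => hP E Δ D1 x hΔ h1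
  choose w' t' c' R' hR1' hR2' hR3' using fun y => hP (tr E) Δ D2 y hΔ h2
  obtain ⟨κ, hκ1, hκ2⟩ := kappa_Core D1 D2 h1 h2
  set α : ℕ := 4 * p + 400 with hα
  choose g hg using fun e : ℕ × ℕ => exists_level Δ hΔ α (w e.1) (dd e.2 (c e.1))
  choose g' hg' using fun e : ℕ × ℕ => exists_level Δ hΔ α (w' e.2) (dd e.1 (c' e.2))
  set F : Gr := E.filter (fun e => e.2 ∈ R e.1 ∧ e.1 ∈ R' e.2) with hF
  have l1 := loss_Core E X R _ (fun e he => (hI e he).1) hR1 hR2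
  have l2 := loss_Core (tr E) Y R' _ (fun e he => (hI.tr e he).1) hR1' hR2'
  have hcov : E ⊆ F ∪ E.filter (fun e => e.2 ∉ R e.1) ∪
      tr ((tr E).filter (fun e => e.2 ∉ R' e.1)) := by
    intro e he
    simp only [mem_union, hF, mem_filter, mem_tr', he, true_and]
    tauto
  have hE : (E.card : ℝ) ≤ F.card + (E.filter (fun e => e.2 ∉ R e.1)).card +
      ((tr E).filter (fun e => e.2 ∉ R' e.1)).card := by
    have a1 := card_le_card hcov
    have a2 := card_union_le (F ∪ E.filter (fun e => e.2 ∉ R e.1))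
      (tr ((tr E).filter (fun e => e.2 ∉ R' e.1)))
    have a3 := card_union_le F (E.filter (fun e => e.2 ∉ R e.1))
    rw [card_tr] at a2
    have a4 := a1.trans (a2.trans (Nat.add_le_add_right a3 _))
    exact_mod_cast a4
  have hFE : F ⊆ E := filter_subset _ _
  set φ : ℕ × ℕ → (ℕ × ℕ) × (ℕ × ℕ) := fun e => ((w e.1, w' e.2), (g e, g' e)) with hφ
  set T := (X.image w ×ˢ Y.image w') ×ˢ (F.image g ×ˢ F.image g') with hT
  have hsum : (F.card : ℝ) = ∑ k ∈ T, ((F.filter (fun e => φ e = k)).card : ℝ) := by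
    rw [card_eq_sum_card_fiberwise (f := φ) (s := F) (t := T) (fun e he => by
      have he' : e ∈ F := he
      simp only [hT, hφ, coe_product, Set.mem_prod, mem_coe]
      exact ⟨⟨mem_image_of_mem _ (hI e (hFE he')).1, mem_image_of_mem _ (hI e (hFE he')).2⟩,
        mem_image_of_mem _ he', mem_image_of_mem _ he'⟩)]
    push_cast; rfl
  set xs : ℕ → ℝ := fun i => Δ * ((X.filter (fun x => w x = i)).card : ℝ) with hxs
  set ys : ℕ → ℝ := fun j => ((Y.filter (fun y => w' y = j)).card : ℝ) with hys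
  set Λ : ℝ := 2 * (α + 1026) with hΛ
  have hΛ0 : 0 ≤ Λ := by positivity
  have hcls : ∀ k ∈ T, ((F.filter (fun e => φ e = k)).card : ℝ) ≤
      (Λ * (th ^ (((k.1.2 : ℤ) - k.1.1 - κ).natAbs - (α + 12)) * √(xs k.1.1 * ys k.1.2))) *
        (th ^ k.2.1 * th ^ k.2.2) := by
    rintro ⟨⟨i, j⟩, ⟨a, b⟩⟩ _
    have := hC E (F.filter (fun e => φ e = ((i, j), (a, b)))) (X.filter (fun x => w x = i))
      (Y.filter (fun y => w' y = j)) Δ D1 D2 i j a b α p κ t c t' c' hΔ hR hH h1 h2 hD1 hD2 hp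
      le_rfl hκ1 hκ2 ((filter_subset _ _).trans hFE) ?_ ?_ ?_
    · refine this.trans (le_of_eq ?_)
      simp only [hxs, hys, hΛ, pow_add]
      ring
    · intro e he
      obtain ⟨he1, he2⟩ := mem_filter.1 he
      simp only [hφ, Prod.mk.injEq] at he2
      exact ⟨mem_filter.2 ⟨(hI e (hFE he1)).1, he2.1.1⟩, mem_filter.2 ⟨(hI e (hFE he1)).2, he2.1.2⟩⟩
    · intro e he
      obtain ⟨he1, he2⟩ := mem_filter.1 he
      simp only [hφ, Prod.mk.injEq] at he2
      obtain ⟨⟨rfl, -⟩, rfl, -⟩ := he2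
      exact ⟨hR3 _ _ (mem_filter.1 he1).2.1, hg e⟩
    · intro e he
      obtain ⟨he1, he2⟩ := mem_filter.1 he
      simp only [hφ, Prod.mk.injEq] at he2
      obtain ⟨⟨-, rfl⟩, -, rfl⟩ := he2
      exact ⟨hR3' _ _ (mem_filter.1 he1).2.2, hg' e⟩
  have hxs0 : ∀ i, 0 ≤ xs i := fun i => by simp only [hxs]; positivity
  have hys0 : ∀ i, 0 ≤ ys i := fun i => by simp only [hys]; positivity
  have hsch := hS (X.image w) (Y.image w') xs ys κ (α + 12) (Δ * X.card) Y.card hxs0 hys0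
    (by simp only [hxs]; rw [← mul_sum, sum_fib_Core]) (by simp only [hys]; rw [sum_fib_Core])
  have hgg : ∑ k ∈ F.image g ×ˢ F.image g', th ^ k.1 * th ^ k.2 ≤ 1024 * 1024 := by
    rw [sum_product, ← sum_mul_sum]
    exact mul_le_mul (geom_le th th_pos.le le_rfl _) (geom_le th th_pos.le le_rfl _)
      (sum_nonneg fun i _ => pow_nonneg th_pos.le i) (by norm_num)
  have hF2 : (F.card : ℝ) ≤ Λ * ((2 * ((α + 12 : ℕ) : ℝ) + 2049) * √(Δ * X.card * Y.card)) *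
      (1024 * 1024) := by
    rw [hsum]
    refine (sum_le_sum hcls).trans ?_
    rw [hT, sum_product, ← sum_mul_sum
      (f := fun k : ℕ × ℕ =>
        Λ * (th ^ (((k.2 : ℤ) - k.1 - κ).natAbs - (α + 12)) * √(xs k.1 * ys k.2)))
      (g := fun k : ℕ × ℕ => th ^ k.1 * th ^ k.2)]
    refine mul_le_mul ?_ hgg (sum_nonneg fun i _ => ?_) (by positivity)
    · rw [← mul_sum, sum_product]
      exact mul_le_mul_of_nonneg_left hsch hΛ0
    · have := th_pos; positivity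
  have hnum := num_Core p √(Δ * X.card * Y.card) (Real.sqrt_nonneg _)
  have e1 : Λ = 2 * (((4 * p + 400 : ℕ) : ℝ) + 1026) := rfl
  rw [e1, hα] at hF2
  linarith

theorem heavy_Disc (E0 : Gr) (X0 : Finset ℕ) (c : ℝ) (hX : ∀ e ∈ E0, e.1 ∈ X0)
    (he0 : (0 : ℝ) < E0.card) (ha : (0 : ℝ) < X0.card) (hc : 0 ≤ c)
    (hmax : ∀ X' ⊆ X0, ((E0.filter (fun e => e.1 ∈ X')).card : ℝ) ^ 2 ≤ c * X'.card)
    (he : (E0.card : ℝ) ^ 2 = c * X0.card) :
    ∃ Xh : Finset ℕ, 4 * ((E0.filter (fun e => e.1 ∈ Xh)).card : ℝ) ≤ E0.card ∧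
      ∀ x ∉ Xh, ((rowS E0 x).card : ℝ) ≤ 16 * E0.card / X0.card := by
  set D : ℝ := 16 * E0.card / X0.card with hD
  have hD0 : 0 < D := by positivity
  refine ⟨X0.filter (fun x => D < (rowS E0 x).card), ?_, fun x hx => ?_⟩
  · set Xh := X0.filter (fun x => D < ((rowS E0 x).card : ℝ)) with hXh
    have h1 : (Xh.card : ℝ) * D ≤ E0.card := by
      rw [card_eq_sum_rowS E0 X0 hX]
      push_cast
      calc (Xh.card : ℝ) * D = ∑ _x ∈ Xh, D := by simp
        _ ≤ ∑ x ∈ Xh, ((rowS E0 x).card : ℝ) :=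
          sum_le_sum fun x hx => (mem_filter.1 hx).2.le
        _ ≤ _ := sum_le_sum_of_subset_of_nonneg (filter_subset _ _) fun _ _ _ => by positivity
    have h2 : (Xh.card : ℝ) * 16 ≤ X0.card := by
      rw [hD, ← mul_div_assoc, div_le_iff₀ ha] at h1
      have : (E0.card : ℝ) * (Xh.card * 16) ≤ E0.card * X0.card := by linarith
      exact le_of_mul_le_mul_left this he0
    have h3 := hmax Xh (filter_subset _ _)
    have h4 : (4 * ((E0.filter (fun e => e.1 ∈ Xh)).card : ℝ)) ^ 2 ≤ (E0.card : ℝ) ^ 2 := by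
      rw [he]
      nlinarith [mul_le_mul_of_nonneg_left h2 hc]
    exact (abs_le_of_sq_le_sq' h4 he0.le).2
  · by_cases h : x ∈ X0
    · by_contra h'
      exact hx (mem_filter.2 ⟨h, not_le.1 h'⟩)
    · have : rowS E0 x = ∅ := eq_empty_of_forall_notMem fun y hy => h (hX _ (mem_rowS.1 hy))
      rw [this]
      simpa using hD0.le

theorem pow_Disc (p : ℕ) (hp : 200 ≤ p) : (2 : ℝ) ^ 75 * ((p : ℝ) + 400) ^ 4 ≤ 2 ^ p := by
  induction p, hp using Nat.le_induction with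
  | base => norm_num
  | succ n hn ih =>
    have h0 : (200 : ℝ) ≤ n := by exact_mod_cast hn
    have h1 : ((n : ℝ) + 1 + 400) ≤ (1 + 1 / 100) * (n + 400) := by linarith
    have h2 : ((n : ℝ) + 1 + 400) ^ 4 ≤ ((1 + 1 / 100) * (n + 400)) ^ 4 :=
      pow_le_pow_left₀ (by positivity) h1 4
    have h3 : (0 : ℝ) ≤ ((n : ℝ) + 400) ^ 4 := by positivity
    rw [mul_pow] at h2
    push_cast
    rw [pow_succ (2 : ℝ) n]
    have h4 : ((n : ℝ) + 1 + 400) ^ 4 ≤ 2 * ((n : ℝ) + 400) ^ 4 :=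
      h2.trans (mul_le_mul_of_nonneg_right (by norm_num) h3)
    linarith [mul_le_mul_of_nonneg_left h4 (show (0 : ℝ) ≤ 2 ^ 75 by positivity)]

theorem opt_Disc (hC : S_Core) (E0 : Gr) (X0 Y0 : Finset ℕ) (Δ f0 : ℝ) (hΔ : 1 ≤ Δ)
    (hR : RectH E0 Δ) (hH : HexH E0 Δ) (hIn : In E0 X0 Y0) (he0 : (0 : ℝ) < E0.card)
    (he : (E0.card : ℝ) ^ 2 = f0 * X0.card * Y0.card)
    (h1 : ∀ X' ⊆ X0, ((E0.filter (fun e => e.1 ∈ X')).card : ℝ) ^ 2 ≤ f0 * X'.card * Y0.card)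
    (h2 : ∀ Y' ⊆ Y0, ((E0.filter (fun e => e.2 ∈ Y')).card : ℝ) ^ 2 ≤ f0 * X0.card * Y'.card) :
    f0 ≤ 2 ^ 200 * Δ := by
  obtain ⟨z, hz⟩ : E0.Nonempty := card_pos.1 (by exact_mod_cast he0)
  have ha : (0 : ℝ) < X0.card := by exact_mod_cast card_pos.2 ⟨_, (hIn z hz).1⟩
  have hb : (0 : ℝ) < Y0.card := by exact_mod_cast card_pos.2 ⟨_, (hIn z hz).2⟩
  have hf : 0 < f0 := by
    by_contra h
    have : f0 * X0.card * Y0.card ≤ 0 :=
      mul_nonpos_of_nonpos_of_nonneg (mul_nonpos_of_nonpos_of_nonneg (not_lt.1 h) ha.le) hb.le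
    nlinarith
  obtain ⟨Xh, hX1, hX2⟩ := heavy_Disc E0 X0 (f0 * Y0.card) (fun e h => (hIn e h).1) he0 ha
    (by positivity) (fun X' h => (h1 X' h).trans (le_of_eq (by ring))) (by rw [he]; ring)
  have htr : ∀ Y' : Finset ℕ, ((tr E0).filter (fun e => e.1 ∈ Y')).card =
      (E0.filter (fun e => e.2 ∈ Y')).card := fun Y' => by
    rw [← card_tr (E0.filter (fun e => e.2 ∈ Y'))]
    congr 1
    ext e
    simp only [mem_filter, mem_tr']
  obtain ⟨Yh, hY1, hY2⟩ := heavy_Disc (tr E0) Y0 (f0 * X0.card) (fun e h => (hIn.tr e h).1)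
    (by rwa [card_tr]) hb (by positivity) (fun Y' h => by rw [htr]; exact h2 Y' h)
    (by rw [card_tr, he])
  rw [htr, card_tr] at hY1
  simp only [card_tr, rowS_tr] at hY2
  set e : ℝ := (E0.card : ℝ) with hee
  set a : ℝ := (X0.card : ℝ)
  set b : ℝ := (Y0.card : ℝ)
  set E1 := E0.filter (fun e => e.1 ∉ Xh ∧ e.2 ∉ Yh) with hE1
  have hsub : E1 ⊆ E0 := filter_subset _ _
  have hc1 : e ≤ 2 * E1.card := by
    have h3 : E0 ⊆ E1 ∪ E0.filter (fun e => e.1 ∈ Xh) ∪ E0.filter (fun e => e.2 ∈ Yh) := by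
      intro w hw
      simp only [hE1, mem_union, mem_filter, hw, true_and]
      tauto
    have h4 := (card_le_card h3).trans ((card_union_le _ _).trans
      (Nat.add_le_add_right (card_union_le _ _) _))
    have h5 : e ≤ E1.card + (E0.filter (fun e => e.1 ∈ Xh)).card +
        (E0.filter (fun e => e.2 ∈ Yh)).card := by
      rw [hee]; exact_mod_cast h4
    linarith
  have hDR : DegR E1 (16 * e / a) := fun x => by
    by_cases hx : x ∈ Xh
    · have : rowS E1 x = ∅ := eq_empty_of_forall_notMem fun y hy =>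
        (mem_filter.1 (mem_rowS.1 hy)).2.1 hx
      rw [this, card_empty, Nat.cast_zero]
      positivity
    · exact le_trans (by exact_mod_cast card_le_card (rowS_mono hsub x)) (hX2 x hx)
  have hDC : DegC E1 (16 * e / b) := fun y => by
    by_cases hy : y ∈ Yh
    · have : colS E1 y = ∅ := eq_empty_of_forall_notMem fun x hx =>
        (mem_filter.1 (mem_colS.1 hx)).2.2 hy
      rw [this, card_empty, Nat.cast_zero]
      positivity
    · exact le_trans (by exact_mod_cast card_le_card (colS_mono hsub y)) (hY2 y hy)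
  have hprod : 16 * e / a * (16 * e / b) = 256 * f0 := by
    field_simp
    linarith
  have hex : ∃ p : ℕ, 256 * f0 ≤ 2 ^ p * Δ := by
    obtain ⟨p, hp⟩ := pow_unbounded_of_one_lt (256 * f0) (one_lt_two (α := ℝ))
    exact ⟨p, hp.le.trans (le_mul_of_one_le_right (by positivity) hΔ)⟩
  have hp := Nat.find_spec hex
  have hmin := fun m => Nat.find_min hex (m := m)
  generalize Nat.find hex = p at hp hmin
  have hcore := hC E1 X0 Y0 Δ _ _ p hΔ (hR.mono hsub) (hH.mono hsub) (by positivity)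
    (by positivity) hDR hDC (hprod ▸ hp) (fun w hw => hIn w (hsub hw))
  have e1 : 3 * (16 * e / a / 256) * a = 3 * e / 16 := by field_simp; ring
  have e2 : 3 * (16 * e / b / 256) * b = 3 * e / 16 := by field_simp; ring
  rw [e1, e2] at hcore
  have hs : √(Δ * a * b) ^ 2 = Δ * a * b := Real.sq_sqrt (by positivity)
  have h5 : e ≤ 2 ^ 33 * ((p : ℝ) + 400) ^ 2 * √(Δ * a * b) := by linarith
  have h6 := pow_le_pow_left₀ he0.le h5 2
  rw [mul_pow, hs, he] at h6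
  have h7 : f0 ≤ 2 ^ 66 * ((p : ℝ) + 400) ^ 4 * Δ := by
    have : (a * b) * f0 ≤ (a * b) * (2 ^ 66 * ((p : ℝ) + 400) ^ 4 * Δ) := by linarith
    exact le_of_mul_le_mul_left this (by positivity)
  have h8 : p ≤ 200 := by
    by_contra h
    have h9 := not_le.1 (hmin (p - 1) (by omega))
    have h10 := pow_Disc p (by omega)
    have e3 : (2 : ℝ) ^ p = 2 * 2 ^ (p - 1) := by
      rw [← pow_succ']; congr 1; omega
    have h11 := mul_le_mul_of_nonneg_right h10 (show 0 ≤ Δ by linarith)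
    rw [e3] at h11
    linarith
  have h9 : (2 : ℝ) ^ p ≤ 2 ^ 200 := pow_le_pow_right₀ one_le_two h8
  have h10 := mul_le_mul_of_nonneg_right h9 (show 0 ≤ Δ by linarith)
  linarith

theorem disc_pf (hC : S_Core) : S_Disc := by
  refine ⟨2 ^ 200, by positivity, fun E X Y Δ hΔ hR hH hIn => ?_⟩
  let sub : Finset ℕ × Finset ℕ → Gr := fun q => E.filter (fun e => e.1 ∈ q.1 ∧ e.2 ∈ q.2)
  let f : Finset ℕ × Finset ℕ → ℝ := fun q => ((sub q).card : ℝ) ^ 2 / (q.1.card * q.2.card)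
  obtain ⟨q, hq, hmax⟩ := exists_max_image (X.powerset ×ˢ Y.powerset) f ⟨(X, Y), by simp⟩
  obtain ⟨hq1, hq2⟩ := mem_product.1 hq
  rw [mem_powerset] at hq1 hq2
  have hf0 : 0 ≤ f q := by positivity
  have hzero : ∀ r : Finset ℕ × Finset ℕ, (r.1.card : ℝ) * r.2.card = 0 → sub r = ∅ := by
    intro r hr
    refine eq_empty_of_forall_notMem fun w hw => ?_
    have h1 : (0 : ℝ) < r.1.card := by exact_mod_cast card_pos.2 ⟨_, (mem_filter.1 hw).2.1⟩
    have h2 : (0 : ℝ) < r.2.card := by exact_mod_cast card_pos.2 ⟨_, (mem_filter.1 hw).2.2⟩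
    exact (mul_pos h1 h2).ne' hr
  have hstar : ∀ X' ⊆ X, ∀ Y' ⊆ Y, ((sub (X', Y')).card : ℝ) ^ 2 ≤ f q * X'.card * Y'.card := by
    intro X' h1 Y' h2
    by_cases h0 : (X'.card : ℝ) * Y'.card = 0
    · rw [hzero (X', Y') h0, mul_assoc, h0]
      simp
    · have h3 := hmax (X', Y') (mem_product.2 ⟨mem_powerset.2 h1, mem_powerset.2 h2⟩)
      have h4 : (0 : ℝ) < (X'.card : ℝ) * Y'.card := lt_of_le_of_ne (by positivity) (Ne.symm h0)
      rw [mul_assoc]
      exact (div_le_iff₀ h4).1 h3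
  have hE : sub (X, Y) = E := filter_true_of_mem fun e he => hIn e he
  have hle : f q ≤ 2 ^ 200 * Δ := by
    by_cases h0 : (sub q).card = 0
    · have : f q = 0 := by simp only [f, h0]; simp
      rw [this]; positivity
    · have h1 : (q.1.card : ℝ) * q.2.card ≠ 0 := fun h => h0 (by rw [hzero q h, card_empty])
      have hs : sub q ⊆ E := filter_subset _ _
      refine opt_Disc hC (sub q) q.1 q.2 Δ (f q) hΔ (hR.mono hs) (hH.mono hs)
        (fun e he => (mem_filter.1 he).2) (by exact_mod_cast Nat.pos_of_ne_zero h0)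
        (by rw [mul_assoc]; exact (div_mul_cancel₀ _ h1).symm) (fun X' h => ?_) (fun Y' h => ?_)
      · refine le_trans ?_ (hstar X' (h.trans hq1) q.2 hq2)
        have : (sub q).filter (fun e => e.1 ∈ X') ⊆ sub (X', q.2) := fun w hw =>
          mem_filter.2 ⟨hs (mem_filter.1 hw).1, (mem_filter.1 hw).2,
            (mem_filter.1 (mem_filter.1 hw).1).2.2⟩
        exact pow_le_pow_left₀ (by positivity) (by exact_mod_cast card_le_card this) 2
      · refine le_trans ?_ (hstar q.1 hq1 Y' (h.trans hq2))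
        have : (sub q).filter (fun e => e.2 ∈ Y') ⊆ sub (q.1, Y') := fun w hw =>
          mem_filter.2 ⟨hs (mem_filter.1 hw).1, (mem_filter.1 (mem_filter.1 hw).1).2.1,
            (mem_filter.1 hw).2⟩
        exact pow_le_pow_left₀ (by positivity) (by exact_mod_cast card_le_card this) 2
  have h1 := hstar X subset_rfl Y subset_rfl
  rw [hE] at h1
  refine h1.trans ?_
  gcongr

theorem slope_Sub {g g' : ℝ → ℝ} {m : ℝ}
    (h : ∀ x ∈ Set.Icc (0 : ℝ) 1, HasDerivAt g (g' x) x ∧ m ≤ g' x) {x1 x2 : ℝ}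
    (h1 : x1 ∈ Set.Icc (0 : ℝ) 1) (h2 : x2 ∈ Set.Icc (0 : ℝ) 1) (h12 : x1 ≤ x2) :
    m * (x2 - x1) ≤ g x2 - g x1 :=
  (convex_Icc (0 : ℝ) 1).mul_sub_le_image_sub_of_le_deriv
    (fun x hx => (h x hx).1.continuousAt.continuousWithinAt)
    (fun x hx => (h x (interior_subset hx)).1.differentiableAt.differentiableWithinAt)
    (fun x hx => by
      rw [(h x (interior_subset hx)).1.deriv]
      exact (h x (interior_subset hx)).2) x1 h1 x2 h2 h12

theorem rect_Sub {u uy uxy : ℝ → ℝ → ℝ}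
    (h : ∀ x ∈ Set.Icc (0 : ℝ) 1, ∀ y ∈ Set.Icc (0 : ℝ) 1,
      HasDerivAt (fun y' => u x y') (uy x y) y ∧ HasDerivAt (fun x' => uy x' y) (uxy x y) x ∧
        1 ≤ uxy x y) {x1 x2 y1 y2 : ℝ}
    (h1 : x1 ∈ Set.Icc (0 : ℝ) 1) (h2 : x2 ∈ Set.Icc (0 : ℝ) 1) (h12 : x1 ≤ x2)
    (k1 : y1 ∈ Set.Icc (0 : ℝ) 1) (k2 : y2 ∈ Set.Icc (0 : ℝ) 1) (k12 : y1 ≤ y2) :
    (x2 - x1) * (y2 - y1) ≤ u x2 y2 - u x1 y2 - (u x2 y1 - u x1 y1) :=
  slope_Sub (g := fun y => u x2 y - u x1 y) (g' := fun y => uy x2 y - uy x1 y)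
    (fun y hy => ⟨(h x2 h2 y hy).1.sub (h x1 h1 y hy).1, by
      have := slope_Sub (g := fun x => uy x y) (g' := fun x => uxy x y) (m := 1)
        (fun x hx => (h x hx y hy).2) h1 h2 h12
      rwa [one_mul] at this⟩) k1 k2 k12

theorem sub_pf (hH : S_Hex) : S_Sub := by
  obtain ⟨κ, hκ, hH⟩ := hH
  refine ⟨√(6 / κ), fun u uy uxy hu h ε hε => ?_⟩
  set A : Set (ℝ × ℝ) :=
    {z : ℝ × ℝ | z ∈ Set.Icc (0 : ℝ) 1 ×ˢ Set.Icc (0 : ℝ) 1 ∧ |u z.1 z.2| ≤ ε} with hA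
  have hAm : MeasurableSet A :=
    (measurableSet_Icc.prod measurableSet_Icc).inter (measurableSet_le hu.abs measurable_const)
  rcases eq_zero_or_pos (volume A) with h0 | h0
  · rw [h0, ENNReal.toReal_zero]
    positivity
  obtain ⟨a, b, c, p, q, s, ⟨⟨ha, hq⟩, e1⟩, ⟨⟨hb, -⟩, e2⟩, ⟨⟨-, hp⟩, e3⟩, ⟨⟨hc, -⟩, e4⟩,
    ⟨⟨-, hs⟩, e5⟩, ⟨-, e6⟩, hbac, hqps, hvol⟩ := hH A hAm (fun z hz => hz.1) h0
  simp only at ha hb hc hp hq hs e1 e2 e3 e4 e5 e6
  rw [abs_le] at e1 e2 e3 e4 e5 e6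
  have key : |c - a| * |s - p| - |b - a| * |q - p| ≤ 6 * ε := by
    rcases Set.mem_uIcc.1 hbac with ⟨m1, m2⟩ | ⟨m1, m2⟩ <;>
      rcases Set.mem_uIcc.1 hqps with ⟨n1, n2⟩ | ⟨n1, n2⟩
    · have r1 := rect_Sub h ha hc (m1.trans m2) hq hs n2
      have r2 := rect_Sub h hb hc m2 hp hq n1
      rw [abs_of_nonneg (by linarith), abs_of_nonneg (by linarith), abs_of_nonneg (by linarith),
        abs_of_nonneg (by linarith)]
      linarith
    · have r1 := rect_Sub h ha hc (m1.trans m2) hs hq n1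
      have r2 := rect_Sub h hb hc m2 hq hp n2
      rw [abs_of_nonneg (a := c - a) (by linarith), abs_of_nonpos (a := s - p) (by linarith),
        abs_of_nonneg (a := b - a) (by linarith), abs_of_nonpos (a := q - p) (by linarith)]
      linarith
    · have r1 := rect_Sub h hc ha (m1.trans m2) hq hs n2
      have r2 := rect_Sub h hc hb m1 hp hq n1
      rw [abs_of_nonpos (a := c - a) (by linarith), abs_of_nonneg (a := s - p) (by linarith),
        abs_of_nonpos (a := b - a) (by linarith), abs_of_nonneg (a := q - p) (by linarith)]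
      linarith
    · have r1 := rect_Sub h hc ha (m1.trans m2) hs hq n1
      have r2 := rect_Sub h hc hb m1 hq hp n2
      rw [abs_of_nonpos (a := c - a) (by linarith), abs_of_nonpos (a := s - p) (by linarith),
        abs_of_nonpos (a := b - a) (by linarith), abs_of_nonpos (a := q - p) (by linarith)]
      linarith
  rw [← Real.sqrt_mul (by positivity)]
  refine Real.le_sqrt_of_sq_le ?_
  rw [div_mul_eq_mul_div, le_div_iff₀ hκ]
  linarith

end Hex888
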