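import Pool.Agent.MP_888de5_co.Hex.PartA
import Pool.Agent.MP_888de5_co.Hex.PartB
import Pool.Agent.MP_888de5_co.Hex.Grid2

set_option autoImplicit false
open Finset MeasureTheory

namespace Hex888

theorem disc_all : S_Disc :=
  disc_pf (core_pf parRow_pf
    (cls_pf (lev_pf (low_pf cher_pf) high_all) (orth_pf cher_pf)) schur_pf)

theorem hex2_all : S_Hex2 := fin2_pf disc_all

theorem hex_all : S_Hex := by
  obtain ⟨κ, hκ, h⟩ := hex2_all
  refine ⟨κ, hκ, fun A hA hA1 hA0 => ?_⟩
  simpa using h _ _ A measurableSet_Icc measurableSet_Icc hA subset_rfl subset_rfl hA1 hA0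

/-- the sublevel set estimate without logarithm -/
theorem sub_all : S_Sub := sub_pf hex_all

end Hex888
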