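import Pool.Agent.MP_888de5_co.Hex.St

set_option autoImplicit false
open Finset MeasureTheory
open scoped Classical

namespace Hex888

theorem sum_Prune (F : Gr) (ρ : ℝ) :
    ∑ e ∈ F, (near F e.1 e.2 ρ).card ≤ (cherD F ρ).card := by
  rw [card_eq_sum_card_fiberwise (f := Prod.fst) (s := cherD F ρ) (t := F)
    (fun p hp => (mem_cherD.1 hp).1)]
  refine sum_le_sum fun e he => ?_
  refine card_le_card_of_injOn (fun y => (e, (e.1, y))) (fun y hy => ?_) fun a _ b _ h => ?_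
  · obtain ⟨h1, h2⟩ := mem_near.1 hy
    exact mem_filter.2 ⟨mem_cherD.2 ⟨he, h1, rfl, by rwa [dd_comm]⟩, rfl⟩
  · exact (Prod.ext_iff.1 (Prod.ext_iff.1 h).2).2

theorem markov_Prune (F : Gr) {ρ m : ℝ} (hm : 0 < m)
    (h : 8 * ((cherD F ρ).card : ℝ) ≤ m * F.card) :
    8 * ((F.filter fun e => m < ((near F e.1 e.2 ρ).card : ℝ)).card : ℝ) ≤ F.card := by
  have h1 : ∑ e ∈ F, ((near F e.1 e.2 ρ).card : ℝ) ≤ (cherD F ρ).card := by
    exact_mod_cast sum_Prune F ρ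
  have h2 : ((F.filter fun e => m < ((near F e.1 e.2 ρ).card : ℝ)).card : ℝ) * m ≤
      ∑ e ∈ F, ((near F e.1 e.2 ρ).card : ℝ) := by
    rw [← nsmul_eq_mul]
    exact (card_nsmul_le_sum _ _ _ fun e he => (mem_filter.1 he).2.le).trans
      (sum_le_sum_of_subset_of_nonneg (filter_subset _ _) fun _ _ _ => Nat.cast_nonneg _)
  refine le_of_mul_le_mul_left ?_ hm
  linarith

theorem small_Prune (F : Gr) (X : Finset ℕ) (h : ∀ e ∈ F, e.1 ∈ X) :
    2 * ((F.filter fun e => ((rowS F e.1).card : ℝ) < (F.card : ℝ) / X.card / 2).card : ℝ) ≤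
      F.card := by
  have h1 := card_le_mul_fib (F.filter fun e => ((rowS F e.1).card : ℝ) < (F.card : ℝ) / X.card / 2)
    X Prod.fst ((F.card : ℝ) / X.card / 2) (fun e he => h e (mem_filter.1 he).1) fun x _ => by
      rcases ((F.filter fun e => ((rowS F e.1).card : ℝ) < (F.card : ℝ) / X.card / 2).filter
        fun a => a.1 = x).eq_empty_or_nonempty with h0 | ⟨e, he⟩
      · rw [h0, card_empty, Nat.cast_zero]
        positivity
      · obtain ⟨h2, rfl⟩ := mem_filter.1 he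
        refine le_trans ?_ (mem_filter.1 h2).2.le
        refine Nat.cast_le.2 (card_le_card_of_injOn Prod.snd (fun a ha => ?_) fun a ha b hb hab => ?_)
        · obtain ⟨h3, h4⟩ := mem_filter.1 ha
          refine mem_rowS.2 ?_
          rw [← h4]
          exact (mem_filter.1 h3).1
        · exact Prod.ext ((mem_filter.1 ha).2.trans (mem_filter.1 hb).2.symm) hab
  have h2 : (X.card : ℝ) * ((F.card : ℝ) / X.card) ≤ F.card := by
    rcases eq_or_ne (X.card : ℝ) 0 with h0 | h0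
    · rw [h0, zero_mul]
      positivity
    · rw [mul_div_cancel₀ _ h0]
  linarith

theorem prune_pf : S_Prune := by
  intro F X ρ1 ρ2 m1 m2 hX h1 h2 h3 h4
  refine ⟨F.filter fun e => (F.card : ℝ) / X.card / 2 ≤ (rowS F e.1).card ∧
    ((near F e.1 e.2 ρ1).card : ℝ) ≤ m1 ∧ ((near F e.1 e.2 ρ2).card : ℝ) ≤ m2,
    filter_subset _ _, ?_, fun e he => (mem_filter.1 he).2⟩
  have a0 := small_Prune F X hX
  have a1 := markov_Prune F h1 h3
  have a2 := markov_Prune F h2 h4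
  set F1 := F.filter fun e => (F.card : ℝ) / X.card / 2 ≤ (rowS F e.1).card ∧
    ((near F e.1 e.2 ρ1).card : ℝ) ≤ m1 ∧ ((near F e.1 e.2 ρ2).card : ℝ) ≤ m2 with hF1
  set B0 := F.filter fun e => ((rowS F e.1).card : ℝ) < (F.card : ℝ) / X.card / 2 with hB0
  set B1 := F.filter fun e => m1 < ((near F e.1 e.2 ρ1).card : ℝ) with hB1
  set B2 := F.filter fun e => m2 < ((near F e.1 e.2 ρ2).card : ℝ) with hB2
  have hs : F ⊆ F1 ∪ B0 ∪ B1 ∪ B2 := by
    intro e he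
    simp only [hF1, hB0, hB1, hB2, mem_union, mem_filter, he, true_and]
    by_contra hc
    push Not at hc
    exact absurd (hc.1.1.1 hc.1.1.2 hc.1.2) (not_lt.2 hc.2)
  have hc : F.card ≤ F1.card + B0.card + B1.card + B2.card :=
    (card_le_card hs).trans ((card_union_le _ _).trans (Nat.add_le_add_right
      ((card_union_le _ _).trans (Nat.add_le_add_right (card_union_le _ _) _)) _))
  have hc' : (F.card : ℝ) ≤ F1.card + B0.card + B1.card + B2.card := by exact_mod_cast hc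
  linarith

theorem fib_ge_Path {α β : Type} [DecidableEq β] (P : Finset α) (T : Finset β) (f : α → β) (c : ℝ)
    (h : ∀ b ∈ T, c ≤ ((P.filter fun a => f a = b).card : ℝ)) : T.card * c ≤ P.card := by
  have h1 : ∑ b ∈ T, (P.filter fun a => f a = b).card ≤ P.card := by
    rw [sum_card_fiberwise_eq_card_filter]
    exact card_filter_le _ _
  have h2 : (∑ b ∈ T, ((P.filter fun a => f a = b).card : ℝ)) ≤ P.card := by exact_mod_cast h1
  refine le_trans ?_ h2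
  rw [← nsmul_eq_mul]
  exact card_nsmul_le_sum _ _ _ h

theorem fib_le_Path {α β : Type} [DecidableEq β] (P : Finset α) (T : Finset β) (f : α → β) (c : ℝ)
    (hf : ∀ a ∈ P, f a ∈ T) (h : ∀ b ∈ T, ((P.filter fun a => f a = b).card : ℝ) ≤ c) :
    (P.card : ℝ) ≤ T.card * c := by
  rw [card_eq_sum_card_fiberwise (f := f) (t := T) fun a ha => hf a ha, ← nsmul_eq_mul]
  push_cast
  exact sum_le_card_nsmul _ _ _ h

theorem path_pf : S_Path := by
  intro F F1 Y l ρ q m d hF hY hq hr hm hd hc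
  obtain ⟨Q, hQ⟩ : ∃ Q, Q = (F1 ×ˢ F1).filter fun p => p.1.2 = p.2.2 := ⟨_, rfl⟩
  have mQ : ∀ p, p ∈ Q ↔ p.1 ∈ F1 ∧ p.2 ∈ F1 ∧ p.1.2 = p.2.2 := fun p => by
    rw [hQ, mem_filter, mem_product, and_assoc]
  have h1 : (F1.card : ℝ) ^ 2 ≤ Y.card * Q.card := by
    rw [hQ]
    exact cs_key F1 Y Prod.snd hY
  have h2 : ((Q.filter fun p => dd p.2.1 p.1.1 < l).card : ℝ) ≤ F1.card * q := by
    refine fib_le_Path _ F1 Prod.fst q (fun p hp => ((mQ p).1 (mem_filter.1 hp).1).1) fun e _ => ?_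
    refine le_trans ?_ (hq e.2 e.1)
    refine Nat.cast_le.2 (card_le_card_of_injOn (fun p => p.2.1) (fun p hp => ?_) ?_)
    · simp only [coe_filter, mem_filter, mQ, Set.mem_ofPred_eq] at hp
      obtain ⟨⟨⟨-, a2, a3⟩, a4⟩, rfl⟩ := hp
      exact mem_coe.2 (mem_ball'.2 ⟨by rw [a3]; exact hF a2, a4⟩)
    · intro p hp p' hp' e1
      simp only [coe_filter, mem_filter, mQ, Set.mem_ofPred_eq] at hp hp'
      refine Prod.ext (hp.2.trans hp'.2.symm) (Prod.ext e1 ?_)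
      rw [← hp.1.1.2.2, ← hp'.1.1.2.2, hp.2, hp'.2]
  have h3 : ((Q.filter fun p => ¬ dd p.2.1 p.1.1 < l).card : ℝ) * (d / 4) ≤
      (paths F F1 l ρ).card := by
    refine fib_ge_Path _ _ (fun π => (π.1, (π.2.1, π.1.2))) _ fun p hp => ?_
    obtain ⟨hp1, hp2⟩ := mem_filter.1 hp
    obtain ⟨a1, a2, a3⟩ := (mQ p).1 hp1
    obtain ⟨b1, b2⟩ := hr p.2 a2
    have c1 : ((rowS F p.2.1).card : ℝ) ≤
        (rowS F p.2.1 \ near F p.2.1 p.2.2 ρ).card + (near F p.2.1 p.2.2 ρ).card := by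
      exact_mod_cast card_le_card_sdiff_add_card
    have c2 : ((rowS F p.2.1 \ near F p.2.1 p.2.2 ρ).card : ℝ) ≤
        ((paths F F1 l ρ).filter fun π => (π.1, (π.2.1, π.1.2)) = p).card := by
      refine Nat.cast_le.2 (card_le_card_of_injOn (fun y => (p.1, (p.2.1, y))) (fun y hy => ?_)
        fun y _ y' _ e => by simpa using e)
      obtain ⟨y1, y2⟩ := mem_sdiff.1 (mem_coe.1 hy)
      rw [mem_rowS] at y1
      rw [mem_near, not_and, not_le] at y2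
      refine mem_coe.2 (mem_filter.2 ⟨mem_paths.2 ⟨a1, y1, ?_, not_lt.1 hp2, ?_⟩, ?_⟩)
      · rw [a3]; exact a2
      · rw [a3]; exact y2 y1
      · simp only [a3]
    linarith
  have h4 : (Q.card : ℝ) = (Q.filter fun p => dd p.2.1 p.1.1 < l).card +
      (Q.filter fun p => ¬ dd p.2.1 p.1.1 < l).card := by
    exact_mod_cast (card_filter_add_card_filter_not (s := Q) _).symm
  have y0 : (0 : ℝ) ≤ Y.card := Nat.cast_nonneg _
  have f0 : (0 : ℝ) ≤ F1.card := Nat.cast_nonneg _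
  generalize ((Q.filter fun p => dd p.2.1 p.1.1 < l).card : ℝ) = A at *
  generalize ((Q.filter fun p => ¬ dd p.2.1 p.1.1 < l).card : ℝ) = B at *
  have h5 : (F1.card : ℝ) ^ 2 ≤ 2 * Y.card * B := by
    have := mul_le_mul_of_nonneg_left h2 y0
    have := mul_le_mul_of_nonneg_left hc f0
    rw [h4] at h1
    nlinarith
  nlinarith [mul_le_mul_of_nonneg_left h5 hd, mul_le_mul_of_nonneg_left h3 y0]

theorem fl_KeyA {a b c : ℝ} {K : ℕ} (n : ℕ) (hK : 1 ≤ K) (hc : 0 < c) (ha : 0 ≤ a)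
    (h : ⌊b * K / c⌋₊ + n ≤ ⌊a * K / c⌋₊) : b + (n - 1) * (c / K) < a := by
  have hK' : (0 : ℝ) < K := by exact_mod_cast hK
  have h1 := Nat.lt_floor_add_one (b * K / c)
  have h2 := Nat.floor_le (show 0 ≤ a * K / c by positivity)
  have h3 : (⌊b * K / c⌋₊ : ℝ) + n ≤ ⌊a * K / c⌋₊ := by exact_mod_cast h
  have h4 : b * K / c + (n - 1) < a * K / c := by linarith
  have h5 := mul_lt_mul_of_pos_right h4 (div_pos hc hK')
  have e1 : ∀ t : ℝ, t * K / c * (c / K) = t := fun t => by field_simp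
  rwa [add_mul, e1, e1] at h5

theorem abs_KeyA {a b c : ℝ} {K : ℕ} (hK : 1 ≤ K) (hc : 0 < c) (ha : 0 ≤ a) (hb : 0 ≤ b)
    (h : ⌊a * K / c⌋₊ = ⌊b * K / c⌋₊) : |a - b| ≤ c / K := by
  have h1 := fl_KeyA 0 hK hc ha (b := b) (by omega)
  have h2 := fl_KeyA 0 hK hc hb (b := a) (by omega)
  simp only [Nat.cast_zero] at h1 h2
  rw [abs_le]; constructor <;> linarith

theorem arm_KeyA {F : Gr} {Δ r l : ℝ} {K : ℕ} (hH : HexH F Δ) (hK : 1 ≤ K) (hr : 0 < r)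
    (hl : 0 < l) (hΔ : K * Δ ≤ r * l) {x y ξ1 ξ2 η1 η2 : ℕ} (a1 : (x, η1) ∈ F)
    (a2 : (ξ1, η1) ∈ F) (a3 : (ξ1, y) ∈ F) (c1 : (x, η2) ∈ F) (c2 : (ξ2, η2) ∈ F)
    (c3 : (ξ2, y) ∈ F) (hl1 : l ≤ dd ξ1 x) (hξ : ξ2 ∈ Set.uIcc x ξ1) (hs : y ≤ η1 ↔ y ≤ η2)
    (hq : ⌊dd η2 y * K / r⌋₊ + 2 ≤ ⌊dd η1 y * K / r⌋₊) : False := by
  have hK' : (0 : ℝ) < K := by exact_mod_cast hK
  have hrK := div_pos hr hK'
  have h1 := fl_KeyA 2 hK hr (dd_nonneg _ _) hq
  have h1' : dd η2 y + r / K < dd η1 y := by push_cast at h1; linarith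
  have h2 : η2 ∈ Set.uIcc y η1 := by
    rw [Set.mem_uIcc]
    by_cases h : y ≤ η1
    · rw [dd_of_ge h, dd_of_ge (hs.1 h)] at h1'
      have h3 : (η2 : ℝ) ≤ η1 := by linarith
      exact Or.inl ⟨hs.1 h, by exact_mod_cast h3⟩
    · have h' : η2 ≤ y := (not_le.1 fun h4 => h (hs.2 h4)).le
      rw [dd_of_le (not_le.1 h).le, dd_of_le h'] at h1'
      have h3 : (η1 : ℝ) ≤ η2 := by linarith
      exact Or.inr ⟨by exact_mod_cast h3, h'⟩
  have h3 := uIcc_dd h2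
  have h4 := hH.arm c1 c2 c3 a3 a2 a1 hξ h2
  have h5 : Δ ≤ l * (r / K) := by
    rw [← mul_div_assoc, le_div_iff₀ hK']; linarith
  have h6 : l * (r / K) < l * dd η1 η2 := mul_lt_mul_of_pos_left (by linarith) hl
  have h7 := mul_le_mul_of_nonneg_right hl1 (dd_nonneg η1 η2)
  linarith

theorem mono_KeyA (F : Gr) {D : ℝ} (hD : 0 < D) (K y : ℕ) {ξ1 ξ2 : ℕ}
    (h : ⌊(rk F y ξ1 : ℝ) * K / D⌋₊ < ⌊(rk F y ξ2 : ℝ) * K / D⌋₊) : ξ1 < ξ2 := by
  by_contra hc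
  have h1 : rk F y ξ2 ≤ rk F y ξ1 := card_le_card fun z hz =>
    mem_filter.2 ⟨(mem_filter.1 hz).1, (mem_filter.1 hz).2.trans_le (not_lt.1 hc)⟩
  have h2 : (rk F y ξ2 : ℝ) ≤ rk F y ξ1 := by exact_mod_cast h1
  exact h.not_ge (Nat.floor_le_floor (by gcongr))

theorem le_KeyA {a r : ℝ} (K : ℕ) (hr : 0 < r) (h : a ≤ r) : ⌊a * K / r⌋₊ ≤ K :=
  Nat.floor_le_of_le (by
    rw [div_le_iff₀ hr, mul_comm]; exact mul_le_mul_of_nonneg_left h (Nat.cast_nonneg K))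

theorem keyA_pf : S_KeyA := by
  rintro F F1 Δ r l ρ D K hH hF hK hr hl hD hΔ hDi ⟨⟨x, η1⟩, ξ1, y⟩ h1 ⟨⟨x', η2⟩, ξ2, y'⟩ h2 hk
  simp only [key, kp, kq, Prod.mk.injEq, decide_eq_decide] at hk
  obtain ⟨⟨rfl, rfl⟩, ⟨hx, hs⟩, hk⟩ := hk
  obtain ⟨a1, a3, a2, hl1, -⟩ := mem_paths.1 h1
  obtain ⟨c1, c3, c2, hl2, -⟩ := mem_paths.1 h2
  simp only at a1 a2 a3 hl1 c1 c2 c3 hl2
  have q1 := le_KeyA K hr (hDi _ _ _ (hF a2) a3)
  have q2 := le_KeyA K hr (hDi _ _ _ (hF c2) c3)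
  have m1 := mono_KeyA F hD K y (ξ1 := ξ1) (ξ2 := ξ2)
  have m2 := mono_KeyA F hD K y (ξ1 := ξ2) (ξ2 := ξ1)
  have A1 := arm_KeyA hH hK hr hl hΔ (hF a1) (hF a2) a3 (hF c1) (hF c2) c3 hl1
  have A2 := arm_KeyA hH hK hr hl hΔ (hF c1) (hF c2) c3 (hF a1) (hF a2) a3 hl2
  rw [Set.mem_uIcc] at A1 A2
  have e : ⌊(rk F y ξ1 : ℝ) * K / D⌋₊ = ⌊(rk F y ξ2 : ℝ) * K / D⌋₊ ∧
      ⌊dd η1 y * K / r⌋₊ = ⌊dd η2 y * K / r⌋₊ := by
    have B1 := fun h => A1 h hs
    have B2 := fun h => A2 h hs.symm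
    generalize ⌊(rk F y ξ1 : ℝ) * K / D⌋₊ = p1 at *
    generalize ⌊(rk F y ξ2 : ℝ) * K / D⌋₊ = p2 at *
    generalize ⌊dd η1 y * K / r⌋₊ = k1 at *
    generalize ⌊dd η2 y * K / r⌋₊ = k2 at *
    by_cases h : x ≤ ξ1
    · rw [if_pos h, if_pos (hx.1 h)] at hk
      have h' := hx.1 h
      rcases lt_trichotomy p1 p2 with hp | hp | hp
      · exact (B2 (Or.inl ⟨h, (m1 hp).le⟩) (by omega)).elim
      · omega
      · exact (B1 (Or.inl ⟨h', (m2 hp).le⟩) (by omega)).elim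
    · have h' : ¬ x ≤ ξ2 := fun h' => h (hx.2 h')
      rw [if_neg h, if_neg h'] at hk
      rcases lt_trichotomy p1 p2 with hp | hp | hp
      · exact (B1 (Or.inr ⟨(m1 hp).le, by omega⟩) (by omega)).elim
      · omega
      · exact (B2 (Or.inr ⟨(m2 hp).le, by omega⟩) (by omega)).elim
  refine mem_pairs.2 ⟨h1, h2, rfl, rfl, ?_, ?_⟩
  · exact abs_KeyA hK hD (Nat.cast_nonneg _) (Nat.cast_nonneg _) e.1
  · have h3 := abs_KeyA hK hr (dd_nonneg _ _) (dd_nonneg _ _) e.2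
    show dd η1 η2 ≤ r / K
    by_cases h : y ≤ η1
    · rw [dd_of_ge h, dd_of_ge (hs.1 h)] at h3
      rw [dd]; convert h3 using 2; ring
    · have h' : η2 ≤ y := (not_le.1 fun h4 => h (hs.2 h4)).le
      rw [dd_of_le (not_le.1 h).le, dd_of_le h', abs_sub_comm] at h3
      rw [dd]; convert h3 using 2; ring

theorem floor_Key {a b : ℝ} {K : ℕ} (hb : 0 < b) (h : a ≤ b) : ⌊a * K / b⌋₊ ≤ K := by
  refine Nat.floor_le_of_le ?_
  rw [div_le_iff₀ hb, mul_comm a]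
  exact mul_le_mul_of_nonneg_left h (Nat.cast_nonneg K)

theorem key_pf (hA : S_KeyA) : S_Key := by
  intro F F1 X Δ r l ρ D K hH hF hX hK hr hl hD hC hKr hd
  have r0 : 0 < r := one_pos.trans_le hr
  have K1 : (1 : ℝ) ≤ K := by exact_mod_cast hK
  set P := paths F F1 l ρ with hP
  let T0 : Finset (ℕ × ℕ) := P.image fun π => (π.1.1, π.2.2)
  have h1 := cs_key P (T0 ×ˢ (univ : Finset (Bool × Bool)) ×ˢ range (3 * K + 1)) (key F r D K)
    (fun π hπ => by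
      obtain ⟨-, a2, a3, -⟩ := mem_paths.1 hπ
      have b1 : kp F D K π ≤ K := floor_Key hD
        (le_trans (Nat.cast_le.2 (card_filter_le _ _)) (hC π.2.2))
      have b2 : kq r K π ≤ K := floor_Key r0 (hd π.2.1 _ _ (hF a3) a2)
      refine mem_product.2 ⟨mem_image_of_mem _ hπ, mem_product.2 ⟨mem_univ _, mem_range.2 ?_⟩⟩
      simp only [key]
      split_ifs <;> omega)
  have h2 : (T0.card : ℝ) ≤ X.card * (5 * r) := by
    refine card_le_mul_fib T0 X Prod.fst _ (fun a ha => ?_) fun x _ => ?_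
    · obtain ⟨π, hπ, rfl⟩ := mem_image.1 ha
      exact hX π.1 (hF (mem_paths.1 hπ).1)
    · rw [← card_image_of_injOn (f := Prod.snd) fun a ha b hb hab =>
        Prod.ext ((mem_filter.1 ha).2.trans (mem_filter.1 hb).2.symm) hab]
      refine card_le_of_diam _ _ (by positivity) fun a ha b hb => ?_
      obtain ⟨u, hu, rfl⟩ := mem_image.1 ha
      obtain ⟨v, hv, rfl⟩ := mem_image.1 hb
      obtain ⟨hu', ea⟩ := mem_filter.1 hu
      obtain ⟨hv', eb⟩ := mem_filter.1 hv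
      obtain ⟨π, hπ, rfl⟩ := mem_image.1 hu'
      obtain ⟨π', hπ', rfl⟩ := mem_image.1 hv'
      obtain ⟨a1, a2, a3, -⟩ := mem_paths.1 hπ
      obtain ⟨b1, b2, b3, -⟩ := mem_paths.1 hπ'
      have c1 := hd π.2.1 _ _ a2 (hF a3)
      have c2 := hd x π.1.2 π'.1.2 (ea ▸ hF a1) (eb ▸ hF b1)
      have c3 := hd π'.2.1 _ _ (hF b3) b2
      have c4 := dd_tri π.2.2 π.1.2 π'.2.2
      have c5 := dd_tri π.1.2 π'.1.2 π'.2.2
      simp only
      linarith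
  have h3 : (((P ×ˢ P).filter fun z => key F r D K z.1 = key F r D K z.2).card : ℝ) ≤
      (pairs F P (r / K) (D / K)).card := by
    refine Nat.cast_le.2 (card_le_card fun z hz => ?_)
    obtain ⟨a, b⟩ := mem_filter.1 hz
    exact hA F F1 Δ r l ρ D K hH hF hK r0 hl hD hKr hd _ (mem_product.1 a).1 _
      (mem_product.1 a).2 b
  refine h1.trans (mul_le_mul ?_ h3 (Nat.cast_nonneg _) (by positivity))
  rw [card_product, card_product, card_range, card_univ, Fintype.card_prod, Fintype.card_bool]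
  push_cast
  refine (mul_le_mul h2 (show _ ≤ 16 * (K : ℝ) by linarith) (by positivity)
    (by positivity)).trans_eq ?_
  ring

theorem close_pf : S_Close := by
  intro F F1 Δ l ρ q m ρ' σ hR hF hl hρ hΔ hq hm hball hnear
  rw [mul_assoc]
  refine card_le_mul_fib _ (paths F F1 l ρ) (fun z => z.1) (m * q)
    (fun z hz => (mem_pairs.1 (mem_filter.1 hz).1).1) fun π hπ => ?_
  have hπ1 := (mem_paths.1 hπ).1
  refine (card_le_mul_fib _ (near F π.1.1 π.1.2 (Δ / l)) (fun z => z.2.1.2) q (fun z hz => ?_)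
    fun η _ => ?_).trans (mul_le_mul_of_nonneg_right (hnear _ hπ1) hq)
  · obtain ⟨hz1, e1⟩ := mem_filter.1 hz
    obtain ⟨hz2, hd⟩ := mem_filter.1 hz1
    obtain ⟨-, h2, h3, -⟩ := mem_pairs.1 hz2
    rw [e1] at h3 hd
    refine mem_near.2 ⟨?_, by rw [dd_comm]; exact hd⟩
    rw [h3]
    exact hF (mem_paths.1 h2).1
  · set S := ((pairsC F (paths F F1 l ρ) ρ' σ (Δ / l)).filter (fun z => z.1 = π)).filter
      (fun z => z.2.1.2 = η) with hS
    have hmem : ∀ z ∈ S, z.1 = π ∧ z.2.1.1 = π.1.1 ∧ z.2.1.2 = η ∧ z.2.2.2 = π.2.2 ∧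
        (z.2.2.1, η) ∈ F ∧ (z.2.2.1, π.2.2) ∈ F ∧ ρ < dd π.2.2 η := by
      intro z hz
      obtain ⟨hz1, e1⟩ := mem_filter.1 hz
      obtain ⟨hz2, e2⟩ := mem_filter.1 hz1
      obtain ⟨-, h2, h3, h4, -⟩ := mem_pairs.1 (mem_filter.1 hz2).1
      obtain ⟨-, k2, k3, -, k5⟩ := mem_paths.1 h2
      rw [e2] at h3 h4
      rw [e1] at k3 k5
      refine ⟨e2, h3.symm, e1, h4.symm, hF k3, ?_, ?_⟩
      · rw [h4]; exact k2
      · rw [h4]; exact k5
    rcases S.eq_empty_or_nonempty with he | ⟨z0, hz0⟩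
    · rw [he]; simpa using hq
    refine le_trans ?_ (hball η z0.2.2.1)
    have : S.card ≤ (ball F η z0.2.2.1 l).card := by
      refine card_le_card_of_injOn (fun z => z.2.2.1) (fun z hz => ?_) fun z hz z' hz' e => ?_
      · obtain ⟨-, -, -, -, a1, a2, a3⟩ := hmem z hz
        obtain ⟨-, -, -, -, b1, b2, -⟩ := hmem z0 hz0
        refine mem_coe.2 (mem_ball'.2 ⟨a1, ?_⟩)
        have h := hR _ _ _ _ a2 a1 b2 b1
        by_contra hc
        have hc' := not_lt.1 hc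
        have := mul_le_mul (show l + 1 ≤ dd z.2.2.1 z0.2.2.1 + 1 by linarith)
          (show ρ + 1 ≤ dd π.2.2 η + 1 by linarith) (by linarith)
          (by linarith [dd_nonneg z.2.2.1 z0.2.2.1])
        nlinarith
      · obtain ⟨a1, a2, a3, a4, -⟩ := hmem z hz
        obtain ⟨b1, b2, b3, b4, -⟩ := hmem z' hz'
        exact Prod.ext (a1.trans b1.symm) (Prod.ext (Prod.ext (a2.trans b2.symm)
          (a3.trans b3.symm)) (Prod.ext e (a4.trans b4.symm)))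
    exact_mod_cast this

/-- Sets of pairwise related elements with property `Q` have at most `n` elements. -/
def Bd_Far {α : Type} (Q : α → Prop) (E : α → α → Prop) (n : ℝ) : Prop :=
  ∀ P : Finset α, (∀ a ∈ P, Q a) → (∀ a ∈ P, ∀ b ∈ P, E a b) → (P.card : ℝ) ≤ n

theorem one_Far {α : Type} {Q : α → Prop} {E : α → α → Prop}
    (h : ∀ a b, Q a → Q b → E a b → a = b) : Bd_Far Q E 1 := fun P h1 h2 => by
  exact_mod_cast card_le_one.2 fun a ha b hb => h a b (h1 a ha) (h1 b hb) (h2 a ha b hb)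

theorem step_Far {α β : Type} {Q : α → Prop} {E : α → α → Prop} {n1 n2 : ℝ} (f : α → β)
    (h1 : 0 ≤ n1) (h2 : 0 ≤ n2)
    (h : ∀ b, Q b → ∃ T : Finset β, (T.card : ℝ) ≤ n1 ∧ ∀ a, Q a → E a b → f a ∈ T)
    (h' : Bd_Far Q (fun a b => E a b ∧ f a = f b) n2) : Bd_Far Q E (n1 * n2) := fun P hQ hE => by
  rcases P.eq_empty_or_nonempty with rfl | ⟨b, hb⟩
  · simpa using mul_nonneg h1 h2
  obtain ⟨T, hT, hf⟩ := h b (hQ b hb)
  refine (card_le_mul_fib P T f n2 (fun a ha => hf a (hQ a ha) (hE a ha b hb)) fun c _ =>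
    h' _ (fun a ha => hQ a (mem_filter.1 ha).1) fun a ha a' ha' => ?_).trans
    (mul_le_mul_of_nonneg_right hT h2)
  rw [mem_filter] at ha ha'
  exact ⟨hE a ha.1 a' ha'.1, ha.2.trans ha'.2.symm⟩

theorem rk_lt_Far {F : Gr} {y a b : ℕ} (ha : a ∈ colS F y) (h : a < b) : rk F y a < rk F y b :=
  card_lt_card ⟨fun _ hz => mem_filter.2 ⟨(mem_filter.1 hz).1, (mem_filter.1 hz).2.trans h⟩,
    fun hs => lt_irrefl a (mem_filter.1 (hs (mem_filter.2 ⟨ha, h⟩))).2⟩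

theorem rk_card_Far (F : Gr) (y c : ℕ) {σ : ℝ} (hσ : 0 ≤ σ) :
    (((colS F y).filter fun a => dd c (rk F y a) ≤ σ).card : ℝ) ≤ 2 * σ + 1 := by
  rw [← card_image_of_injOn (f := rk F y) fun a ha b hb e => ?_]
  · refine card_le_of_dd _ c σ hσ fun x hx => ?_
    obtain ⟨a, ha, rfl⟩ := mem_image.1 hx
    rw [dd_comm]
    exact (mem_filter.1 ha).2
  · rcases lt_trichotomy a b with h | h | h
    · exact absurd e (rk_lt_Far (mem_filter.1 ha).1 h).ne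
    · exact h
    · exact absurd e (rk_lt_Far (mem_filter.1 hb).1 h).ne'

theorem far_pf : S_Far := by
  intro F F1 Δ l ρ q m ρ' σ D hR hF hl hσ hq hm hD hB hn
  have hD0 : 0 ≤ D := (Nat.cast_nonneg _).trans (hD 0)
  have key : Bd_Far (fun z => z ∈ pairsF F (paths F F1 l ρ) ρ' σ (Δ / l)) (fun _ _ => True)
      (F.card * ((2 * σ + 1) * (D * (m * (q * 1))))) := by
    simp only [pairsF, mem_filter, mem_pairs, mem_paths]
    refine step_Far (fun z => z.1.2) (by positivity) (by positivity)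
      (fun _ _ => ⟨F, le_rfl, fun a ha _ => ha.1.1.2.1⟩) ?_
    refine step_Far (fun z => z.2.2.1) (by positivity) (by positivity)
      (fun b _ => ⟨_, rk_card_Far F b.1.2.2 (rk F b.1.2.2 b.1.2.1) hσ, fun a ha e => ?_⟩) ?_
    · rw [← e.2]
      exact mem_filter.2 ⟨mem_colS.2 (ha.1.2.2.2.1 ▸ ha.1.2.1.2.1), ha.1.2.2.2.2.1⟩
    refine step_Far (fun z => z.1.1.2) hD0 (by positivity)
      (fun b _ => ⟨_, hD b.1.2.1, fun a ha e => ?_⟩) ?_
    · rw [← e.1.2]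
      exact mem_rowS.2 (hF ha.1.1.2.2.1)
    refine step_Far (fun z => z.2.1.2) hm (by positivity)
      (fun b hb => ⟨_, hn _ hb.1.2.1.2.2.1, fun a ha e => mem_near.2 ⟨?_, ?_⟩⟩) ?_
    · rw [← e.1.2]
      exact hF ha.1.2.1.2.2.1
    · have h1 := ha.1.2.2.2.2.2
      have h2 := hb.1.2.2.2.2.2
      rw [e.2, dd_comm] at h1
      linarith [dd_tri a.2.1.2 b.1.1.2 b.2.1.2]
    refine step_Far (fun z => z.1.1.1) hq zero_le_one
      (fun b hb => ⟨_, hB b.1.1.2 b.1.1.1, fun a ha e => ?_⟩) (one_Far ?_)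
    · have a1 : (a.1.1.1, b.1.1.2) ∈ F := e.1.2 ▸ hF ha.1.1.1
      have a2 : (a.1.1.1, b.2.1.2) ∈ F := by
        rw [← e.2, ha.1.2.2.1]
        exact hF ha.1.2.1.1
      have a3 : (b.1.1.1, b.2.1.2) ∈ F := by
        rw [hb.1.2.2.1]
        exact hF hb.1.2.1.1
      have h1 := hR _ _ _ _ a1 a2 (hF hb.1.1.1) a3
      have h2 := (div_lt_iff₀ hl).1 hb.2
      refine mem_ball'.2 ⟨a1, lt_of_not_ge fun h3 => ?_⟩
      nlinarith [dd_nonneg b.1.1.2 b.2.1.2,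
        mul_le_mul_of_nonneg_right h3 (dd_nonneg b.1.1.2 b.2.1.2)]
    · rintro ⟨⟨⟨x, η⟩, ξ, y⟩, ⟨x', η'⟩, ξ', y'⟩ ⟨⟨⟨u, v⟩, s, t⟩, ⟨u', v'⟩, s', t'⟩ ha hb
        ⟨⟨⟨⟨⟨-, e1⟩, e2⟩, e3⟩, e4⟩, e5⟩
      have a1 := ha.1.2.2.1
      have a2 := ha.1.2.2.2.1
      have b1 := hb.1.2.2.1
      have b2 := hb.1.2.2.2.1
      simp only [Prod.mk.injEq] at a1 a2 b1 b2 e1 e2 e3 e4 e5 ⊢
      omega
  refine (key _ (fun _ h => h) fun _ _ _ _ => trivial).trans_eq ?_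
  ring

theorem alt1_ST {e e1 a b Δ r τ D1 : ℝ} (he : 0 < e) (ha : 0 < a) (hb : 0 < b) (hΔ : 0 < Δ)
    (hr : 0 < r) (h1 : e ≤ 4 * e1) (h2 : e1 < 2 * (τ * Δ / r) * b) (h3 : e ≤ a * D1) :
    e ^ 2 / (Δ * a * b) ≤ 8 * τ * D1 / r := by
  have h4 : e ≤ 8 * (τ * Δ / r) * b := by linarith
  have h5 : e * e ≤ (8 * (τ * Δ / r) * b) * (a * D1) :=
    mul_le_mul h4 h3 he.le (he.le.trans h4)
  rw [div_le_iff₀ (by positivity)]
  calc e ^ 2 = e * e := by ring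
    _ ≤ _ := h5
    _ = _ := by field_simp

theorem alt2_ST {e a b Δ sK : ℝ} (he : 0 < e) (ha : 0 < a) (hb : 0 < b) (hΔ : 0 < Δ)
    (h : e / a / 4 < 8 * sK * Δ * b / e) : e ^ 2 / (Δ * a * b) ≤ 32 * sK := by
  rw [div_div, div_lt_div_iff₀ (by positivity) he] at h
  rw [div_le_iff₀ (by positivity)]
  nlinarith

theorem low_ST {e e1 a b N : ℝ} (he : 0 < e) (ha : 0 < a) (h1 : e ≤ 4 * e1)
    (h2 : e / a * e1 ^ 2 ≤ 8 * b * N) : e ^ 3 ≤ 128 * a * b * N := by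
  have h3 : e ^ 2 ≤ 16 * e1 ^ 2 := by nlinarith
  rw [div_mul_eq_mul_div, div_le_iff₀ ha] at h2
  nlinarith [mul_le_mul_of_nonneg_left h3 he.le]

theorem alt3_ST {e a b Δ r τ sB K N H : ℝ} (he : 0 < e) (ha : 0 < a) (hb : 0 < b) (hΔ : 0 < Δ)
    (hr : 0 < r) (hτ : 0 < τ) (hs : 0 < sB) (hK : 0 < K) (h1 : e ^ 3 ≤ 128 * a * b * N)
    (h2 : N ^ 2 ≤ 160 * a * r * K * H) (h3 : H ≤ N * (8 * sB * Δ * b / e) * (τ * Δ / r)) :
    (e ^ 2 / (Δ * a * b)) ^ 2 ≤ 2 ^ 18 * K * τ * sB := by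
  have hN : 0 < N := by
    have : 0 < 128 * a * b * N := lt_of_lt_of_le (by positivity) h1
    exact (mul_pos_iff_of_pos_left (by positivity)).1 this
  have h4 : N * N ≤ N * (1280 * K * τ * sB * Δ ^ 2 * a * b / e) :=
    calc N * N = N ^ 2 := by ring
      _ ≤ 160 * a * r * K * H := h2
      _ ≤ 160 * a * r * K * (N * (8 * sB * Δ * b / e) * (τ * Δ / r)) :=
        mul_le_mul_of_nonneg_left h3 (by positivity)
      _ = _ := by field_simp; ring
  have h5 := le_of_mul_le_mul_left h4 hN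
  rw [le_div_iff₀ he] at h5
  rw [div_pow, div_le_iff₀ (by positivity)]
  calc (e ^ 2) ^ 2 = e ^ 3 * e := by ring
    _ ≤ 128 * a * b * N * e := mul_le_mul_of_nonneg_right h1 he.le
    _ = 128 * a * b * (N * e) := by ring
    _ ≤ 128 * a * b * (1280 * K * τ * sB * Δ ^ 2 * a * b) :=
      mul_le_mul_of_nonneg_left h5 (by positivity)
    _ = 163840 * (K * τ * sB * (Δ * a * b) ^ 2) := by ring
    _ ≤ 2 ^ 18 * (K * τ * sB * (Δ * a * b) ^ 2) :=
      mul_le_mul_of_nonneg_right (by norm_num) (by positivity)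
    _ = _ := by ring

theorem alt4_ST {e a b Δ r τ sK K N H D1 D2 : ℝ} (he : 0 < e) (ha : 0 < a) (hb : 0 < b)
    (hΔ : 0 < Δ) (hr : 0 < r) (hτ : 0 < τ) (hs : 0 < sK) (hK : 0 < K) (hD1 : 0 < D1)
    (hD2 : K ≤ D2) (h1 : e ^ 3 ≤ 128 * a * b * N) (h2 : N ^ 2 ≤ 160 * a * r * K * H)
    (h3 : H ≤ e * (2 * (D2 / K) + 1) * D1 * (8 * sK * Δ * b / e) * (τ * Δ / r)) :
    (e ^ 2 / (Δ * a * b)) ^ 3 ≤ 2 ^ 27 * (D1 * D2 / Δ) * τ * sK := by
  have hD : 0 < D2 := hK.trans_le hD2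
  have h4 : 2 * (D2 / K) + 1 ≤ 3 * (D2 / K) := by
    have : 1 ≤ D2 / K := (one_le_div hK).2 hD2
    linarith
  have h5 : H ≤ e * (3 * (D2 / K)) * D1 * (8 * sK * Δ * b / e) * (τ * Δ / r) :=
    h3.trans (by gcongr)
  have h6 : N ^ 2 ≤ 3840 * a * b * D1 * D2 * sK * τ * Δ ^ 2 :=
    calc N ^ 2 ≤ 160 * a * r * K * H := h2
      _ ≤ 160 * a * r * K * (e * (3 * (D2 / K)) * D1 * (8 * sK * Δ * b / e) * (τ * Δ / r)) :=
        mul_le_mul_of_nonneg_left h5 (by positivity)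
      _ = _ := by field_simp; ring
  rw [div_pow, div_le_iff₀ (by positivity)]
  calc (e ^ 2) ^ 3 = (e ^ 3) ^ 2 := by ring
    _ ≤ (128 * a * b * N) ^ 2 := pow_le_pow_left₀ (by positivity) h1 2
    _ = (128 * a * b) ^ 2 * N ^ 2 := by ring
    _ ≤ (128 * a * b) ^ 2 * (3840 * a * b * D1 * D2 * sK * τ * Δ ^ 2) :=
      mul_le_mul_of_nonneg_left h6 (by positivity)
    _ = 62914560 * ((D1 * D2 / Δ) * τ * sK * (Δ * a * b) ^ 3) := by field_simp; ring
    _ ≤ 2 ^ 27 * ((D1 * D2 / Δ) * τ * sK * (Δ * a * b) ^ 3) :=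
      mul_le_mul_of_nonneg_right (by norm_num) (by positivity)
    _ = _ := by ring

theorem split_ST (F : Gr) (P : Finset ((ℕ × ℕ) × (ℕ × ℕ))) (ρ σ ρ0 : ℝ) :
    ((pairs F P ρ σ).card : ℝ) ≤ (pairsC F P ρ σ ρ0).card + (pairsF F P ρ σ ρ0).card := by
  have h : pairs F P ρ σ ⊆ pairsC F P ρ σ ρ0 ∪ pairsF F P ρ σ ρ0 := by
    intro z hz
    rw [mem_union, pairsC, pairsF, mem_filter, mem_filter]
    rcases le_or_gt (dd z.1.1.2 z.2.1.2) ρ0 with h | h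
    · exact Or.inl ⟨hz, h⟩
    · exact Or.inr ⟨hz, h⟩
  exact_mod_cast (card_le_card h).trans (card_union_le _ _)

theorem st_pf (h1 : S_Prune) (h2 : S_Path) (h3 : S_Key) (h4 : S_Close) (h5 : S_Far) : S_ST := by
  intro F X Y Δ r l τ D1 D2 sK sB K hΔ hR hH hI hK hr hl hτ hD1 hD2 hsK hsB dR dC hKl hdm hball
    c1 c2
  have hΔ0 : 0 < Δ := by linarith
  have hr0 : 0 < r := by linarith
  have hK0 : (0 : ℝ) < K := by exact_mod_cast hK
  have hD20 : 0 < D2 := hK0.trans_le hD2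
  rcases F.eq_empty_or_nonempty with rfl | ⟨e0, he0⟩
  · left
    simp only [mu, card_empty, Nat.cast_zero]
    rw [zero_pow two_ne_zero, zero_div]
    positivity
  have he : (0 : ℝ) < F.card := by exact_mod_cast card_pos.2 ⟨e0, he0⟩
  have ha : (0 : ℝ) < X.card := by exact_mod_cast card_pos.2 ⟨_, (hI e0 he0).1⟩
  have hb : (0 : ℝ) < Y.card := by exact_mod_cast card_pos.2 ⟨_, (hI e0 he0).2⟩
  have hX : ∀ e ∈ F, e.1 ∈ X := fun e he => (hI e he).1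
  have hm1 : 0 < 8 * sK * Δ * Y.card / F.card := by positivity
  have hm2 : 0 < 8 * sB * Δ * Y.card / F.card := by positivity
  have hq : 0 < τ * Δ / r := by positivity
  obtain ⟨F1, hF, hc, hp⟩ := h1 F X (2 * (r / K)) (Δ / l) _ _ hX hm1 hm2
    (by rw [div_mul_cancel₀ _ he.ne']; linarith) (by rw [div_mul_cancel₀ _ he.ne']; linarith)
  unfold mu
  by_cases a2 : 8 * sK * Δ * Y.card / F.card ≤ (F.card : ℝ) / X.card / 4
  swap
  · exact Or.inr (Or.inl (alt2_ST he ha hb hΔ0 (not_le.1 a2)))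
  by_cases a1 : 2 * (τ * Δ / r) * Y.card ≤ F1.card
  swap
  · exact Or.inl (alt1_ST he ha hb hΔ0 hr0 hc (not_le.1 a1) (card_le_mul_DegR hX dR))
  have p2 := h2 F F1 Y l (2 * (r / K)) _ _ ((F.card : ℝ) / X.card) hF
    (fun e he => (hI e (hF he)).2) hball (fun e he => ⟨(hp e he).1, (hp e he).2.1⟩) a2
    (by positivity) a1
  have pN := low_ST he ha hc p2
  have p3 := h3 F F1 X Δ r l (2 * (r / K)) D2 K hH hF hX hK hr hl hD20 dC hKl hdm
  have ps := split_ST F (paths F F1 l (2 * (r / K))) (r / K) (D2 / K) (Δ / l)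
  have hρ : Δ ≤ 2 * (r / K) * l := by
    have : Δ ≤ r / K * l := by
      rw [div_mul_eq_mul_div, le_div_iff₀ hK0]; linarith
    have h0 : 0 ≤ r / K * l := by positivity
    linarith
  have p4 := h4 F F1 Δ l (2 * (r / K)) _ _ (r / K) (D2 / K) hR hF hl (by positivity) hρ hq.le
    hm2.le hball fun e he => (hp e he).2.2
  have p5 := h5 F F1 Δ l (2 * (r / K)) _ _ (r / K) (D2 / K) D1 hR hF hl (by positivity) hq.le
    hm1.le dR hball fun e he => (hp e he).2.1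
  have hw : (0 : ℝ) ≤ 80 * X.card * r * K := by positivity
  have p6 := p3.trans (mul_le_mul_of_nonneg_left ps hw)
  right; right
  rcases le_total ((pairsF F (paths F F1 l (2 * (r / K))) (r / K) (D2 / K) (Δ / l)).card : ℝ)
    (pairsC F (paths F F1 l (2 * (r / K))) (r / K) (D2 / K) (Δ / l)).card with h | h
  · refine Or.inl (alt3_ST he ha hb hΔ0 hr0 hτ hsB hK0 pN ?_ p4)
    have := mul_le_mul_of_nonneg_left h hw
    linarith
  · refine Or.inr (alt4_ST he ha hb hΔ0 hr0 hτ hsK hK0 hD1 hD2 pN ?_ p5)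
    have := mul_le_mul_of_nonneg_left h hw
    linarith

/-- cherries whose columns are at distance about `Δ / 2^v` -/
noncomputable def cv_Cher (F : Gr) (Δ : ℝ) (v : ℕ) : Finset ((ℕ × ℕ) × (ℕ × ℕ)) :=
  (F ×ˢ F).filter (fun p => p.1.1 = p.2.1 ∧ (dd p.1.2 p.2.2 + 1) * 2 ^ v ≤ 2 * Δ ∧
    Δ < (dd p.1.2 p.2.2 + 1) * 2 ^ v)

theorem mem_cv_Cher {F : Gr} {Δ : ℝ} {v : ℕ} {p : (ℕ × ℕ) × (ℕ × ℕ)} :
    p ∈ cv_Cher F Δ v ↔ p.1 ∈ F ∧ p.2 ∈ F ∧ p.1.1 = p.2.1 ∧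
      (dd p.1.2 p.2.2 + 1) * 2 ^ v ≤ 2 * Δ ∧ Δ < (dd p.1.2 p.2.2 + 1) * 2 ^ v := by
  rw [cv_Cher, mem_filter, mem_product, and_assoc]

theorem rows_Cher {F : Gr} {v y : ℕ} {q : ℝ} (hq : 0 ≤ q)
    (h : ∀ j, ((win F v j y).card : ℝ) ≤ q) (T : Finset ℕ) (hT : ∀ x ∈ T, (x, y) ∈ F)
    (hd : ∀ a ∈ T, ∀ b ∈ T, dd a b < 2 ^ v) : (T.card : ℝ) ≤ 2 * q := by
  rcases T.eq_empty_or_nonempty with rfl | hne
  · simp only [card_empty, Nat.cast_zero]; positivity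
  · have hsub : T ⊆ win F v (T.min' hne / 2 ^ v) y ∪ win F v (T.min' hne / 2 ^ v + 1) y := by
      intro x hx
      have h1 : T.min' hne ≤ x := T.min'_le x hx
      have h2 := hd _ (T.min'_mem hne) x hx
      rw [dd_of_le h1] at h2
      have h3 : x < T.min' hne + 2 ^ v := by
        have : (x : ℝ) < (T.min' hne : ℕ) + 2 ^ v := by linarith
        exact_mod_cast this
      have hp : 0 < 2 ^ v := by positivity
      have h5 : T.min' hne / 2 ^ v ≤ x / 2 ^ v := Nat.div_le_div_right h1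
      have h6 : x / 2 ^ v ≤ T.min' hne / 2 ^ v + 1 := by
        rw [← Nat.add_div_right _ hp]; exact Nat.div_le_div_right h3.le
      simp only [mem_union, mem_win, hT x hx, true_and]
      generalize x / 2 ^ v = A at *
      generalize T.min' hne / 2 ^ v = B at *
      omega
    have h1 := (card_le_card hsub).trans (card_union_le _ _)
    have h2 : (T.card : ℝ) ≤ (win F v (T.min' hne / 2 ^ v) y).card +
        (win F v (T.min' hne / 2 ^ v + 1) y).card := by exact_mod_cast h1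
    linarith [h (T.min' hne / 2 ^ v), h (T.min' hne / 2 ^ v + 1)]

theorem card_cv_Cher {F : Gr} {Δ δ : ℝ} {v : ℕ} {Y : Finset ℕ} (hΔ : 1 ≤ Δ) (hR : RectH F Δ)
    (hY : ∀ e ∈ F, e.2 ∈ Y) (hδ : 0 ≤ δ)
    (hw : (2 : ℝ) ^ v ≤ 2 * Δ → ∀ y j : ℕ, ((win F v j y).card : ℝ) ≤ δ * 2 ^ v) :
    ((cv_Cher F Δ v).card : ℝ) ≤ 8 * δ * Δ * Y.card := by
  have hv : (0 : ℝ) < 2 ^ v := by positivity
  rcases (cv_Cher F Δ v).eq_empty_or_nonempty with he | ⟨p0, hp0⟩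
  · rw [he]; simp only [card_empty, Nat.cast_zero]; positivity
  have h2 : (2 : ℝ) ^ v ≤ 2 * Δ := by
    have h1 := (mem_cv_Cher.1 hp0).2.2.2.1
    have h3 := dd_nonneg p0.1.2 p0.2.2
    nlinarith
  have hw' := hw h2
  have key := card_le_mul_fib (cv_Cher F Δ v) Y (fun p => p.1.2) (8 * δ * Δ)
    (fun p hp => hY _ (mem_cv_Cher.1 hp).1) (fun y _ => ?_)
  · linarith
  set P := (cv_Cher F Δ v).filter (fun p => p.1.2 = y) with hP
  have hmem : ∀ p ∈ P, p ∈ cv_Cher F Δ v ∧ p.1.2 = y := fun p hp => mem_filter.1 hp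
  have hT2 : ((P.image (fun p => p.2.2)).card : ℝ) ≤ 4 * Δ / 2 ^ v := by
    refine card_le_of_diam _ _ (by positivity) fun a ha b hb => ?_
    obtain ⟨p, hp, rfl⟩ := mem_image.1 ha
    obtain ⟨p', hp', rfl⟩ := mem_image.1 hb
    obtain ⟨h1, h1'⟩ := hmem p hp
    obtain ⟨h3, h3'⟩ := hmem p' hp'
    have h4 := (mem_cv_Cher.1 h1).2.2.2.1
    have h5 := (mem_cv_Cher.1 h3).2.2.2.1
    rw [h1'] at h4
    rw [h3'] at h5
    have h6 := dd_tri p.2.2 y p'.2.2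
    rw [dd_comm p.2.2 y] at h6
    rw [le_div_iff₀ hv]
    nlinarith
  have key2 := card_le_mul_fib P (P.image (fun p => p.2.2)) (fun p => p.2.2) (2 * (δ * 2 ^ v))
    (fun p hp => mem_image_of_mem _ hp) (fun y' _ => ?_)
  · calc (P.card : ℝ) ≤ (P.image (fun p => p.2.2)).card * (2 * (δ * 2 ^ v)) := key2
      _ ≤ 4 * Δ / 2 ^ v * (2 * (δ * 2 ^ v)) :=
        mul_le_mul_of_nonneg_right hT2 (by positivity)
      _ = 8 * δ * Δ := by field_simp; ring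
  set Q := P.filter (fun p => p.2.2 = y') with hQ
  have hmemQ : ∀ p ∈ Q, (p.1.1, y) ∈ F ∧ (p.1.1, y') ∈ F ∧ p = ((p.1.1, y), (p.1.1, y')) ∧
      Δ < (dd y y' + 1) * 2 ^ v := by
    intro p hp
    obtain ⟨h1, h3⟩ := mem_filter.1 hp
    obtain ⟨h4, h5⟩ := hmem p h1
    obtain ⟨h6, h7, h8, -, h9⟩ := mem_cv_Cher.1 h4
    obtain ⟨⟨a, b⟩, ⟨c, d⟩⟩ := p
    simp only at h3 h5 h6 h7 h8 h9 ⊢
    subst h3 h5 h8
    exact ⟨h6, h7, rfl, h9⟩
  have hinj : (Q.image (fun p => p.1.1)).card = Q.card := by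
    refine card_image_of_injOn fun a ha b hb hab => ?_
    have h1 := (hmemQ a ha).2.2.1
    have h3 := (hmemQ b hb).2.2.1
    have hab' : a.1.1 = b.1.1 := hab
    rw [h1, h3, hab']
  rw [← hinj]
  refine rows_Cher (by positivity) (hw' y) _ (fun x hx => ?_) (fun a ha b hb => ?_)
  · obtain ⟨p, hp, rfl⟩ := mem_image.1 hx
    exact (hmemQ p hp).1
  · obtain ⟨p, hp, rfl⟩ := mem_image.1 ha
    obtain ⟨p', hp', rfl⟩ := mem_image.1 hb
    obtain ⟨h1, h3, -, h4⟩ := hmemQ p hp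
    obtain ⟨h5, h6, -, -⟩ := hmemQ p' hp'
    have h7 := hR _ _ _ _ h1 h3 h5 h6
    have h8 : 0 < dd y y' + 1 := by linarith [dd_nonneg y y']
    by_contra hc
    push Not at hc
    nlinarith

theorem sub_Cher {F : Gr} {Δ : ℝ} {u n : ℕ} (hΔ : 1 ≤ Δ) (hn : 2 * Δ < 2 ^ n) :
    cherU F Δ u ⊆ (Ioc u n).biUnion (cv_Cher F Δ) := by
  intro p hp
  obtain ⟨h1, h2, h3, h4⟩ := mem_cherU.1 hp
  have hd := dd_nonneg p.1.2 p.2.2
  have hnn : Δ < (dd p.1.2 p.2.2 + 1) * 2 ^ n := by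
    have : (0 : ℝ) < 2 ^ n := by positivity
    nlinarith
  have hex : ∃ v : ℕ, Δ < (dd p.1.2 p.2.2 + 1) * 2 ^ v := ⟨n, hnn⟩
  have hs := Nat.find_spec hex
  have hu : u < Nat.find hex := by
    by_contra hc
    push Not at hc
    have h5 : (2 : ℝ) ^ Nat.find hex ≤ 2 ^ u := pow_le_pow_right₀ one_le_two hc
    have := mul_le_mul_of_nonneg_left h5 (show 0 ≤ dd p.1.2 p.2.2 + 1 by linarith)
    linarith
  refine mem_biUnion.2 ⟨Nat.find hex, mem_Ioc.2 ⟨hu, Nat.find_min' hex hnn⟩,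
    mem_cv_Cher.2 ⟨h1, h2, h3, ?_, hs⟩⟩
  have hm := Nat.find_min hex (m := Nat.find hex - 1) (by omega)
  push Not at hm
  have e : Nat.find hex = (Nat.find hex - 1) + 1 := by omega
  rw [e, pow_succ]
  linarith

theorem cher_pf : S_Cher := by
  intro F Δ s u δ Y hΔ hR hY hδ hw hs
  obtain ⟨n, hn⟩ := pow_unbounded_of_one_lt (2 * Δ) (one_lt_two (α := ℝ))
  have h1 := (card_le_card (sub_Cher (F := F) (u := u) hΔ hn)).trans card_biUnion_le
  have h2 : ((cherU F Δ u).card : ℝ) ≤ ∑ v ∈ Ioc u n, ((cv_Cher F Δ v).card : ℝ) := by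
    exact_mod_cast h1
  have h3 : ∑ v ∈ Ioc u n, ((cv_Cher F Δ v).card : ℝ) ≤ ∑ v ∈ Ioc u n, δ v * (8 * Δ * Y.card) := by
    refine sum_le_sum fun v hv => ?_
    have := card_cv_Cher hΔ hR hY (hδ v) (fun h2 y j => hw y v j (mem_Ioc.1 hv).1 h2)
    linarith
  rw [← sum_mul] at h3
  have h4 := mul_le_mul_of_nonneg_right (hs n) (show (0 : ℝ) ≤ 8 * Δ * Y.card by positivity)
  linarith

theorem sub_Del {F : Gr} {Δ ρ : ℝ} {u : ℕ} (hR : RectH F Δ)
    (h : u = 0 ∨ (ρ * 2 ^ (u + 1) ≤ Δ ∧ (2 : ℝ) ^ u ≤ Δ)) : cherD F ρ ⊆ cherU F Δ u := by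
  rintro ⟨⟨x, y⟩, ⟨x', y'⟩⟩ hp
  obtain ⟨h1, h2, h3, h4⟩ := mem_cherD.1 hp
  simp only at h3 h4
  subst h3
  refine mem_cherU.2 ⟨h1, h2, rfl, ?_⟩
  simp only
  rcases h with rfl | ⟨h5, h6⟩
  · simpa [dd_self] using hR x x y y' h1 h2 h1 h2
  · rcases dd_eq_zero_or y y' with h0 | h0
    · rw [h0]; simpa using h6
    · have hp : (0 : ℝ) < 2 ^ u := by positivity
      rw [pow_succ] at h5
      nlinarith

theorem up_Del {F : Gr} {v0 v : ℕ} {q : ℝ} (hv : v0 ≤ v)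
    (h : ∀ η j, ((win F v0 j η).card : ℝ) ≤ q) (η j : ℕ) :
    ((win F v j η).card : ℝ) ≤ 2 ^ (v - v0) * q := by
  have h1 := card_le_mul_fib (win F v j η) (range (2 ^ (v - v0)))
    (fun x => x / 2 ^ v0 % 2 ^ (v - v0)) q (fun a _ => mem_range.2 (Nat.mod_lt _ (by positivity)))
    fun b _ => le_trans (Nat.cast_le.2 (card_le_card fun x hx => ?_)) (h η (2 ^ (v - v0) * j + b))
  · simpa using h1
  · obtain ⟨h2, h3⟩ := mem_filter.1 hx
    obtain ⟨h4, h5⟩ := mem_win.1 h2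
    refine mem_win.2 ⟨h4, ?_⟩
    rw [← h3, ← h5, show 2 ^ v = 2 ^ v0 * 2 ^ (v - v0) by rw [← pow_add]; congr 1; omega,
      ← Nat.div_div_eq_div_mul, Nat.div_add_mod]

theorem down_Del {F : Gr} {v0 v : ℕ} {q : ℝ} (hv : v ≤ v0)
    (h : ∀ η j, ((win F v0 j η).card : ℝ) ≤ q) (η j : ℕ) : ((win F v j η).card : ℝ) ≤ q := by
  refine le_trans (Nat.cast_le.2 (card_le_card fun x hx => ?_)) (h η (j / 2 ^ (v0 - v)))
  obtain ⟨h4, h5⟩ := mem_win.1 hx
  refine mem_win.2 ⟨h4, ?_⟩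
  rw [← h5, Nat.div_div_eq_div_mul, ← pow_add]; congr 2; omega

theorem two_Del (v0 i : ℕ) : ∑ v ∈ Ioc (v0 - i) v0, (2 : ℝ) ^ (v0 - v) ≤ 2 ^ i := by
  rw [← sum_image (s := Ioc (v0 - i) v0) (g := fun v => v0 - v) (f := fun j => (2 : ℝ) ^ j)]
  · refine (sum_le_sum_of_subset_of_nonneg (t := range i) (fun j hj => ?_)
      fun _ _ _ => by positivity).trans ?_
    · obtain ⟨v, hv, rfl⟩ := mem_image.1 hj
      rw [mem_Ioc] at hv
      rw [mem_range]; omega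
    · rw [geom_sum_eq (by norm_num)]; norm_num
  · intro a ha b hb hab
    simp only [coe_Ioc, Set.mem_Ioc] at ha hb
    simp only at hab
    omega

theorem del_pf (hC : S_Cher) : S_Del := by
  intro F Δ τ0 Y w v0 G k hΔ hR hY hτ hw hk hv0 hL hwin
  have hK1 : (1 : ℝ) ≤ 2 ^ k := one_le_pow₀ (by norm_num)
  have hK4 : ((2 : ℝ) ^ k) ^ 4 ≤ 2 ^ G := by
    rw [← pow_mul]; exact pow_le_pow_right₀ (by norm_num) (by omega)
  set K : ℝ := 2 ^ k with hK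
  have hK0 : 0 < K := by linarith
  have hb := b1_pos
  let δ : ℕ → ℝ := fun v =>
    if v ≤ v0 then τ0 * 2 ^ (v0 - v) / 2 ^ G else τ0 * b1 ^ (v - v0 - 1) / K ^ 2
  have hδ0 : ∀ v, 0 ≤ δ v := fun v => by
    simp only [δ]; split_ifs <;> positivity
  have hδ : ∀ y v j : ℕ, (2 : ℝ) ^ v ≤ 2 * Δ → ((win F v j y).card : ℝ) ≤ δ v * 2 ^ v := by
    intro y v j hv
    simp only [δ]
    split_ifs with h
    · refine (down_Del h hwin y j).trans_eq ?_
      rw [show (2 : ℝ) ^ v0 = 2 ^ (v0 - v) * 2 ^ v by rw [← pow_add]; congr 1; omega]; ring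
    · have h1 := up_Del (by omega : v0 ≤ v) hwin y j
      have h2 := (hL y v j (by omega) hv).trans (mul_le_mul_of_nonneg_right
        (pow_le_pow_of_le_one bb_pos.le bb_le_one (by omega : v - v0 - 1 ≤ v - w - 1))
        (by positivity))
      have e : (2 : ℝ) ^ (v - v0) * (τ0 * 2 ^ v0 / 2 ^ G) = τ0 / 2 ^ G * 2 ^ v := by
        rw [show (2 : ℝ) ^ v = 2 ^ (v - v0) * 2 ^ v0 by rw [← pow_add]; congr 1; omega]; ring
      rw [e] at h1
      refine abs_le_of_sq_le_sq' ?_ (by positivity) |>.2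
      have h3 := mul_le_mul h1 h2 (Nat.cast_nonneg _) (by positivity)
      have h4 : τ0 / 2 ^ G ≤ τ0 ^ 2 / K ^ 4 :=
        div_le_div₀ (by positivity) (by nlinarith) (by positivity) hK4
      have h5 : bb ^ (v - v0 - 1) = (b1 ^ (v - v0 - 1)) ^ 2 := by
        rw [← b1_sq, ← pow_mul, ← pow_mul, mul_comm]
      calc ((win F v j y).card : ℝ) ^ 2 = (win F v j y).card * (win F v j y).card := sq _
        _ ≤ τ0 / 2 ^ G * 2 ^ v * (bb ^ (v - v0 - 1) * 2 ^ v) := h3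
        _ = τ0 / 2 ^ G * ((b1 ^ (v - v0 - 1)) ^ 2 * (2 ^ v) ^ 2) := by rw [h5]; ring
        _ ≤ τ0 ^ 2 / K ^ 4 * ((b1 ^ (v - v0 - 1)) ^ 2 * (2 ^ v) ^ 2) :=
          mul_le_mul_of_nonneg_right h4 (by positivity)
        _ = _ := by field_simp
  have hsum : ∀ i n, ∑ v ∈ Ioc (v0 - i) n, δ v ≤ τ0 * 2 ^ i / 2 ^ G + 1024 * τ0 / K ^ 2 := by
    intro i n
    have h1 : Ioc (v0 - i) n ⊆ Ioc (v0 - i) v0 ∪ Ioc v0 n := fun v hv => by
      simp only [mem_union, mem_Ioc] at hv ⊢; omega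
    refine (sum_le_sum_of_subset_of_nonneg h1 fun _ _ _ => hδ0 _).trans ?_
    rw [sum_union (by rw [disjoint_left]; intro v h1 h2; simp only [mem_Ioc] at h1 h2; omega)]
    refine add_le_add ?_ ?_
    · rw [sum_congr rfl (g := fun v => τ0 / 2 ^ G * 2 ^ (v0 - v)) fun v hv => by
        simp only [δ, if_pos (mem_Ioc.1 hv).2]; ring, ← mul_sum]
      refine (mul_le_mul_of_nonneg_left (two_Del v0 i) (by positivity)).trans_eq (by ring)
    · rw [sum_congr rfl (g := fun v => τ0 / K ^ 2 * b1 ^ (v - v0 - 1)) fun v hv => by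
        simp only [δ, if_neg (not_le.2 (mem_Ioc.1 hv).1)]; ring, ← mul_sum]
      refine (mul_le_mul_of_nonneg_left (geom_shift b1 hb.le b1_le_th v0 n)
        (by positivity)).trans_eq (by ring)
  have main : ∀ (i : ℕ) (ρ s : ℝ), 1 ≤ i → (∀ u, v0 = u + i → ρ * 2 ^ (u + 1) ≤ Δ) →
      8 * (τ0 * 2 ^ i / 2 ^ G + 1024 * τ0 / K ^ 2) ≤ s →
      ((cherD F ρ).card : ℝ) ≤ s * Δ * Y.card := by
    intro i ρ s hi hρ hs
    have h1 := hC F Δ _ (v0 - i) δ Y hΔ hR hY hδ0 (fun y v j _ hv => hδ y v j hv) (hsum i)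
    have h2 : cherD F ρ ⊆ cherU F Δ (v0 - i) := by
      refine sub_Del hR ?_
      rcases Nat.eq_zero_or_pos (v0 - i) with h | h
      · exact Or.inl h
      · refine Or.inr ⟨hρ _ (by omega), ?_⟩
        have : (2 : ℝ) ^ (v0 - i + 1) ≤ 2 ^ v0 := pow_le_pow_right₀ (by norm_num) (by omega)
        rw [pow_succ] at this
        linarith
    refine (Nat.cast_le.2 (card_le_card h2)).trans (h1.trans ?_)
    gcongr
  have hG : (2 : ℝ) ^ (G + 2 - k) * K = 4 * 2 ^ G := by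
    rw [hK, ← pow_add, show G + 2 - k + k = G + 2 by omega, pow_add]; ring
  constructor
  · refine main (G + 2 - k) _ _ (by omega) (fun u hu => le_of_eq ?_) ?_
    · rw [hu, pow_add 2 u (G + 2 - k), pow_succ]
      have : (2 : ℝ) ^ G = 2 ^ (G + 2 - k) * K / 4 := by rw [hG]; ring
      rw [this]; field_simp; ring
    · have h1 : τ0 * 2 ^ (G + 2 - k) / 2 ^ G = 4 * τ0 / K := by
        rw [div_eq_div_iff (by positivity) hK0.ne', mul_assoc, hG]; ring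
      have h2 : 1024 * τ0 / K ^ 2 ≤ 1024 * τ0 / K :=
        div_le_div_of_nonneg_left (by positivity) hK0 (by nlinarith)
      have h3 : 0 ≤ τ0 / K := by positivity
      rw [h1]
      simp only [mul_div_assoc] at h2 ⊢
      linarith
  · refine main 1 _ _ le_rfl (fun u hu => le_of_eq ?_) ?_
    · rw [hu]; field_simp
    · have h1 : τ0 / 2 ^ G ≤ τ0 / K ^ 2 := div_le_div_of_nonneg_left (by positivity)
        (by positivity) ((pow_le_pow_right₀ hK1 (by norm_num)).trans hK4)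
      have h3 : 0 ≤ τ0 / K ^ 2 := by positivity
      rw [mul_comm τ0]
      simp only [mul_div_assoc] at h1 ⊢
      linarith

theorem heavy_WS (E : Gr) (D κ : ℝ) (v j : ℕ) (hD : DegR E D) (_hD0 : 0 < D) (Hv : Finset ℕ)
    (hH : ∀ y ∈ Hv, κ * 2 ^ v ≤ ((win E v j y).card : ℝ)) : (Hv.card : ℝ) * κ ≤ D := by
  let G : Gr := E.filter (fun e => e.1 / 2 ^ v = j ∧ e.2 ∈ Hv)
  have hp : 0 < 2 ^ v := by positivity
  have h1 : (G.card : ℝ) ≤ ((Ico (j * 2 ^ v) (j * 2 ^ v + 2 ^ v)).card : ℝ) * D := by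
    refine card_le_mul_DegR (fun e he => ?_) (hD.mono (filter_subset _ _))
    have h := (mem_filter.1 he).2.1
    have h2 := Nat.div_add_mod e.1 (2 ^ v)
    have h3 := Nat.mod_lt e.1 hp
    rw [h, mul_comm] at h2
    rw [mem_Ico]
    omega
  rw [Nat.card_Ico, Nat.add_sub_cancel_left] at h1
  have h2 := card_eq_sum_colS G Hv (fun e he => (mem_filter.1 he).2.2)
  have h3 : ∀ y ∈ Hv, colS G y = win E v j y := by
    intro y hy
    ext x
    rw [mem_colS, mem_win, mem_filter]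
    simp only [hy, and_true]
  rw [sum_congr rfl fun y hy => congrArg card (h3 y hy)] at h2
  have h4 : (Hv.card : ℝ) * (κ * 2 ^ v) ≤ G.card := by
    rw [h2]
    push_cast
    calc (Hv.card : ℝ) * (κ * 2 ^ v) = ∑ _y ∈ Hv, κ * 2 ^ v := by simp
      _ ≤ _ := sum_le_sum hH
  have h5 : (0 : ℝ) < 2 ^ v := by positivity
  push_cast at h1
  have h6 : (Hv.card : ℝ) * κ * 2 ^ v ≤ D * 2 ^ v := by nlinarith
  exact le_of_mul_le_mul_right h6 h5

theorem ws_pf : S_WS := by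
  intro E F Δ D r0 w t c hΔ hR hD hD0 hr hF hG η j
  have hb : 0 < bb ^ t := pow_pos bb_pos t
  let V := win F (w + t) j η
  let Hv : Finset ℕ := (E.image Prod.snd).filter
    (fun y => bb ^ t * 2 ^ (w + t) ≤ ((win E (w + t) j y).card : ℝ))
  have h1 : (Hv.card : ℝ) * bb ^ t ≤ D :=
    heavy_WS E D _ (w + t) j hD hD0 Hv fun y hy => (mem_filter.1 hy).2
  let P : Gr := E.filter (fun e => e.1 ∈ V ∧ e.2 ∈ supp E e.1 η (c e.1) (w + t) (bb ^ t))
  have h2 := card_eq_sum_rowS P V (fun e he => (mem_filter.1 he).2.1)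
  have h3 : ∀ x ∈ V, rowS P x = supp E x η (c x) (w + t) (bb ^ t) := by
    intro x hx
    ext y
    rw [mem_rowS, mem_filter]
    exact ⟨fun h => h.2.2, fun h => ⟨(mem_supp.1 h).1, hx, h⟩⟩
  rw [sum_congr rfl fun x hx => congrArg card (h3 x hx)] at h2
  have h4 : (V.card : ℝ) * (bb ^ t * D / 2 ^ 19) ≤ P.card := by
    rw [h2]
    push_cast
    calc (V.card : ℝ) * (bb ^ t * D / 2 ^ 19) = ∑ _x ∈ V, bb ^ t * D / 2 ^ 19 := by simp
      _ ≤ _ := sum_le_sum fun x hx => (hG _ (mem_win.1 hx).1).1.2.2.1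
  have hq : 0 ≤ Δ / r0 := by positivity
  have h5 : (P.card : ℝ) ≤ Hv.card * (Δ / r0) := by
    refine card_le_mul_fib P Hv Prod.snd _ (fun e he => ?_) fun y _ => ?_
    · obtain ⟨he1, he2, he3⟩ := mem_filter.1 he
      refine mem_filter.2 ⟨mem_image_of_mem _ he1, ?_⟩
      have := (mem_supp.1 he3).2.2
      rwa [(mem_win.1 he2).2] at this
    · rcases (P.filter (fun a => a.2 = y)).eq_empty_or_nonempty with h | ⟨e₀, he₀⟩
      · rw [h]; simpa using hq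
      obtain ⟨h0, rfl⟩ := mem_filter.1 he₀
      obtain ⟨-, h01, h02⟩ := mem_filter.1 h0
      have hd : r0 ≤ dd e₀.2 η :=
        ((hG _ (mem_win.1 h01).1).2).trans (mem_supp.1 h02).2.1
      have h6 := hR.codeg (by linarith) e₀.2 η (colS P e₀.2) fun x hx => by
        have hx' := mem_filter.1 (mem_colS.1 hx)
        exact ⟨hx'.1, hF (mem_win.1 hx'.2.1).1⟩
      have h7 : (colS P e₀.2).card = (P.filter (fun a => a.2 = e₀.2)).card := by
        rw [colS, card_image_of_injOn]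
        intro a ha b hb hab
        simp only [coe_filter, Set.mem_ofPred_eq] at ha hb
        exact Prod.ext hab (ha.2.trans hb.2.symm)
      rw [← h7]
      refine h6.trans ?_
      exact div_le_div_of_nonneg_left (by linarith) hr (by linarith)
  have h6 : (V.card : ℝ) * (bb ^ t * D / 2 ^ 19) * bb ^ t ≤ D * (Δ / r0) := by
    calc _ ≤ Hv.card * (Δ / r0) * bb ^ t := mul_le_mul_of_nonneg_right (h4.trans h5) hb.le
      _ = Hv.card * bb ^ t * (Δ / r0) := by ring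
      _ ≤ _ := mul_le_mul_of_nonneg_right h1 hq
  have h7 : (V.card : ℝ) * (bb ^ t * bb ^ t) ≤ 2 ^ 19 * (Δ / r0) := by
    have h8 : D * ((V.card : ℝ) * (bb ^ t * bb ^ t)) ≤ D * (2 ^ 19 * (Δ / r0)) := by
      calc _ = 2 ^ 19 * ((V.card : ℝ) * (bb ^ t * D / 2 ^ 19) * bb ^ t) := by ring
        _ ≤ 2 ^ 19 * (D * (Δ / r0)) := mul_le_mul_of_nonneg_left h6 (by positivity)
        _ = _ := by ring
    exact le_of_mul_le_mul_left h8 hD0
  have h9 : 2 ^ 19 / bb ^ (2 * t) * Δ / r0 = 2 ^ 19 * (Δ / r0) / (bb ^ t * bb ^ t) := by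
    rw [two_mul, pow_add]
    field_simp
  rw [h9, le_div_iff₀ (mul_pos hb hb)]
  exact h7

theorem num_High (t g α p : ℕ) (h : 4 * p + 400 ≤ α) :
    (2 : ℝ) ^ (85 + p) * (1 / bb ^ t) ^ 4 / 2 ^ ((g + t + α + 2) / 4) ≤ (bb ^ (g + 1 + t)) ^ 3 := by
  have hb := bb_pos
  set k := (g + t + α + 2) / 4 with hk
  have h1 : (2 : ℝ) ^ (85 + p) ≤ 2 ^ k * bb ^ (7 * t + 3 * g + 3) := by
    refine le_of_pow_le_pow_left₀ (n := 4) (by norm_num) (by positivity) ?_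
    have h2 : (1 / 2 : ℝ) ^ (t + g + 1) ≤ (bb ^ (7 * t + 3 * g + 3)) ^ 4 := by
      refine (pow_le_pow_left₀ (by norm_num) half_le_bb28 _).trans ?_
      rw [← pow_mul, ← pow_mul]
      exact pow_le_pow_of_le_one hb.le bb_le_one (by omega)
    have h3 : (2 : ℝ) ^ ((85 + p) * 4) * 2 ^ (t + g + 1) ≤ 2 ^ (k * 4) := by
      rw [← pow_add]
      exact pow_le_pow_right₀ one_le_two (by omega)
    rw [mul_pow, ← pow_mul, ← pow_mul 2 k]
    refine le_trans ?_ (mul_le_mul_of_nonneg_left h2 (by positivity))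
    rw [one_div, inv_pow, ← div_eq_mul_inv, le_div_iff₀ (by positivity)]
    exact h3
  rw [div_le_iff₀ (by positivity), one_div, inv_pow, ← div_eq_mul_inv, div_le_iff₀ (by positivity)]
  refine h1.trans_eq ?_
  ring

theorem fin_High {μ y B K P ζ : ℝ} (hy0 : 0 < y) (hy : y ≤ 1) (hB : 1 ≤ B) (hK : 0 < K)
    (hP : 1 ≤ P) (hζ : ζ = 2 ^ 85 * P * B ^ 4 / K) (h : ζ ≤ y ^ 3)
    (hμ : μ ≤ 2 ^ 26 * P * B ^ 3 / K ∨ μ ≤ 2 ^ 40 * B ^ 2 / K ∨ μ ^ 2 ≤ 2 ^ 76 * B ^ 4 / K ∨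
      μ ^ 3 ≤ ζ) : μ ≤ y := by
  have h1 : y ^ 3 ≤ y := pow_le_of_le_one hy0.le hy (by norm_num)
  have h2 : y ^ 3 ≤ y ^ 2 := pow_le_pow_of_le_one hy0.le hy (by norm_num)
  have b3 : B ^ 3 ≤ B ^ 4 := pow_le_pow_right₀ hB (by norm_num)
  have b2 : B ^ 2 ≤ B ^ 4 := pow_le_pow_right₀ hB (by norm_num)
  have b0 : 0 < B := by linarith
  have b4 : B ^ 4 ≤ P * B ^ 4 := le_mul_of_one_le_left (by positivity) hP
  have b5 : P * B ^ 3 ≤ P * B ^ 4 := mul_le_mul_of_nonneg_left b3 (by linarith)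
  have b6 : 0 < B ^ 4 := by positivity
  rcases hμ with h3 | h3 | h3 | h3
  · refine h3.trans (le_trans ?_ (h.trans h1))
    rw [hζ]
    exact div_le_div_of_nonneg_right (by nlinarith) hK.le
  · refine h3.trans (le_trans ?_ (h.trans h1))
    rw [hζ]
    exact div_le_div_of_nonneg_right (by nlinarith) hK.le
  · refine le_of_pow_le_pow_left₀ (n := 2) (by norm_num) hy0.le
      (h3.trans (le_trans ?_ (h.trans h2)))
    rw [hζ]
    exact div_le_div_of_nonneg_right (by nlinarith) hK.le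
  · exact le_of_pow_le_pow_left₀ (n := 3) (by norm_num) hy0.le (h3.trans h)

theorem high_pf (hW : S_WS) (hD : S_Del) (hS : S_ST) : S_High := by
  intro E F X Y Δ D1 D2 w t g α p c hΔ hR hH hD1 hD2 dR dC hp hα hF hI hG
  have hb := bb_pos
  have hΔ0 : 0 < Δ := by linarith
  rcases F.eq_empty_or_nonempty with rfl | ⟨e, he⟩
  · simp only [card_empty, Nat.cast_zero]
    rw [zero_pow (by norm_num)]
    positivity
  have hz := num_High t g α p hα
  set G := g + t + α + 2 with hGd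
  set k := G / 4 with hk
  set B : ℝ := 1 / bb ^ t with hB
  have hB1 : 1 ≤ B := one_le_one_div (by positivity) (pow_le_one₀ hb.le bb_le_one)
  have hB0 : 0 < B := by linarith
  have hy0 : 0 < bb ^ (g + 1 + t) := by positivity
  have hy1 : bb ^ (g + 1 + t) ≤ 1 := pow_le_one₀ hb.le bb_le_one
  have hP : (1 : ℝ) ≤ 2 ^ p := one_le_pow₀ one_le_two
  have er : (2 : ℝ) ^ G * Δ / 2 ^ (w + t) = 4 * (2 ^ (g + α) * Δ / 2 ^ w) := by
    rw [hGd]; field_simp; ring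
  have hwin : ∀ η j, ((win F (w + t) j η).card : ℝ) ≤ 2 ^ 21 * B ^ 2 * 2 ^ (w + t) / 2 ^ G :=
    fun η j => by
      refine (hW E F Δ D1 (2 ^ (g + α) * Δ / 2 ^ w) w t c hΔ hR dR hD1 (by positivity) hF
        (fun e he => ⟨(hG e he).1, (hG e he).2.1⟩) η j).trans_eq ?_
      rw [hB, hGd]; field_simp; ring
  have hL : Light F Δ w := light_of_good hF fun e he => ⟨t, c e.1, (hG e he).1⟩
  have hg := (hG e he).1
  have hl : (2 : ℝ) ^ (w + t) ≤ 2 * Δ := hg.1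
  have hτ : (1 : ℝ) ≤ 2 ^ 21 * B ^ 2 := by nlinarith
  obtain ⟨c1, c2⟩ := hD F Δ (2 ^ 21 * B ^ 2) Y w (w + t) G k hΔ (hR.mono hF)
    (fun e he => (hI e he).2) hτ (by omega) (by omega) hl hL hwin
  have hKG : (2 : ℝ) ^ k ≤ 2 ^ G := pow_le_pow_right₀ one_le_two (by omega)
  have hK0 : (0 : ℝ) < 2 ^ k := by positivity
  have hlB : (2 : ℝ) ^ (w + t) ≤ B * D2 := by
    have h1 : (0 : ℝ) < (supp E e.1 e.2 (c e.1) (w + t) (bb ^ t)).card :=
      lt_of_lt_of_le (by positivity) hg.2.2.1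
    obtain ⟨y, hy⟩ := card_pos.1 (Nat.cast_pos.1 h1)
    have h2 := (mem_supp.1 hy).2.2
    have h3 : ((win E (w + t) (e.1 / 2 ^ (w + t)) y).card : ℝ) ≤ (colS E y).card := by
      exact_mod_cast card_le_card (filter_subset _ _)
    rw [hB, one_div, le_inv_mul_iff₀ (by positivity)]
    exact h2.trans (h3.trans (dC y))
  have hKD : (2 : ℝ) ^ k ≤ D2 := by
    have h1 : (1 : ℝ) ≤ (win F (w + t) (e.1 / 2 ^ (w + t)) e.2).card := by
      exact_mod_cast card_pos.2 ⟨e.1, mem_win.2 ⟨he, rfl⟩⟩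
    have h2 := h1.trans (hwin _ _)
    rw [le_div_iff₀ (by positivity), one_mul] at h2
    have h3 : (2 : ℝ) ^ k * 2 ^ k ≤ 2 ^ G := by
      rw [← pow_add]; exact pow_le_pow_right₀ one_le_two (by omega)
    have h4 := hz.trans (pow_le_one₀ hy0.le hy1)
    rw [div_le_one hK0, pow_add] at h4
    have h5 : 2 ^ 21 * B ^ 3 ≤ 2 ^ k := by
      refine le_trans ?_ h4
      have b3 : B ^ 3 ≤ B ^ 4 := pow_le_pow_right₀ hB1 (by norm_num)
      have b4 : B ^ 4 ≤ 2 ^ p * B ^ 4 := le_mul_of_one_le_left (by positivity) hP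
      have b6 : 0 < B ^ 4 := by positivity
      nlinarith
    have h6 : 2 ^ 21 * B ^ 2 * 2 ^ (w + t) ≤ 2 ^ 21 * B ^ 3 * D2 :=
      (mul_le_mul_of_nonneg_left hlB (by positivity)).trans_eq (by ring)
    exact le_of_mul_le_mul_left (h3.trans (h2.trans (h6.trans
      (mul_le_mul_of_nonneg_right h5 hD2.le)))) hK0
  have hr : (1 : ℝ) ≤ 2 ^ G * Δ / 2 ^ (w + t) := by
    rw [le_div_iff₀ (by positivity), one_mul]
    have : (2 : ℝ) ^ 1 ≤ 2 ^ G := pow_le_pow_right₀ one_le_two (by omega)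
    nlinarith
  have hdiam : Diam F (2 ^ G * Δ / 2 ^ (w + t)) := fun x y y' h1 h2 => by
    have a1 : dd y (c x) ≤ _ := (hG _ h1).2.2
    have a2 : dd y' (c x) ≤ _ := (hG _ h2).2.2
    have a3 := dd_tri y (c x) y'
    have a4 : (2 : ℝ) ^ (g + α + 1) * Δ / 2 ^ w = 2 * (2 ^ (g + α) * Δ / 2 ^ w) := by ring
    rw [dd_comm (c x)] at a3
    rw [er]
    linarith
  have eK : ((2 ^ k : ℕ) : ℝ) = 2 ^ k := by push_cast; rfl
  have key := hS F X Y Δ (2 ^ G * Δ / 2 ^ (w + t)) (2 ^ (w + t)) (4 * (2 ^ 21 * B ^ 2)) D1 D2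
    (2 ^ 14 * (2 ^ 21 * B ^ 2) / 2 ^ k) (2 ^ 14 * (2 ^ 21 * B ^ 2) / (2 ^ k) ^ 2) (2 ^ k) hΔ
    (hR.mono hF) (hH.mono hF) hI Nat.one_le_two_pow hr (by positivity) (by positivity) hD1
    (by rwa [eK]) (by positivity) (by positivity) (dR.mono hF) (dC.mono hF)
    (by rw [eK, div_mul_cancel₀ _ (by positivity)]; exact mul_le_mul_of_nonneg_right hKG hΔ0.le)
    hdiam (fun η x0 => (ball_le_of_win hwin η x0).trans (by
      have e1 : 4 * (2 ^ 21 * B ^ 2) * Δ / (2 ^ G * Δ / 2 ^ (w + t)) =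
          4 * (2 ^ 21 * B ^ 2 * 2 ^ (w + t) / 2 ^ G) := by field_simp
      have e2 : (0 : ℝ) ≤ 2 ^ 21 * B ^ 2 * 2 ^ (w + t) / 2 ^ G := by positivity
      rw [e1]; linarith))
    (by rwa [eK]) c2
  rw [eK] at key
  have hpΔ : D1 * D2 / Δ ≤ 2 ^ p := (div_le_iff₀ hΔ0).2 hp
  have hm : mu F Δ X Y ≤ bb ^ (g + 1 + t) := by
    refine fin_High (B := B) (P := 2 ^ p) hy0 hy1 hB1 hK0 hP (by rw [pow_add]) hz
      (key.imp (fun h => h.trans ?_) (Or.imp (fun h => h.trans_eq ?_)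
        (Or.imp (fun h => h.trans_eq ?_) fun h => h.trans ?_)))
    · have e1 : 8 * (4 * (2 ^ 21 * B ^ 2)) * D1 / (2 ^ G * Δ / 2 ^ (w + t)) =
          2 ^ 26 * B ^ 2 * (D1 / Δ * 2 ^ (w + t)) / 2 ^ G := by field_simp; ring
      have e2 : D1 / Δ * 2 ^ (w + t) ≤ 2 ^ p * B :=
        (mul_le_mul_of_nonneg_left hlB (by positivity)).trans
          (((by ring : D1 / Δ * (B * D2) = D1 * D2 / Δ * B)).trans_le
            (mul_le_mul_of_nonneg_right hpΔ hB0.le))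
      rw [e1]
      refine div_le_div₀ (by positivity) ?_ hK0 hKG
      exact (mul_le_mul_of_nonneg_left e2 (by positivity)).trans_eq (by ring)
    · ring
    · field_simp; ring
    · refine (mul_le_mul_of_nonneg_right (mul_le_mul_of_nonneg_right
        (mul_le_mul_of_nonneg_left hpΔ (by positivity)) (by positivity))
        (by positivity)).trans_eq ?_
      rw [pow_add]; ring
  have hX : (0 : ℝ) < X.card := Nat.cast_pos.2 (card_pos.2 ⟨_, (hI e he).1⟩)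
  have hY : (0 : ℝ) < Y.card := Nat.cast_pos.2 (card_pos.2 ⟨_, (hI e he).2⟩)
  rw [mu, div_le_iff₀ (by positivity)] at hm
  exact hm.trans_eq (by ring)

theorem high_all : S_High :=
  high_pf ws_pf (del_pf cher_pf) (st_pf prune_pf path_pf (key_pf keyA_pf) close_pf far_pf)

end Hex888
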