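import Mathlib

set_option autoImplicit false
open Finset MeasureTheory
open scoped Classical

namespace Hex888
noncomputable section

abbrev Gr := Finset (ℕ × ℕ)

def rowS (E : Gr) (x : ℕ) : Finset ℕ := (E.filter (fun e => e.1 = x)).image Prod.snd
def colS (E : Gr) (y : ℕ) : Finset ℕ := (E.filter (fun e => e.2 = y)).image Prod.fst
def tr (E : Gr) : Gr := E.image Prod.swap
def dd (a b : ℕ) : ℝ := |(a : ℝ) - (b : ℝ)|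

def RectH (E : Gr) (Δ : ℝ) : Prop :=
  ∀ x x' y y' : ℕ, (x, y) ∈ E → (x, y') ∈ E → (x', y) ∈ E → (x', y') ∈ E →
    (dd x x' + 1) * (dd y y' + 1) ≤ Δ

def HexH (E : Gr) (Δ : ℝ) : Prop :=
  ∀ a b c p q s : ℕ, (a, q) ∈ E → (b, q) ∈ E → (b, p) ∈ E → (c, p) ∈ E → (c, s) ∈ E →
    (a, s) ∈ E → b ∈ Set.uIcc a c → q ∈ Set.uIcc p s →
    dd c a * dd s p - dd b a * dd q p ≤ Δ

def th : ℝ := 1023 / 1024
def b1 : ℝ := th ^ 5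
def bb : ℝ := th ^ 10

def In (F : Gr) (X Y : Finset ℕ) : Prop := ∀ e ∈ F, e.1 ∈ X ∧ e.2 ∈ Y
def DegR (E : Gr) (D : ℝ) : Prop := ∀ x, ((rowS E x).card : ℝ) ≤ D
def DegC (E : Gr) (D : ℝ) : Prop := ∀ y, ((colS E y).card : ℝ) ≤ D
def Diam (F : Gr) (r : ℝ) : Prop := ∀ x y y' : ℕ, (x, y) ∈ F → (x, y') ∈ F → dd y y' ≤ r

/-- points of column `y` in the dyadic window number `j` of length `2^v` -/
def win (E : Gr) (v j y : ℕ) : Finset ℕ := (colS E y).filter (fun x => x / 2 ^ v = j)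
/-- points of column `y` at distance `< l` from `x0` -/
def ball (E : Gr) (y x0 : ℕ) (l : ℝ) : Finset ℕ := (colS E y).filter (fun x => dd x x0 < l)
/-- points of row `x` at distance `≤ ρ` from `c` -/
def near (E : Gr) (x c : ℕ) (ρ : ℝ) : Finset ℕ := (rowS E x).filter (fun y => dd y c ≤ ρ)
/-- points `y` of row `x`, on the far side of `c` seen from `η`, whose column is dense near `x` -/
def supp (E : Gr) (x η c v : ℕ) (κ : ℝ) : Finset ℕ :=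
  (rowS E x).filter (fun y => dd η c ≤ dd y η ∧ κ * 2 ^ v ≤ ((win E v (x / 2 ^ v) y).card : ℝ))

def cherA (F : Gr) : Finset ((ℕ × ℕ)× (ℕ × ℕ)) := (F ×ˢ F).filter (fun p => p.1.1 = p.2.1)
def cherU (F : Gr) (Δ : ℝ) (u : ℕ) : Finset ((ℕ × ℕ) × (ℕ × ℕ)) :=
  (F ×ˢ F).filter (fun p => p.1.1 = p.2.1 ∧ (dd p.1.2 p.2.2 + 1) * 2 ^ u ≤ Δ)
def cherD (F : Gr) (ρ : ℝ) : Finset ((ℕ × ℕ) × (ℕ × ℕ)) :=
  (F ×ˢ F).filter (fun p => p.1.1 = p.2.1 ∧ dd p.1.2 p.2.2 ≤ ρ)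

def Light (F : Gr) (Δ : ℝ) (w : ℕ) : Prop :=
  ∀ y v j : ℕ, w < v → (2 : ℝ) ^ v ≤ 2 * Δ → ((win F v j y).card : ℝ) ≤ bb ^ (v - w - 1) * 2 ^ v

def Good (E : Gr) (Δ D : ℝ) (w t c x η : ℕ) : Prop :=
  (2 : ℝ) ^ (w + t) ≤ 2 * Δ ∧
  (∀ v : ℕ, w < v → (2 : ℝ) ^ v ≤ 2 * Δ →
    ((win E v (x / 2 ^ v) η).card : ℝ) ≤ bb ^ (v - w - 1) * 2 ^ v) ∧
  bb ^ t * D / 2 ^ 19 ≤ ((supp E x η c (w + t) (bb ^ t)).card : ℝ) ∧
  D / 256 ≤ ((near E x c (dd η c)).card : ℝ)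

/-- the distance `d` has level `g` -/
def Lv (Δ : ℝ) (α w g : ℕ) (d : ℝ) : Prop :=
  d ≤ 2 ^ (g + α) * Δ / 2 ^ w ∧ (g = 0 ∨ 2 ^ (g + α) * Δ / 2 ^ w ≤ 2 * d)

/-- paths ((x, η), (ξ, y)) with (x, η), (ξ, η) in F1 and (ξ, y) in F -/
def paths (F F1 : Gr) (l ρ : ℝ) : Finset ((ℕ × ℕ) × (ℕ × ℕ)) :=
  (F1 ×ˢ F).filter (fun π => (π.2.1, π.1.2) ∈ F1 ∧ l ≤ dd π.2.1 π.1.1 ∧ ρ < dd π.2.2 π.1.2)
def rk (F : Gr) (y ξ : ℕ) : ℕ := ((colS F y).filter (fun z => z < ξ)).card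
def pairs (F : Gr) (P : Finset ((ℕ × ℕ) × (ℕ × ℕ))) (ρ σ : ℝ) :
    Finset (((ℕ × ℕ) × (ℕ × ℕ)) × ((ℕ × ℕ) × (ℕ × ℕ))) :=
  (P ×ˢ P).filter (fun z => z.1.1.1 = z.2.1.1 ∧ z.1.2.2 = z.2.2.2 ∧
    dd (rk F z.1.2.2 z.1.2.1) (rk F z.1.2.2 z.2.2.1) ≤ σ ∧ dd z.1.1.2 z.2.1.2 ≤ ρ)
def pairsC (F : Gr) (P : Finset ((ℕ × ℕ) × (ℕ × ℕ))) (ρ σ ρ0 : ℝ) :
    Finset (((ℕ × ℕ) × (ℕ × ℕ)) × ((ℕ × ℕ) × (ℕ × ℕ))) :=
  (pairs F P ρ σ).filter (fun z => dd z.1.1.2 z.2.1.2 ≤ ρ0)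
def pairsF (F : Gr) (P : Finset ((ℕ × ℕ) × (ℕ × ℕ))) (ρ σ ρ0 : ℝ) :
    Finset (((ℕ × ℕ) × (ℕ × ℕ)) × ((ℕ × ℕ) × (ℕ × ℕ))) :=
  (pairs F P ρ σ).filter (fun z => ρ0 < dd z.1.1.2 z.2.1.2)
def kp (F : Gr) (D : ℝ) (K : ℕ) (π : (ℕ × ℕ) × (ℕ × ℕ)) : ℕ := ⌊(rk F π.2.2 π.2.1 : ℝ) * K / D⌋₊
def kq (r : ℝ) (K : ℕ) (π : (ℕ × ℕ) × (ℕ × ℕ)) : ℕ := ⌊dd π.1.2 π.2.2 * K / r⌋₊
def key (F : Gr) (r D : ℝ) (K : ℕ) (π : (ℕ × ℕ) × (ℕ × ℕ)) : (ℕ × ℕ) × (Bool × Bool) × ℕ :=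
  ((π.1.1, π.2.2), (decide (π.1.1 ≤ π.2.1), decide (π.2.2 ≤ π.1.2)),
    if π.1.1 ≤ π.2.1 then 2 * kp F D K π + (K - kq r K π) else 2 * kp F D K π + kq r K π)
def mu (F : Gr) (Δ : ℝ) (X Y : Finset ℕ) : ℝ := (F.card : ℝ) ^ 2 / (Δ * X.card * Y.card)

/-! ### Statements -/

def S_Cher : Prop :=
  ∀ (F : Gr) (Δ s : ℝ) (u : ℕ) (δ : ℕ → ℝ) (Y : Finset ℕ), 1 ≤ Δ → RectH F Δ →
    (∀ e ∈ F, e.2 ∈ Y) → (∀ v, 0 ≤ δ v) →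
    (∀ y v j : ℕ, u < v → (2 : ℝ) ^ v ≤ 2 * Δ → ((win F v j y).card : ℝ) ≤ δ v * 2 ^ v) →
    (∀ n, ∑ v ∈ Ioc u n, δ v ≤ s) →
    ((cherU F Δ u).card : ℝ) ≤ 8 * s * Δ * Y.card

def S_ParRow : Prop :=
  ∀ (E : Gr) (Δ D : ℝ) (x : ℕ), 1 ≤ Δ → 0 < D →
    ∃ (w t c : ℕ) (R : Finset ℕ), R ⊆ rowS E x ∧
      ((rowS E x).card : ℝ) ≤ R.card + 3 * (D / 256) ∧ ∀ η ∈ R, Good E Δ D w t c x η

def S_WS : Prop :=
  ∀ (E F : Gr) (Δ D r0 : ℝ) (w t : ℕ) (c : ℕ → ℕ), 1 ≤ Δ → RectH E Δ → DegR E D → 0 < D →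
    0 < r0 → F ⊆ E → (∀ e ∈ F, Good E Δ D w t (c e.1) e.1 e.2 ∧ r0 ≤ dd e.2 (c e.1)) →
    ∀ η j : ℕ, ((win F (w + t) j η).card : ℝ) ≤ 2 ^ 19 / bb ^ (2 * t) * Δ / r0

def S_Low : Prop :=
  ∀ (F : Gr) (Δ : ℝ) (X Y : Finset ℕ) (w α : ℕ), 1 ≤ Δ → RectH F Δ → In F X Y → Light F Δ w →
    (2 : ℝ) ^ w ≤ 2 * Δ → Diam F (2 ^ (α + 1) * Δ / 2 ^ w) →
    (F.card : ℝ) ^ 2 ≤ 8 * (α + 1026) * Δ * X.card * Y.card

def S_Orth : Prop :=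
  ∀ (E F : Gr) (Δ D1 D2 s : ℝ) (X Y : Finset ℕ) (w u : ℕ) (c : ℕ → ℕ), 1 ≤ Δ → 0 < D1 → 0 < D2 →
    RectH F Δ → In F X Y → DegR E D1 → Light F Δ w → 1 ≤ s →
    (∀ e ∈ F, dd e.1 (c e.2) ≤ s ∧
      D2 / 256 ≤ ((near (tr E) e.2 (c e.2) (dd e.1 (c e.2))).card : ℝ)) →
    D1 * s * 2 ^ (w + 11 + 2 * u) ≤ D2 * Δ →
    (F.card : ℝ) ^ 2 ≤ 8193 * bb ^ u * Δ * X.card * Y.card

def S_Prune : Prop :=
  ∀ (F : Gr) (X : Finset ℕ) (ρ1 ρ2 m1 m2 : ℝ), (∀ e ∈ F, e.1 ∈ X) → 0 < m1 → 0 < m2 →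
    8 * ((cherD F ρ1).card : ℝ) ≤ m1 * F.card → 8 * ((cherD F ρ2).card : ℝ) ≤ m2 * F.card →
    ∃ F1 : Gr, F1 ⊆ F ∧ (F.card : ℝ) ≤ 4 * F1.card ∧
      ∀ e ∈ F1, (F.card : ℝ) / X.card / 2 ≤ (rowS F e.1).card ∧
        ((near F e.1 e.2 ρ1).card : ℝ) ≤ m1 ∧ ((near F e.1 e.2 ρ2).card : ℝ) ≤ m2

def S_Path : Prop :=
  ∀ (F F1 : Gr) (Y : Finset ℕ) (l ρ q m d : ℝ), F1 ⊆ F → (∀ e ∈ F1, e.2 ∈ Y) →
    (∀ η x0, ((ball F η x0 l).card : ℝ) ≤ q) →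
    (∀ e ∈ F1, d / 2 ≤ (rowS F e.1).card ∧ ((near F e.1 e.2 ρ).card : ℝ) ≤ m) →
    m ≤ d / 4 → 0 ≤ d → 2 * q * Y.card ≤ F1.card →
    d * (F1.card : ℝ) ^ 2 ≤ 8 * Y.card * (paths F F1 l ρ).card

def S_KeyA : Prop :=
  ∀ (F F1 : Gr) (Δ r l ρ D : ℝ) (K : ℕ), HexH F Δ → F1 ⊆ F → 1 ≤ K → 0 < r → 0 < l → 0 < D →
    K * Δ ≤ r * l → Diam F r →
    ∀ π1 ∈ paths F F1 l ρ, ∀ π2 ∈ paths F F1 l ρ, key F r D K π1 = key F r D K π2 →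
      (π1, π2) ∈ pairs F (paths F F1 l ρ) (r / K) (D / K)

def S_Key : Prop :=
  ∀ (F F1 : Gr) (X : Finset ℕ) (Δ r l ρ D : ℝ) (K : ℕ), HexH F Δ → F1 ⊆ F → (∀ e ∈ F, e.1 ∈ X) →
    1 ≤ K → 1 ≤ r → 0 < l → 0 < D → DegC F D → K * Δ ≤ r * l → Diam F r →
    ((paths F F1 l ρ).card : ℝ) ^ 2 ≤
      80 * X.card * r * K * (pairs F (paths F F1 l ρ) (r / K) (D / K)).card

def S_Close : Prop :=
  ∀ (F F1 : Gr) (Δ l ρ q m ρ' σ : ℝ), RectH F Δ → F1 ⊆ F → 0 < l → 0 ≤ ρ → Δ ≤ ρ * l →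
    0 ≤ q → 0 ≤ m → (∀ η x0, ((ball F η x0 l).card : ℝ) ≤ q) →
    (∀ e ∈ F1, ((near F e.1 e.2 (Δ / l)).card : ℝ) ≤ m) →
    ((pairsC F (paths F F1 l ρ) ρ' σ (Δ / l)).card : ℝ) ≤ (paths F F1 l ρ).card * m * q

def S_Far : Prop :=
  ∀ (F F1 : Gr) (Δ l ρ q m ρ' σ D : ℝ), RectH F Δ → F1 ⊆ F → 0 < l → 0 ≤ σ → 0 ≤ q → 0 ≤ m →
    DegR F D → (∀ η x0, ((ball F η x0 l).card : ℝ) ≤ q) →
    (∀ e ∈ F1, ((near F e.1 e.2 (2 * ρ')).card : ℝ) ≤ m) →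
    ((pairsF F (paths F F1 l ρ) ρ' σ (Δ / l)).card : ℝ) ≤ F.card * (2 * σ + 1) * D * m * q

def S_ST : Prop :=
  ∀ (F : Gr) (X Y : Finset ℕ) (Δ r l τ D1 D2 sK sB : ℝ) (K : ℕ), 1 ≤ Δ → RectH F Δ → HexH F Δ →
    In F X Y → 1 ≤ K → 1 ≤ r → 0 < l → 0 < τ → 0 < D1 → (K : ℝ) ≤ D2 → 0 < sK → 0 < sB →
    DegR F D1 → DegC F D2 → K * Δ ≤ r * l → Diam F r →
    (∀ η x0, ((ball F η x0 l).card : ℝ) ≤ τ * Δ / r) →
    ((cherD F (2 * (r / K))).card : ℝ) ≤ sK * Δ * Y.card →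
    ((cherD F (Δ / l)).card : ℝ) ≤ sB * Δ * Y.card →
    mu F Δ X Y ≤ 8 * τ * D1 / r ∨ mu F Δ X Y ≤ 32 * sK ∨
      mu F Δ X Y ^ 2 ≤ 2 ^ 18 * K * τ * sB ∨ mu F Δ X Y ^ 3 ≤ 2 ^ 27 * (D1 * D2 / Δ) * τ * sK

def S_Del : Prop :=
  ∀ (F : Gr) (Δ τ0 : ℝ) (Y : Finset ℕ) (w v0 G k : ℕ), 1 ≤ Δ → RectH F Δ → (∀ e ∈ F, e.2 ∈ Y) →
    1 ≤ τ0 → w ≤ v0 → 4 * k ≤ G → (2 : ℝ) ^ v0 ≤ 2 * Δ → Light F Δ w →
    (∀ η j, ((win F v0 j η).card : ℝ) ≤ τ0 * 2 ^ v0 / 2 ^ G) →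
    ((cherD F (2 * (2 ^ G * Δ / 2 ^ v0 / 2 ^ k))).card : ℝ) ≤ 2 ^ 14 * τ0 / 2 ^ k * Δ * Y.card ∧
    ((cherD F (Δ / 2 ^ v0)).card : ℝ) ≤ 2 ^ 14 * τ0 / (2 ^ k) ^ 2 * Δ * Y.card

def S_High : Prop :=
  ∀ (E F : Gr) (X Y : Finset ℕ) (Δ D1 D2 : ℝ) (w t g α p : ℕ) (c : ℕ → ℕ), 1 ≤ Δ → RectH E Δ →
    HexH E Δ → 0 < D1 → 0 < D2 → DegR E D1 → DegC E D2 → D1 * D2 ≤ 2 ^ p * Δ →
    4 * p + 400 ≤ α → F ⊆ E → In F X Y →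
    (∀ e ∈ F, Good E Δ D1 w t (c e.1) e.1 e.2 ∧ 2 ^ (g + α) * Δ / 2 ^ w ≤ dd e.2 (c e.1) ∧
      dd e.2 (c e.1) ≤ 2 ^ (g + α + 1) * Δ / 2 ^ w) →
    (F.card : ℝ) ^ 2 ≤ bb ^ (g + 1 + t) * Δ * X.card * Y.card

def S_Lev : Prop :=
  ∀ (E F : Gr) (X Y : Finset ℕ) (Δ D1 D2 : ℝ) (w g α p : ℕ) (t c : ℕ → ℕ), 1 ≤ Δ → RectH E Δ →
    HexH E Δ → 0 < D1 → 0 < D2 → DegR E D1 → DegC E D2 → D1 * D2 ≤ 2 ^ p * Δ →
    4 * p + 400 ≤ α → F ⊆ E → In F X Y →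
    (∀ e ∈ F, Good E Δ D1 w (t e.1) (c e.1) e.1 e.2 ∧ Lv Δ α w g (dd e.2 (c e.1))) →
    (F.card : ℝ) ≤ (α + 1026) * b1 ^ g * √(Δ * X.card * Y.card)

def S_Schur : Prop :=
  ∀ (W W' : Finset ℕ) (x y : ℕ → ℝ) (κ : ℤ) (n0 : ℕ) (a b : ℝ), (∀ i, 0 ≤ x i) → (∀ j, 0 ≤ y j) →
    ∑ i ∈ W, x i ≤ a → ∑ j ∈ W', y j ≤ b →
    ∑ i ∈ W, ∑ j ∈ W', th ^ (((j : ℤ) - i - κ).natAbs - n0) * √(x i * y j) ≤
      (2 * n0 + 2049) * √(a * b)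

def S_Cls : Prop :=
  ∀ (E F : Gr) (X Y : Finset ℕ) (Δ D1 D2 : ℝ) (w w' g g' α p : ℕ) (κ : ℤ) (t c t' c' : ℕ → ℕ),
    1 ≤ Δ → RectH E Δ → HexH E Δ → 0 < D1 → 0 < D2 → DegR E D1 → DegC E D2 →
    D1 * D2 ≤ 2 ^ p * Δ → 4 * p + 400 ≤ α → D1 ≤ 2 ^ κ * D2 → D2 ≤ 2 ^ (1 - κ) * D1 →
    F ⊆ E → In F X Y →
    (∀ e ∈ F, Good E Δ D1 w (t e.1) (c e.1) e.1 e.2 ∧ Lv Δ α w g (dd e.2 (c e.1))) →
    (∀ e ∈ F, Good (tr E) Δ D2 w' (t' e.2) (c' e.2) e.2 e.1 ∧ Lv Δ α w' g' (dd e.1 (c' e.2))) →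
    (F.card : ℝ) ≤ 2 * (α + 1026) * th ^ (g + g' + (((w' : ℤ) - w - κ).natAbs - (α + 12))) *
      √(Δ * X.card * Y.card)

def S_Core : Prop :=
  ∀ (E : Gr) (X Y : Finset ℕ) (Δ D1 D2 : ℝ) (p : ℕ), 1 ≤ Δ → RectH E Δ → HexH E Δ →
    0 < D1 → 0 < D2 → DegR E D1 → DegC E D2 → D1 * D2 ≤ 2 ^ p * Δ → In E X Y →
    (E.card : ℝ) ≤ 3 * (D1 / 256) * X.card + 3 * (D2 / 256) * Y.card +
      2 ^ 30 * ((p : ℝ) + 400) ^ 2 * √(Δ * X.card * Y.card)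

def S_Disc : Prop :=
  ∃ C : ℝ, 0 < C ∧ ∀ (E : Gr) (X Y : Finset ℕ) (Δ : ℝ), 1 ≤ Δ → RectH E Δ → HexH E Δ → In E X Y →
    (E.card : ℝ) ^ 2 ≤ C * Δ * X.card * Y.card

def S_Grid : Prop :=
  ∀ A : Set (ℝ × ℝ), MeasurableSet A → A ⊆ Set.Icc (0 : ℝ) 1 ×ˢ Set.Icc (0 : ℝ) 1 →
    ∀ N : ℕ, 1 ≤ N → ∃ (s t : ℝ) (E : Gr), In E (range N) (range N) ∧
      (∀ e ∈ E, (((e.1 : ℝ) + s) / N, ((e.2 : ℝ) + t) / N) ∈ A) ∧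
      (N : ℝ) ^ 2 * (volume A).toReal ≤ 2 * E.card

def S_Hex : Prop :=
  ∃ κ : ℝ, 0 < κ ∧ ∀ A : Set (ℝ × ℝ), MeasurableSet A →
    A ⊆ Set.Icc (0 : ℝ) 1 ×ˢ Set.Icc (0 : ℝ) 1 → 0 < volume A →
    ∃ a b c p q s : ℝ, (a, q) ∈ A ∧ (b, q) ∈ A ∧ (b, p) ∈ A ∧ (c, p) ∈ A ∧ (c, s) ∈ A ∧
      (a, s) ∈ A ∧ b ∈ Set.uIcc a c ∧ q ∈ Set.uIcc p s ∧
      κ * (volume A).toReal ^ 2 ≤ |c - a| * |s - p| - |b - a| * |q - p|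

def S_Sub : Prop :=
  ∃ C : ℝ, ∀ u uy uxy : ℝ → ℝ → ℝ, Measurable (fun z : ℝ × ℝ => u z.1 z.2) →
    (∀ x ∈ Set.Icc (0 : ℝ) 1, ∀ y ∈ Set.Icc (0 : ℝ) 1,
      HasDerivAt (fun y' => u x y') (uy x y) y ∧ HasDerivAt (fun x' => uy x' y) (uxy x y) x ∧
        1 ≤ uxy x y) →
    ∀ ε : ℝ, 0 < ε →
      (volume {z : ℝ × ℝ | z ∈ Set.Icc (0 : ℝ) 1 ×ˢ Set.Icc (0 : ℝ) 1 ∧ |u z.1 z.2| ≤ ε}).toReal
        ≤ C * √ε

/-! ### Toolbox -/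

theorem mem_rowS {E : Gr} {x y : ℕ} : y ∈ rowS E x ↔ (x, y) ∈ E := by
  simp only [rowS, mem_image, mem_filter]
  constructor
  · rintro ⟨⟨a, b⟩, ⟨h, rfl⟩, rfl⟩; exact h
  · intro h; exact ⟨(x, y), ⟨h, rfl⟩, rfl⟩

theorem mem_colS {E : Gr} {x y : ℕ} : x ∈ colS E y ↔ (x, y) ∈ E := by
  simp only [colS, mem_image, mem_filter]
  constructor
  · rintro ⟨⟨a, b⟩, ⟨h, rfl⟩, rfl⟩; exact h
  · intro h; exact ⟨(x, y), ⟨h, rfl⟩, rfl⟩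

theorem mem_tr {E : Gr} {x y : ℕ} : (y, x) ∈ tr E ↔ (x, y) ∈ E := by
  simp only [tr, mem_image]
  constructor
  · rintro ⟨⟨a, b⟩, h, h2⟩
    simp only [Prod.swap_prod_mk, Prod.mk.injEq] at h2
    obtain ⟨rfl, rfl⟩ := h2; exact h
  · intro h; exact ⟨(x, y), h, rfl⟩

theorem mem_tr' {E : Gr} {e : ℕ × ℕ} : e ∈ tr E ↔ (e.2, e.1) ∈ E := by
  obtain ⟨a, b⟩ := e; exact mem_tr

theorem tr_tr (E : Gr) : tr (tr E) = E := by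
  ext e; rw [mem_tr', mem_tr]

theorem card_tr (E : Gr) : (tr E).card = E.card :=
  card_image_of_injective _ Prod.swap_injective

theorem tr_subset {E F : Gr} (h : F ⊆ E) : tr F ⊆ tr E := image_subset_image h

theorem rowS_tr (E : Gr) (y : ℕ) : rowS (tr E) y = colS E y := by
  ext x; rw [mem_rowS, mem_colS, mem_tr]

theorem colS_tr (E : Gr) (x : ℕ) : colS (tr E) x = rowS E x := by
  ext y; rw [mem_rowS, mem_colS, mem_tr]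

theorem rowS_mono {E F : Gr} (h : F ⊆ E) (x : ℕ) : rowS F x ⊆ rowS E x :=
  fun _ hy => mem_rowS.2 (h (mem_rowS.1 hy))

theorem colS_mono {E F : Gr} (h : F ⊆ E) (y : ℕ) : colS F y ⊆ colS E y :=
  fun _ hy => mem_colS.2 (h (mem_colS.1 hy))

theorem mem_win {E : Gr} {v j y x : ℕ} : x ∈ win E v j y ↔ (x, y) ∈ E ∧ x / 2 ^ v = j := by
  rw [win, mem_filter, mem_colS]

theorem mem_ball' {E : Gr} {y x0 x : ℕ} {l : ℝ} : x ∈ ball E y x0 l ↔ (x, y) ∈ E ∧ dd x x0 < l := by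
  rw [ball, mem_filter, mem_colS]

theorem mem_near {E : Gr} {x c y : ℕ} {ρ : ℝ} : y ∈ near E x c ρ ↔ (x, y) ∈ E ∧ dd y c ≤ ρ := by
  rw [near, mem_filter, mem_rowS]

theorem mem_supp {E : Gr} {x η c v y : ℕ} {κ : ℝ} : y ∈ supp E x η c v κ ↔
    (x, y) ∈ E ∧ dd η c ≤ dd y η ∧ κ * 2 ^ v ≤ ((win E v (x / 2 ^ v) y).card : ℝ) := by
  rw [supp, mem_filter, mem_rowS]

theorem mem_cherA {F : Gr} {p : (ℕ × ℕ) × (ℕ × ℕ)} :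
    p ∈ cherA F ↔ p.1 ∈ F ∧ p.2 ∈ F ∧ p.1.1 = p.2.1 := by
  rw [cherA, mem_filter, mem_product, and_assoc]

theorem mem_cherU {F : Gr} {Δ : ℝ} {u : ℕ} {p : (ℕ × ℕ) × (ℕ × ℕ)} :
    p ∈ cherU F Δ u ↔ p.1 ∈ F ∧ p.2 ∈ F ∧ p.1.1 = p.2.1 ∧ (dd p.1.2 p.2.2 + 1) * 2 ^ u ≤ Δ := by
  rw [cherU, mem_filter, mem_product, and_assoc]

theorem mem_cherD {F : Gr} {ρ : ℝ} {p : (ℕ × ℕ) × (ℕ × ℕ)} :
    p ∈ cherD F ρ ↔ p.1 ∈ F ∧ p.2 ∈ F ∧ p.1.1 = p.2.1 ∧ dd p.1.2 p.2.2 ≤ ρ := by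
  rw [cherD, mem_filter, mem_product, and_assoc]

theorem mem_paths {F F1 : Gr} {l ρ : ℝ} {π : (ℕ × ℕ) × (ℕ × ℕ)} :
    π ∈ paths F F1 l ρ ↔ π.1 ∈ F1 ∧ π.2 ∈ F ∧ (π.2.1, π.1.2) ∈ F1 ∧ l ≤ dd π.2.1 π.1.1 ∧
      ρ < dd π.2.2 π.1.2 := by
  rw [paths, mem_filter, mem_product, and_assoc]

theorem mem_pairs {F : Gr} {P : Finset ((ℕ × ℕ) × (ℕ × ℕ))} {ρ σ : ℝ}
    {z : ((ℕ × ℕ) × (ℕ × ℕ)) × ((ℕ × ℕ) × (ℕ × ℕ))} :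
    z ∈ pairs F P ρ σ ↔ z.1 ∈ P ∧ z.2 ∈ P ∧ z.1.1.1 = z.2.1.1 ∧ z.1.2.2 = z.2.2.2 ∧
      dd (rk F z.1.2.2 z.1.2.1) (rk F z.1.2.2 z.2.2.1) ≤ σ ∧ dd z.1.1.2 z.2.1.2 ≤ ρ := by
  rw [pairs, mem_filter, mem_product, and_assoc]

theorem dd_nonneg (a b : ℕ) : 0 ≤ dd a b := abs_nonneg _
theorem dd_comm (a b : ℕ) : dd a b = dd b a := abs_sub_comm _ _
theorem dd_self (a : ℕ) : dd a a = 0 := by simp [dd]
theorem dd_tri (a b c : ℕ) : dd a c ≤ dd a b + dd b c := abs_sub_le _ _ _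
theorem dd_of_le {a b : ℕ} (h : a ≤ b) : dd a b = (b : ℝ) - a := by
  have : (a : ℝ) ≤ b := by exact_mod_cast h
  rw [dd, abs_of_nonpos (by linarith)]; ring
theorem dd_of_ge {a b : ℕ} (h : b ≤ a) : dd a b = (a : ℝ) - b := by
  rw [dd_comm, dd_of_le h]
theorem dd_eq_zero_or (a b : ℕ) : dd a b = 0 ∨ 1 ≤ dd a b := by
  rcases lt_trichotomy a b with h | h | h
  · right; rw [dd_of_le h.le]
    have : (a : ℝ) + 1 ≤ b := by exact_mod_cast h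
    linarith
  · left; rw [h, dd_self]
  · right; rw [dd_of_ge h.le]
    have : (b : ℝ) + 1 ≤ a := by exact_mod_cast h
    linarith

theorem RectH.mono {E F : Gr} {Δ : ℝ} (h : RectH E Δ) (hF : F ⊆ E) : RectH F Δ :=
  fun x x' y y' h1 h2 h3 h4 => h x x' y y' (hF h1) (hF h2) (hF h3) (hF h4)

theorem HexH.mono {E F : Gr} {Δ : ℝ} (h : HexH E Δ) (hF : F ⊆ E) : HexH F Δ :=
  fun a b c p q s h1 h2 h3 h4 h5 h6 => h a b c p q s (hF h1) (hF h2) (hF h3) (hF h4) (hF h5) (hF h6)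

theorem RectH.tr {E : Gr} {Δ : ℝ} (h : RectH E Δ) : RectH (tr E) Δ := by
  intro x x' y y' h1 h2 h3 h4
  rw [mem_tr] at h1 h2 h3 h4
  rw [mul_comm]; exact h y y' x x' h1 h3 h2 h4

theorem HexH.tr {E : Gr} {Δ : ℝ} (h : HexH E Δ) : HexH (tr E) Δ := by
  intro a b c p q s h1 h2 h3 h4 h5 h6 hb hq
  rw [mem_tr] at h1 h2 h3 h4 h5 h6
  have := h p q s a b c h3 h2 h1 h6 h5 h4 hq hb
  linarith [mul_comm (dd c a) (dd s p), mul_comm (dd b a) (dd q p)]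

theorem DegR.mono {E F : Gr} {D : ℝ} (h : DegR E D) (hF : F ⊆ E) : DegR F D := fun x =>
  le_trans (by exact_mod_cast card_le_card (rowS_mono hF x)) (h x)

theorem DegC.mono {E F : Gr} {D : ℝ} (h : DegC E D) (hF : F ⊆ E) : DegC F D := fun x =>
  le_trans (by exact_mod_cast card_le_card (colS_mono hF x)) (h x)

theorem DegR.tr {E : Gr} {D : ℝ} (h : DegR E D) : DegC (tr E) D := fun x => by
  rw [colS_tr]; exact h x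

theorem DegC.tr {E : Gr} {D : ℝ} (h : DegC E D) : DegR (tr E) D := fun x => by
  rw [rowS_tr]; exact h x

theorem In.tr {F : Gr} {X Y : Finset ℕ} (h : In F X Y) : In (tr F) Y X := fun _ he =>
  (h _ (mem_tr'.1 he)).symm

theorem uIcc_dd {a b c : ℕ} (h : b ∈ Set.uIcc a c) : dd c a = dd c b + dd b a := by
  rcases Set.mem_uIcc.1 h with ⟨h1, h2⟩ | ⟨h1, h2⟩
  · rw [dd_of_ge (h1.trans h2), dd_of_ge h2, dd_of_ge h1]; ring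
  · rw [dd_of_le (h1.trans h2), dd_of_le h1, dd_of_le h2]; ring

/-- one arm of the hexagon -/
theorem HexH.arm {E : Gr} {Δ : ℝ} (h : HexH E Δ) {a b c p q s : ℕ} (h1 : (a, q) ∈ E)
    (h2 : (b, q) ∈ E) (h3 : (b, p) ∈ E) (h4 : (c, p) ∈ E) (h5 : (c, s) ∈ E) (h6 : (a, s) ∈ E)
    (hb : b ∈ Set.uIcc a c) (hq : q ∈ Set.uIcc p s) : dd c a * dd s q ≤ Δ := by
  have := h a b c p q s h1 h2 h3 h4 h5 h6 hb hq
  have e1 := uIcc_dd hb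
  have e2 := uIcc_dd hq
  have h0 := mul_nonneg (dd_nonneg c b) (dd_nonneg q p)
  rw [e2, e1] at this
  rw [e1]
  nlinarith

theorem card_le_of_diam (T : Finset ℕ) (L : ℝ) (hL : 0 ≤ L)
    (h : ∀ a ∈ T, ∀ b ∈ T, dd a b + 1 ≤ L) : (T.card : ℝ) ≤ L := by
  rcases T.eq_empty_or_nonempty with rfl | hne
  · simpa using hL
  · have h1 := h _ (T.min'_mem hne) _ (T.max'_mem hne)
    have hle : T.min' hne ≤ T.max' hne := T.min'_le _ (T.max'_mem hne)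
    rw [dd_of_le hle] at h1
    have h2 : T ⊆ Icc (T.min' hne) (T.max' hne) := fun a ha =>
      mem_Icc.2 ⟨T.min'_le a ha, T.le_max' a ha⟩
    have h3 := card_le_card h2
    rw [Nat.card_Icc] at h3
    have h4 : T.card + T.min' hne ≤ T.max' hne + 1 := by omega
    have h5 : (T.card : ℝ) + T.min' hne ≤ T.max' hne + 1 := by exact_mod_cast h4
    linarith

theorem card_le_of_dd (T : Finset ℕ) (c : ℕ) (R : ℝ) (hR : 0 ≤ R) (h : ∀ a ∈ T, dd a c ≤ R) :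
    (T.card : ℝ) ≤ 2 * R + 1 :=
  card_le_of_diam T _ (by linarith) fun a ha b hb => by
    have := dd_tri a c b
    have := h a ha
    have := h b hb
    rw [dd_comm c b] at *
    linarith

/-- common rows of two columns -/
theorem RectH.codeg {F : Gr} {Δ : ℝ} (h : RectH F Δ) (hΔ : 0 ≤ Δ) (y y' : ℕ) (T : Finset ℕ)
    (hT : ∀ x ∈ T, (x, y) ∈ F ∧ (x, y') ∈ F) : (T.card : ℝ) ≤ Δ / (dd y y' + 1) := by
  have hp : 0 < dd y y' + 1 := by linarith [dd_nonneg y y']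
  refine card_le_of_diam T _ (by positivity) fun a ha b hb => ?_
  rw [le_div_iff₀ hp]
  exact h a b y y' (hT a ha).1 (hT a ha).2 (hT b hb).1 (hT b hb).2

theorem card_eq_sum_rowS (F : Gr) (X : Finset ℕ) (h : ∀ e ∈ F, e.1 ∈ X) :
    F.card = ∑ x ∈ X, (rowS F x).card := by
  rw [card_eq_sum_card_fiberwise (f := Prod.fst) (t := X) (fun e he => h e he)]
  refine sum_congr rfl fun x _ => ?_
  rw [rowS, card_image_of_injOn]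
  intro a ha b hb hab
  simp only [coe_filter, Set.mem_ofPred_eq] at ha hb
  exact Prod.ext (ha.2.trans hb.2.symm) hab

theorem card_eq_sum_colS (F : Gr) (Y : Finset ℕ) (h : ∀ e ∈ F, e.2 ∈ Y) :
    F.card = ∑ y ∈ Y, (colS F y).card := by
  rw [← card_tr, card_eq_sum_rowS (tr F) Y (fun e he => h _ (mem_tr'.1 he))]
  simp only [rowS_tr]

theorem card_le_mul_DegR {F : Gr} {X : Finset ℕ} {D : ℝ} (h : ∀ e ∈ F, e.1 ∈ X) (hD : DegR F D) :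
    (F.card : ℝ) ≤ X.card * D := by
  rw [card_eq_sum_rowS F X h]
  push_cast
  calc _ ≤ ∑ _x ∈ X, D := sum_le_sum fun x _ => hD x
    _ = _ := by simp

/-- fibrewise bound with a real constant -/
theorem card_le_mul_fib {α β : Type*} [DecidableEq β] (P : Finset α) (T : Finset β) (f : α → β) (n : ℝ)
    (hf : ∀ a ∈ P, f a ∈ T) (hn : ∀ b ∈ T, ((P.filter (fun a => f a = b)).card : ℝ) ≤ n) :
    (P.card : ℝ) ≤ T.card * n := by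
  rw [card_eq_sum_card_fiberwise (f := f) (t := T) (fun e he => hf e he)]
  push_cast
  calc _ ≤ ∑ _x ∈ T, n := sum_le_sum fun x hx => hn x hx
    _ = _ := by simp

/-- Cauchy-Schwarz over the fibres of a map -/
theorem cs_key {α β : Type*} [DecidableEq β] (P : Finset α) (T : Finset β) (f : α → β) (hf : ∀ a ∈ P, f a ∈ T) :
    (P.card : ℝ) ^ 2 ≤ T.card * (((P ×ˢ P).filter (fun p => f p.1 = f p.2)).card : ℝ) := by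
  have h1 : (P.card : ℝ) = ∑ b ∈ T, ((P.filter (fun a => f a = b)).card : ℝ) := by
    rw [card_eq_sum_card_fiberwise (f := f) (t := T) (fun e he => hf e he)]; push_cast; rfl
  have h2 : (((P ×ˢ P).filter (fun p => f p.1 = f p.2)).card : ℝ) =
      ∑ b ∈ T, ((P.filter (fun a => f a = b)).card : ℝ) ^ 2 := by
    rw [card_eq_sum_card_fiberwise (f := fun p : α × α => f p.1) (t := T)
      (fun e he => hf _ (mem_product.1 (mem_filter.1 he).1).1)]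
    push_cast
    refine sum_congr rfl fun b _ => ?_
    have : ((P ×ˢ P).filter (fun p => f p.1 = f p.2)).filter (fun p => f p.1 = b) =
        (P.filter (fun a => f a = b)) ×ˢ (P.filter (fun a => f a = b)) := by
      ext p
      simp only [mem_filter, mem_product]
      constructor
      · rintro ⟨⟨⟨h1, h2⟩, h3⟩, h4⟩; exact ⟨⟨h1, h4⟩, h2, h3 ▸ h4⟩
      · rintro ⟨⟨h1, h4⟩, h2, h3⟩; exact ⟨⟨⟨h1, h2⟩, h4.trans h3.symm⟩, h4⟩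
    rw [this, card_product]; push_cast; ring
  rw [h1, h2]
  exact sq_sum_le_card_mul_sum_sq

theorem cs_cherA (F : Gr) (X : Finset ℕ) (h : ∀ e ∈ F, e.1 ∈ X) :
    (F.card : ℝ) ^ 2 ≤ X.card * ((cherA F).card : ℝ) := by
  exact cs_key F X Prod.fst h

theorem th_pos : 0 < th := by norm_num [th]
theorem th_lt_one : th < 1 := by norm_num [th]
theorem b1_pos : 0 < b1 := pow_pos th_pos _
theorem bb_pos : 0 < bb := pow_pos th_pos _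
theorem b1_le_th : b1 ≤ th := pow_le_of_le_one th_pos.le th_lt_one.le (by norm_num)
theorem bb_le_th : bb ≤ th := pow_le_of_le_one th_pos.le th_lt_one.le (by norm_num)
theorem b1_le_one : b1 ≤ 1 := b1_le_th.trans th_lt_one.le
theorem bb_le_one : bb ≤ 1 := bb_le_th.trans th_lt_one.le
theorem b1_sq : b1 ^ 2 = bb := by rw [b1, bb]; ring
theorem half_le_bb28 : 1 / 2 ≤ bb ^ 28 := by
  have := one_add_mul_le_pow (show (-2 : ℝ) ≤ -(1 / 1024) by norm_num) 280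
  have e : bb ^ 28 = (1 + -(1 / 1024) : ℝ) ^ 280 := by
    rw [bb, ← pow_mul]; congr 1; norm_num [th]
  rw [e]
  refine le_trans ?_ this
  norm_num
theorem half_le_bb : 1 / 2 ≤ bb :=
  half_le_bb28.trans (pow_le_of_le_one bb_pos.le bb_le_one (by norm_num))

/-- geometric sums over any finset of exponents -/
theorem geom_le (z : ℝ) (h0 : 0 ≤ z) (h1 : z ≤ th) (T : Finset ℕ) : ∑ i ∈ T, z ^ i ≤ 1024 := by
  have hs := hasSum_geometric_of_lt_one th_pos.le th_lt_one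
  calc ∑ i ∈ T, z ^ i ≤ ∑ i ∈ T, th ^ i := sum_le_sum fun i _ => pow_le_pow_left₀ h0 h1 i
    _ ≤ (1 - th)⁻¹ := sum_le_hasSum T (fun i _ => pow_nonneg th_pos.le i) hs
    _ = 1024 := by norm_num [th]

theorem geom_shift (z : ℝ) (h0 : 0 ≤ z) (h1 : z ≤ th) (u n : ℕ) :
    ∑ v ∈ Ioc u n, z ^ (v - u - 1) ≤ 1024 := by
  rw [← sum_image (s := Ioc u n) (g := fun v => v - u - 1) (f := fun i => z ^ i)]
  · exact geom_le z h0 h1 _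
  · intro a ha b hb hab
    simp only [coe_Ioc, Set.mem_Ioc] at ha hb
    simp only at hab
    omega

theorem win_mono {E F : Gr} (h : F ⊆ E) (v j y : ℕ) : win F v j y ⊆ win E v j y :=
  fun _ hx => mem_win.2 ⟨h (mem_win.1 hx).1, (mem_win.1 hx).2⟩

theorem light_of_good {E F : Gr} {Δ D : ℝ} {w : ℕ} (hF : F ⊆ E)
    (h : ∀ e ∈ F, ∃ t c, Good E Δ D w t c e.1 e.2) : Light F Δ w := by
  intro y v j hv h2
  rcases (win F v j y).eq_empty_or_nonempty with he | ⟨x, hx⟩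
  · rw [he]; have := bb_pos; simp only [card_empty, Nat.cast_zero]; positivity
  · obtain ⟨hx1, hx2⟩ := mem_win.1 hx
    obtain ⟨t, c, hg⟩ := h _ hx1
    have := hg.2.1 v hv h2
    simp only [hx2] at this
    exact le_trans (by exact_mod_cast card_le_card (win_mono hF v j y)) this

/-- a ball of radius `2^v` meets at most three windows -/
theorem ball_le_of_win {F : Gr} {v : ℕ} {q : ℝ} (h : ∀ η j, ((win F v j η).card : ℝ) ≤ q)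
    (η x0 : ℕ) : ((ball F η x0 (2 ^ v)).card : ℝ) ≤ 3 * q := by
  have hsub : ball F η x0 (2 ^ v) ⊆
      win F v (x0 / 2 ^ v - 1) η ∪ win F v (x0 / 2 ^ v) η ∪ win F v (x0 / 2 ^ v + 1) η := by
    intro x hx
    obtain ⟨h1, h2⟩ := mem_ball'.1 hx
    rw [dd, abs_lt] at h2
    have h3 : x0 < x + 2 ^ v := by
      have : (x0 : ℝ) < x + 2 ^ v := by linarith [h2.1]
      exact_mod_cast this
    have h4 : x < x0 + 2 ^ v := by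
      have : (x : ℝ) < x0 + 2 ^ v := by linarith [h2.2]
      exact_mod_cast this
    have hp : 0 < 2 ^ v := by positivity
    have h5 : x0 / 2 ^ v ≤ x / 2 ^ v + 1 := by
      rw [← Nat.add_div_right _ hp]; exact Nat.div_le_div_right h3.le
    have h6 : x / 2 ^ v ≤ x0 / 2 ^ v + 1 := by
      rw [← Nat.add_div_right _ hp]; exact Nat.div_le_div_right h4.le
    simp only [mem_union, mem_win, h1, true_and]
    generalize x / 2 ^ v = A at *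
    generalize x0 / 2 ^ v = B at *
    omega
  have h1 := card_le_card hsub
  have h2 := card_union_le (win F v (x0 / 2 ^ v - 1) η ∪ win F v (x0 / 2 ^ v) η)
    (win F v (x0 / 2 ^ v + 1) η)
  have h3 := card_union_le (win F v (x0 / 2 ^ v - 1) η) (win F v (x0 / 2 ^ v) η)
  have h4 : ((ball F η x0 (2 ^ v)).card : ℝ) ≤ (win F v (x0 / 2 ^ v - 1) η).card +
      (win F v (x0 / 2 ^ v) η).card + (win F v (x0 / 2 ^ v + 1) η).card := by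
    have h5 := h1.trans (h2.trans (Nat.add_le_add_right h3 _))
    exact_mod_cast h5
  linarith [h η (x0 / 2 ^ v - 1), h η (x0 / 2 ^ v), h η (x0 / 2 ^ v + 1)]

theorem exists_level (Δ : ℝ) (hΔ : 1 ≤ Δ) (α w : ℕ) (d : ℝ) : ∃ g, Lv Δ α w g d := by
  have hex : ∃ g : ℕ, d ≤ 2 ^ (g + α) * Δ / 2 ^ w := by
    have hp : (0 : ℝ) < 2 ^ α * Δ / 2 ^ w := by positivity
    obtain ⟨g, hg⟩ := pow_unbounded_of_one_lt (d / (2 ^ α * Δ / 2 ^ w)) (one_lt_two (α := ℝ))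
    refine ⟨g, ?_⟩
    rw [div_lt_iff₀ hp] at hg
    calc d ≤ 2 ^ g * (2 ^ α * Δ / 2 ^ w) := hg.le
      _ = _ := by rw [pow_add]; ring
  refine ⟨Nat.find hex, Nat.find_spec hex, ?_⟩
  rcases Nat.eq_zero_or_pos (Nat.find hex) with h0 | h0
  · exact Or.inl h0
  · right
    have := Nat.find_min hex (m := Nat.find hex - 1) (by omega)
    push Not at this
    have e : Nat.find hex + α = (Nat.find hex - 1 + α) + 1 := by omega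
    rw [e, pow_succ]
    have e2 : (2 : ℝ) ^ (Nat.find hex - 1 + α) * 2 * Δ / 2 ^ w =
      2 * (2 ^ (Nat.find hex - 1 + α) * Δ / 2 ^ w) := by ring
    rw [e2]; linarith

end
end Hex888
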